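import Pool.Agent.H.MP_43e44c_ag.NT.FldA
import Pool.Agent.H.MP_43e44c_ag.Gal

/-!
Nondegenerate CM types: existence, and the exceptional fields.
-/

set_option autoImplicit false

open NumberField Finset Module

namespace Pool.MP43e44c.NT

variable {K : Type*} [Field K] [NumberField K]

theorem FldB_klein {Γ : Type*} [Group Γ] (h4 : Nat.card Γ = 4) (hexp : ∀ g : Γ, g * g = 1) :
    IsKleinFour Γ := by
  refine ⟨h4, ?_⟩
  have h1 : Monoid.exponent Γ ∣ 2 := by
    apply Monoid.exponent_dvd_of_forall_pow_eq_one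
    intro g
    rw [pow_two]
    exact hexp g
  rcases (Nat.dvd_prime Nat.prime_two).mp h1 with h | h
  · exfalso
    have h2 : Nat.card Γ = 1 := by
      rw [Nat.card_eq_one_iff_unique]
      refine ⟨?_, ⟨1⟩⟩
      rw [← Monoid.exp_eq_one_iff]
      exact h
    omega
  · exact h

/-- Every CM field which is not exceptional has a nondegenerate CM type.
PROOF. `exists_nd` for `GG K`, `cc_field`; `Φ = {φ | f φ = 1}`; `nd_iff_finrank`; the exceptional cases by `galois_of_card`. -/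
theorem exists_type [IsCMField K] (hK : ¬ Exc K) :
    ∃ Φ : Finset (K →+* ℂ), IsCMType Φ ∧ 2 * finrank ℚ (conjSpan (GG K) Φ) = finrank ℚ K + 2 := by
  classical
  have x₀ : K →+* ℂ := Classical.arbitrary _
  have hcard : Fintype.card (K →+* ℂ) = finrank ℚ K := NumberField.Embeddings.card K ℂ
  rcases exists_nd (cc_field (K := K)) x₀ with ⟨f, hf, hnd⟩ | ⟨h4, hG, hexp⟩ | ⟨h8, ⟨e⟩⟩
  · have hc : ∀ φ : K →+* ℂ, f (ComplexEmbedding.conjugate φ) = - f φ := by
      intro φ
      rw [← conjG_smul]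
      exact hf.odd φ
    have hmem : ∀ φ : K →+* ℂ, φ ∈ univ.filter (fun φ : K →+* ℂ => f φ = 1) ↔ f φ = 1 := by
      intro φ; simp
    refine ⟨univ.filter fun φ => f φ = 1, ?_, ?_⟩
    · intro φ
      rw [hmem, hmem, hc]
      rcases hf.pm φ with h | h <;> rw [h] <;> decide
    · have hP : ∀ φ : K →+* ℂ, φ ∈ univ.filter (fun φ : K →+* ℂ => f φ = 1) ↔
          conjG K • φ ∉ univ.filter (fun φ : K →+* ℂ => f φ = 1) := by
        intro φ
        rw [hmem, hmem, conjG_smul, hc]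
        rcases hf.pm φ with h | h <;> rw [h] <;> decide
      have h1 := (nd_iff_finrank (cc_field (K := K)) hP).mp
      rw [hcard] at h1
      apply h1
      have h2 : (fun x : K →+* ℂ => if x ∈ univ.filter (fun φ : K →+* ℂ => f φ = 1) then (1 : ℤ)
          else -1) = f := by
        funext x
        rcases hf.pm x with h | h
        · rw [if_pos ((hmem x).mpr h), h]
        · rw [if_neg, h]
          rw [hmem, h]
          decide
      intro w hw
      exact hnd w ⟨hw.odd, fun g hg => by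
        have h3 := hw.orth g hg
        rw [← h3]
        refine Finset.sum_congr rfl fun x _ => ?_
        congr 1
        exact (congrFun h2 x).symm.trans (by congr)⟩
  · exfalso
    apply hK
    obtain ⟨hgal, ⟨e⟩⟩ := galois_of_card (K := K) (by rw [hG, ← hcard, h4])
    refine ⟨hgal, Or.inl (FldB_klein ?_ ?_)⟩
    · rw [Nat.card_congr e.toEquiv, hG]
    · intro g
      apply e.injective
      rw [map_mul, map_one]
      exact hexp _
  · exfalso
    apply hK
    obtain ⟨hgal, ⟨e'⟩⟩ := galois_of_card (K := K) (by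
      rw [Nat.card_congr e.toEquiv, DihedralGroup.nat_card, ← hcard, h8])
    exact ⟨hgal, Or.inr ⟨e'.trans e⟩⟩

/-- the main step for `not_prim_of_exc` -/
theorem FldB_step [IsGalois ℚ K] {Φ : Finset (K →+* ℂ)} (φ₀ : K →+* ℂ) {u : K ≃ₐ[ℚ] K}
    (u1 : u ≠ 1) (uu : u * u = 1) (hu : ∀ σ, tw φ₀ (σ * u) ∈ Φ ↔ tw φ₀ σ ∈ Φ) :
    ¬ Primitive Φ := by
  intro hprim
  have hfix := IntermediateField.fixingSubgroup_fixedField (Subgroup.zpowers u)
  have h1 : IntermediateField.fixedField (Subgroup.zpowers u) = ⊤ := by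
    apply hprim
    intro φ hφ ψ hψ
    obtain ⟨σ, rfl⟩ := (tw_bijective φ₀).2 φ
    obtain ⟨τ, rfl⟩ := (tw_bijective φ₀).2 ψ
    have h2 : σ⁻¹ * τ ∈ (IntermediateField.fixedField (Subgroup.zpowers u)).fixingSubgroup := by
      rw [IntermediateField.mem_fixingSubgroup_iff]
      intro x hx
      have h3 := hψ x hx
      rw [tw_apply, tw_apply] at h3
      have h4 := φ₀.injective h3
      rw [AlgEquiv.mul_apply, ← h4, ← AlgEquiv.mul_apply, inv_mul_cancel]
      rfl
    rw [hfix] at h2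
    obtain ⟨k, hk⟩ := h2
    have h5 : τ = σ * u ^ k := by
      have hk' : u ^ k = σ⁻¹ * τ := hk
      rw [hk']; group
    have h6 : u ^ (2 : ℤ) = 1 := by
      rw [zpow_two]; exact uu
    rcases Int.even_or_odd' k with ⟨m, rfl | rfl⟩
    · rw [h5, zpow_mul, h6, one_zpow, mul_one]
      exact hφ
    · rw [h5, zpow_add, zpow_mul, h6, one_zpow, one_mul, zpow_one]
      exact (hu σ).mpr hφ
  rw [h1, IntermediateField.fixingSubgroup_top] at hfix
  exact u1 (Subgroup.zpowers_eq_bot.mp hfix.symm)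

/-- No CM type of an exceptional field is primitive.
PROOF. Fix `φ₀`; the embeddings are `φ₀ ∘ σ`, `σ ∈ Γ = Gal(K/ℚ)` (K Galois).  `P = {σ | φ₀ ∘ σ ∈ Φ}`, `c` = the complex conjugation of
`K` (`IsCMField.complexConj`, central of order two, `conj (φ₀ ∘ σ) = φ₀ ∘ σ ∘ c`), `inv_four` / `inv_dih` give an
involution `u ≠ c`, with `φ₀ ∘ σ ∘ u ∈ Φ ↔ φ₀ ∘ σ ∈ Φ`.  `F` = the fixed field of `u` is proper, and two embeddings which agree on `F`
are `φ, φ` or `φ, φ ∘ u`. -/
theorem not_prim_of_exc [IsCMField K] (hK : Exc K) {Φ : Finset (K →+* ℂ)} (hΦ : IsCMType Φ) :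
    ¬ Primitive Φ := by
  obtain ⟨hgal, hcase⟩ := hK
  have φ₀ : K →+* ℂ := Classical.arbitrary _
  let c : K ≃ₐ[ℚ] K := (IsCMField.complexConj K).restrictScalars ℚ
  have hcx : ∀ (φ : K →+* ℂ) (x : K), φ (c x) = (starRingEnd ℂ) (φ x) := fun φ x =>
    IsCMField.complexEmbedding_complexConj K φ x
  have hconj : ∀ σ : K ≃ₐ[ℚ] K, ComplexEmbedding.conjugate (tw φ₀ σ) = tw φ₀ (σ * c) := by
    intro σ
    ext x
    rw [ComplexEmbedding.conjugate_coe_eq]
    exact (hcx (tw φ₀ σ) x).symm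
  have hcen : ∀ σ : K ≃ₐ[ℚ] K, σ * c = c * σ := by
    intro σ
    ext x
    apply φ₀.injective
    have h1 := hcx (tw φ₀ σ) x
    have h2 := hcx φ₀ (σ x)
    exact h1.trans h2.symm
  have c1 : c ≠ 1 := by
    intro h
    apply conj_ne φ₀
    ext x
    rw [ComplexEmbedding.conjugate_coe_eq, ← hcx, h]
    rfl
  have hP : ∀ σ : K ≃ₐ[ℚ] K, σ ∈ {σ : K ≃ₐ[ℚ] K | tw φ₀ σ ∈ Φ} ↔
      σ * c ∉ {σ : K ≃ₐ[ℚ] K | tw φ₀ σ ∈ Φ} := by
    intro σ
    have h := hΦ (tw φ₀ σ)
    rw [hconj] at h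
    exact h
  rcases hcase with hkl | ⟨⟨e⟩⟩
  · obtain ⟨u, uu, u1, -, hu⟩ := inv_four hkl.card_four (fun g => by
      have h := Monoid.pow_exponent_eq_one g
      rw [hkl.exponent_two, pow_two] at h
      exact h) c1 hP
    exact FldB_step φ₀ u1 uu hu
  · have hP' : ∀ d : DihedralGroup 4, d ∈ {d : DihedralGroup 4 | tw φ₀ (e.symm d) ∈ Φ} ↔
        d * e c ∉ {d : DihedralGroup 4 | tw φ₀ (e.symm d) ∈ Φ} := by
      intro d
      have h := hP (e.symm d)
      have h2 : e.symm (d * e c) = e.symm d * c := by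
        rw [map_mul, MulEquiv.symm_apply_apply]
      change tw φ₀ (e.symm d) ∈ Φ ↔ ¬ (tw φ₀ (e.symm (d * e c)) ∈ Φ)
      rw [h2]
      exact h
    obtain ⟨v, vv, v1, -, hv⟩ := inv_dih (c := e c) (fun g => by
      have h := hcen (e.symm g)
      have h2 := congrArg e h
      rwa [map_mul, map_mul, MulEquiv.apply_symm_apply] at h2) (fun h => c1 (by
        apply e.injective
        rw [h, map_one])) hP'
    refine FldB_step φ₀ (u := e.symm v) ?_ ?_ ?_
    · intro h
      apply v1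
      have h2 := congrArg e h
      rwa [MulEquiv.apply_symm_apply, map_one] at h2
    · rw [← map_mul, vv, map_one]
    · intro σ
      have h := hv (e σ)
      change tw φ₀ (e.symm (e σ * v)) ∈ Φ ↔ tw φ₀ (e.symm (e σ)) ∈ Φ at h
      rwa [map_mul, MulEquiv.symm_apply_apply] at h

end Pool.MP43e44c.NT
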