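import Pool.Agent.H.MP_43e44c_ag.NT.Defs

/-!
Nondegenerate CM types: the exceptional groups.
-/

set_option autoImplicit false

open Finset

namespace Pool.MP43e44c.NT

section

variable {Γ : Type*} [Group Γ]

/-- A half system of a group of order four and exponent two is invariant under an involution `u ≠ c`.
PROOF. `Γ = {1, c, t, c t}`; `u = t` if `1 ∈ P ↔ t ∈ P`, otherwise `u = c t`. -/
theorem inv_four (h4 : Nat.card Γ = 4) (hexp : ∀ g : Γ, g * g = 1) {c : Γ} (c1 : c ≠ 1)
    {P : Set Γ} (hP : ∀ x, x ∈ P ↔ x * c ∉ P) :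
    ∃ u : Γ, u * u = 1 ∧ u ≠ 1 ∧ u ≠ c ∧ ∀ x, x * u ∈ P ↔ x ∈ P := by
  classical
  have hfin : Finite Γ := Nat.finite_of_card_ne_zero (by omega)
  have : Fintype Γ := Fintype.ofFinite Γ
  have hcard : Fintype.card Γ = 4 := by rw [← Nat.card_eq_fintype_card]; exact h4
  have hcomm : ∀ a b : Γ, a * b = b * a := by
    intro a b
    have ha : a⁻¹ = a := inv_eq_of_mul_eq_one_left (hexp a)
    have hb : b⁻¹ = b := inv_eq_of_mul_eq_one_left (hexp b)
    have hab : (a * b)⁻¹ = a * b := inv_eq_of_mul_eq_one_left (hexp (a * b))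
    rw [mul_inv_rev, ha, hb] at hab
    exact hab.symm
  obtain ⟨t, ht⟩ : ∃ t : Γ, t ∉ ({1, c} : Finset Γ) := by
    by_contra h
    push Not at h
    have h1 : (Finset.univ : Finset Γ) ⊆ {1, c} := fun x _ => h x
    have h2 := Finset.card_le_card h1
    rw [Finset.card_univ, hcard] at h2
    have h3 := Finset.card_le_two (a := (1 : Γ)) (b := c)
    omega
  simp only [Finset.mem_insert, Finset.mem_singleton, not_or] at ht
  obtain ⟨t1, tc⟩ := ht
  have huniv : ∀ x : Γ, x = 1 ∨ x = c ∨ x = t ∨ x = t * c := by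
    have h1 : ({1, c, t, t * c} : Finset Γ) = Finset.univ := by
      apply Finset.eq_univ_of_card
      rw [hcard]
      have e1 : t ≠ t * c := fun h => c1 (by simpa using h.symm)
      have e2 : c ≠ t * c := fun h => t1 (by
        have := congrArg (· * c) h
        simp only [mul_assoc, hexp c, mul_one] at this
        exact this.symm)
      have e3 : (1 : Γ) ≠ t * c := fun h => tc (by
        have := congrArg (· * c) h
        simp only [mul_assoc, hexp c, mul_one, one_mul] at this
        exact this.symm)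
      rw [Finset.card_insert_of_notMem, Finset.card_insert_of_notMem,
        Finset.card_insert_of_notMem, Finset.card_singleton]
      · simpa using e1
      · simp only [Finset.mem_insert, Finset.mem_singleton, not_or]
        exact ⟨fun h => tc h.symm, e2⟩
      · simp only [Finset.mem_insert, Finset.mem_singleton, not_or]
        exact ⟨fun h => c1 h.symm, fun h => t1 h.symm, e3⟩
    intro x
    have h2 : x ∈ ({1, c, t, t * c} : Finset Γ) := by rw [h1]; exact Finset.mem_univ x
    simpa using h2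
  have p1 := hP 1
  have p2 := hP t
  rw [one_mul] at p1
  have e4 : t * c * t = c := by rw [hcomm t c, mul_assoc, hexp t, mul_one]
  have e5 : c * (t * c) = t := by rw [hcomm t c, ← mul_assoc, hexp c, one_mul]
  have e6 : t * (t * c) = c := by rw [← mul_assoc, hexp t, one_mul]
  by_cases h : (1 : Γ) ∈ P ↔ t ∈ P
  · refine ⟨t, hexp t, t1, tc, fun x => ?_⟩
    rcases huniv x with rfl | rfl | rfl | rfl
    · rw [one_mul]; tauto
    · rw [hcomm x t]; tauto
    · rw [hexp]; tauto
    · rw [e4]; tauto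
  · refine ⟨t * c, hexp _, fun h' => tc ?_, fun h' => t1 ?_, fun x => ?_⟩
    · have := congrArg (· * c) h'
      simp only [mul_assoc, hexp c, mul_one, one_mul] at this
      exact this
    · have := congrArg (· * c) h'
      simp only [mul_assoc, hexp c, mul_one] at this
      exact this
    · rcases huniv x with rfl | rfl | rfl | rfl
      · rw [one_mul]; tauto
      · rw [e5]; tauto
      · rw [e6]; tauto
      · rw [hexp]; tauto

open DihedralGroup in
theorem Prim_dih {P : Set (DihedralGroup 4)} (hP : ∀ x, x ∈ P ↔ x * r 2 ∉ P) (k : ZMod 4)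
    (h0 : r 0 ∈ P ↔ sr k ∈ P) (h1 : r 1 ∈ P ↔ sr (k - 1) ∈ P) :
    ∃ u : DihedralGroup 4, u * u = 1 ∧ u ≠ 1 ∧ u ≠ r 2 ∧ ∀ x, x * u ∈ P ↔ x ∈ P := by
  have key : ∀ i : ZMod 4, (r i ∈ P ↔ sr (k - i) ∈ P) := by
    have h2 : ∀ i : ZMod 4, (r i ∈ P ↔ sr (k - i) ∈ P) →
        (r (i + 2) ∈ P ↔ sr (k - (i + 2)) ∈ P) := by
      intro i hi
      have a1 := hP (r i)
      have a2 := hP (sr (k - (i + 2)))
      rw [r_mul_r] at a1
      rw [sr_mul_r] at a2
      have e1 : k - (i + 2) + 2 = k - i := by ring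
      rw [e1] at a2
      tauto
    have b0 : r 0 ∈ P ↔ sr (k - 0) ∈ P := by rw [sub_zero]; exact h0
    intro i
    have hi : i = 0 ∨ i = 1 ∨ i = 0 + 2 ∨ i = 1 + 2 := by revert i; decide
    rcases hi with rfl | rfl | rfl | rfl
    · exact b0
    · exact h1
    · exact h2 0 b0
    · exact h2 1 h1
  refine ⟨sr k, ?_, ?_, ?_, ?_⟩
  · rw [sr_mul_sr, sub_self, one_def]
  · rw [one_def]; exact fun h => by cases h
  · exact fun h => by cases h
  · rintro (i | i)
    · rw [r_mul_sr]; exact (key i).symm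
    · rw [sr_mul_sr]
      have := key (k - i)
      rw [sub_sub_cancel] at this
      exact this

open DihedralGroup in
/-- The same for the dihedral group of order eight (`c` central of order two).
PROOF. `c = r 2`.  `P` is determined by `P ∩ {1, r 1, sr 0, sr 1}`; 16 cases, `u` is one of `sr 0, sr 1, sr 2, sr 3`.
(`decide` for `DihedralGroup 4` with `P` given by a function `DihedralGroup 4 → Bool`, or by hand.) -/
theorem inv_dih {c : DihedralGroup 4} (hcen : ∀ g, g * c = c * g) (c1 : c ≠ 1)
    {P : Set (DihedralGroup 4)} (hP : ∀ x, x ∈ P ↔ x * c ∉ P) :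
    ∃ u : DihedralGroup 4, u * u = 1 ∧ u ≠ 1 ∧ u ≠ c ∧ ∀ x, x * u ∈ P ↔ x ∈ P := by
  have hc : c = r 2 := by
    rcases c with i | i
    · have h1 := hcen (sr 0)
      rw [sr_mul_r, r_mul_sr] at h1
      have h2 : (0 : ZMod 4) + i = 0 - i := by injection h1
      have h3 : i ≠ 0 := fun h => c1 (by rw [h, one_def])
      have h4 : i = 2 := by
        clear hcen c1 hP h1
        revert i; decide
      rw [h4]
    · have h1 := hcen (r 1)
      rw [r_mul_sr, sr_mul_r] at h1
      have h2 : i - 1 = i + 1 := by injection h1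
      exfalso
      clear h1 hcen c1 hP
      revert i; decide
  subst hc
  have s0 := hP (sr 0)
  have s1 := hP (sr 1)
  rw [sr_mul_r] at s0 s1
  have e2 : (0 : ZMod 4) + 2 = 2 := by decide
  have e3 : (1 : ZMod 4) + 2 = 3 := by decide
  rw [e2] at s0
  rw [e3] at s1
  have f0 : (0 : ZMod 4) - 1 = 3 := by decide
  have f1 : (1 : ZMod 4) - 1 = 0 := by decide
  have f2 : (2 : ZMod 4) - 1 = 1 := by decide
  have f3 : (3 : ZMod 4) - 1 = 2 := by decide
  have k0 := Prim_dih hP 0
  have k1 := Prim_dih hP 1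
  have k2 := Prim_dih hP 2
  have k3 := Prim_dih hP 3
  rw [f0] at k0
  rw [f1] at k1
  rw [f2] at k2
  rw [f3] at k3
  by_cases a0 : r 0 ∈ P <;> by_cases a1 : r 1 ∈ P <;> by_cases a2 : sr 0 ∈ P <;>
    by_cases a3 : sr 1 ∈ P <;> simp only [a0, a1, a2, a3, true_iff, iff_true, not_true_eq_false,
      false_iff, iff_false, not_not] at s0 s1 k0 k1 k2 k3 <;>
    simp only [s0, s1, true_implies, false_implies, not_true_eq_false, not_false_eq_true] at k0 k1 k2 k3 <;>
    first | exact k0 | exact k1 | exact k2 | exact k3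

end

end Pool.MP43e44c.NT
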