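import Pool.Agent.H.MP_43e44c_ag.NT.Defs

/-!
Nondegenerate CM types: the dimension of the space spanned by the conjugates.
-/

set_option autoImplicit false

open Finset Module

namespace Pool.MP43e44c.NT

section

variable {G : Type*} [Group G] {X : Type*} [MulAction G X] [Fintype X]

open Classical in
/-- The space spanned by the characteristic functions of the conjugates of `P`. -/
noncomputable def conjSpan (G : Type*) [Group G] {X : Type*} [MulAction G X] (P : Finset X) :
    Submodule ℚ (X → ℚ) :=
  Submodule.span ℚ (Set.range fun (g : G) (x : X) => if g • x ∈ P then (1 : ℚ) else 0)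

/-- the odd functions -/
def spanOdd (c : G) (X : Type*) [MulAction G X] : Submodule ℚ (X → ℚ) where
  carrier := {w | ∀ x, w (c • x) = -w x}
  add_mem' := by
    intro u v hu hv x
    rw [Pi.add_apply, Pi.add_apply, hu x, hv x]
    ring
  zero_mem' := by
    intro x
    simp
  smul_mem' := by
    intro a u hu x
    rw [Pi.smul_apply, Pi.smul_apply, hu x, smul_eq_mul, smul_eq_mul]
    ring

omit [Fintype X] in
theorem span_mem_odd {c : G} {w : X → ℚ} : w ∈ spanOdd c X ↔ ∀ x, w (c • x) = -w x := Iff.rfl

open Classical in
/-- the signs of the conjugates of `P`, rational -/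
noncomputable def spanF (P : Finset X) (g : G) (x : X) : ℚ := if g • x ∈ P then 1 else -1

omit [Fintype X] in
theorem span_cc {c : G} (hc : CC G X c) (x : X) : c • c • x = x := by
  rw [smul_smul, hc.sq, one_smul]

omit [Fintype X] in
theorem span_odd_F {c : G} (hc : CC G X c) {P : Finset X} (hP : ∀ x, x ∈ P ↔ c • x ∉ P) (g : G) :
    spanF P g ∈ spanOdd c X := by
  intro x
  have h1 : g • c • x = c • g • x := by rw [smul_smul, smul_smul, hc.cen]
  unfold spanF
  rw [h1]
  by_cases h : g • x ∈ P
  · have h2 : c • g • x ∉ P := (hP _).1 h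
    rw [if_neg h2, if_pos h]
  · have h2 : c • g • x ∈ P := by
      by_contra h3
      exact h ((hP _).2 h3)
    rw [if_pos h2, if_neg h]
    norm_num

/-- restriction of the odd functions to `P` is bijective -/
theorem span_finrank_odd {c : G} (hc : CC G X c) {P : Finset X} (hP : ∀ x, x ∈ P ↔ c • x ∉ P) :
    2 * finrank ℚ (spanOdd c X) = Fintype.card X := by
  classical
  have hcard : 2 * P.card = Fintype.card X := by
    have h1 : P.card = (Pᶜ).card := by
      refine Finset.card_bij' (fun x _ => c • x) (fun x _ => c • x) ?_ ?_ ?_ ?_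
      · intro x hx
        rw [Finset.mem_compl]
        exact (hP x).1 hx
      · intro x hx
        rw [Finset.mem_compl] at hx
        by_contra h3
        exact hx ((hP x).2 h3)
      · intro x _
        exact span_cc hc x
      · intro x _
        exact span_cc hc x
    have h2 := Finset.card_add_card_compl P
    omega
  let e : spanOdd c X ≃ₗ[ℚ] (P → ℚ) :=
    { toFun := fun w x => w.1 x
      map_add' := fun _ _ => rfl
      map_smul' := fun _ _ => rfl
      invFun := fun u => ⟨fun x => if h : x ∈ P then u ⟨x, h⟩ else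
          (if h' : c • x ∈ P then -u ⟨c • x, h'⟩ else 0), by
        intro x
        by_cases h : x ∈ P
        · have h2 : c • x ∉ P := (hP _).1 h
          simp only [h, h2, dite_true, dite_false]
          simp only [span_cc hc x, h, dite_true]
        · have h2 : c • x ∈ P := by
            by_contra h3
            exact h ((hP _).2 h3)
          simp only [h, h2, dite_true, dite_false, neg_neg]⟩
      left_inv := by
        intro w
        apply Subtype.ext
        funext x
        by_cases h : x ∈ P
        · simp only [h, dite_true]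
        · have h2 : c • x ∈ P := by
            by_contra h3
            exact h ((hP _).2 h3)
          simp only [h, h2, dite_true, dite_false]
          rw [w.2 x, neg_neg]
      right_inv := by
        intro u
        funext x
        simp only [x.2, dite_true] }
  rw [LinearEquiv.finrank_eq e, Module.finrank_fintype_fun_eq_card, Fintype.card_coe, hcard]

open Classical in
/-- PROOF. Let `S = conjSpan G P`, `1_g x = [g x ∈ P]`, `f_g = 2 * 1_g - 1` (odd, values `± 1`).  `∑_g f_g = 0` by oddness? (pair
`g` and `c g`: `1_g + 1_{c g} = 1` because `c g x ∈ P ↔ g x ∉ P`), so the constant `1 = 1_g + 1_{cg}` is in `S`, and all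
`f_g ∈ S`.  `S = ℚ 1 ⊕ span (f_g)`, and `span (f_g)` is contained in the space `O` of the odd functions (`w (c x) = - w x`), of
dimension `|X| / 2`; `ℚ 1 ∩ O = 0`.  If `f` is nondegenerate then `span (f_g) = O`: otherwise there is a rational `w ≠ 0` in `O` orthogonal to
all `f_g` (`LinearMap.BilinForm` / `dotProduct` on `O` is positive definite), clear denominators: an integral `w ≠ 0` with
`∑ f_g x w x = 0` for all `g`, i.e. `∑ f x w (g⁻¹ x) = 0`, contradiction.  So `finrank S = 1 + |X| / 2`.
Conversely, if `finrank S = 1 + |X| / 2` then `span (f_g) = O` and `w ∈ O` orthogonal to all `f_g` is orthogonal to itself. -/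
theorem nd_iff_finrank [Nonempty X] {c : G} (hc : CC G X c) {P : Finset X}
    (hP : ∀ x, x ∈ P ↔ c • x ∉ P) :
    Nd c ⊤ (fun x => if x ∈ P then (1 : ℤ) else -1) ↔
      2 * finrank ℚ (conjSpan G P) = Fintype.card X + 2 := by
  classical
  obtain ⟨O, hO⟩ : ∃ O, O = spanOdd c X := ⟨_, rfl⟩
  obtain ⟨T, hT⟩ : ∃ T : Submodule ℚ (X → ℚ),
      T = Submodule.span ℚ (Set.range (spanF P : G → X → ℚ)) :=
    ⟨_, rfl⟩
  have hTO : T ≤ O := by
    rw [hT, Submodule.span_le]
    rintro _ ⟨g, rfl⟩
    rw [hO]
    exact span_odd_F hc hP g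
  have hdO : 2 * finrank ℚ O = Fintype.card X := by rw [hO]; exact span_finrank_odd hc hP
  have hone : (1 : X → ℚ) ∉ O := by
    intro h
    obtain ⟨x⟩ := ‹Nonempty X›
    rw [hO] at h
    have := h x
    simp only [Pi.one_apply] at this
    norm_num at this
  -- the span
  have hS : conjSpan G P = Submodule.span ℚ {(1 : X → ℚ)} ⊔ T := by
    apply le_antisymm
    · unfold conjSpan
      rw [Submodule.span_le]
      rintro _ ⟨g, rfl⟩
      have h1 : (fun x : X => if g • x ∈ P then (1 : ℚ) else 0) =
          (1 / 2 : ℚ) • (1 : X → ℚ) + (1 / 2 : ℚ) • spanF P g := by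
        funext x
        rw [Pi.add_apply, Pi.smul_apply, Pi.smul_apply, Pi.one_apply]
        unfold spanF
        by_cases h : g • x ∈ P
        · rw [if_pos h, if_pos h]
          norm_num
        · rw [if_neg h, if_neg h]
          norm_num
      show (fun x : X => if g • x ∈ P then (1 : ℚ) else 0) ∈ _
      rw [h1]
      refine Submodule.add_mem_sup (Submodule.smul_mem _ _ (Submodule.mem_span_singleton_self _))
        (Submodule.smul_mem _ _ ?_)
      rw [hT]
      exact Submodule.subset_span ⟨g, rfl⟩
    · have h1S : (1 : X → ℚ) ∈ conjSpan G P := by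
        have h1 : (1 : X → ℚ) = (fun x : X => if (1 : G) • x ∈ P then (1 : ℚ) else 0) +
            fun x : X => if c • x ∈ P then (1 : ℚ) else 0 := by
          funext x
          rw [Pi.add_apply, Pi.one_apply, one_smul]
          by_cases h : x ∈ P
          · rw [if_pos h, if_neg ((hP x).1 h)]
            norm_num
          · have h2 : c • x ∈ P := by
              by_contra h3
              exact h ((hP _).2 h3)
            rw [if_neg h, if_pos h2]
            norm_num
        rw [h1]
        exact Submodule.add_mem _ (Submodule.subset_span ⟨1, rfl⟩)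
          (Submodule.subset_span ⟨c, rfl⟩)
      refine sup_le ?_ ?_
      · rw [Submodule.span_le, Set.singleton_subset_iff]
        exact h1S
      · rw [hT, Submodule.span_le]
        rintro _ ⟨g, rfl⟩
        have h1 : spanF P g = (2 : ℚ) • (fun x : X => if g • x ∈ P then (1 : ℚ) else 0) -
            (1 : X → ℚ) := by
          funext x
          rw [Pi.sub_apply, Pi.smul_apply, Pi.one_apply]
          unfold spanF
          by_cases h : g • x ∈ P
          · rw [if_pos h, if_pos h]
            norm_num
          · rw [if_neg h, if_neg h]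
            norm_num
        rw [SetLike.mem_coe, h1]
        exact Submodule.sub_mem _ (Submodule.smul_mem _ _ (Submodule.subset_span ⟨g, rfl⟩)) h1S
  have hinf : Submodule.span ℚ {(1 : X → ℚ)} ⊓ T = ⊥ := by
    rw [Submodule.eq_bot_iff]
    rintro u ⟨hu1, hu2⟩
    obtain ⟨a, rfl⟩ := Submodule.mem_span_singleton.1 hu1
    by_contra hne
    have ha : a ≠ 0 := by
      rintro rfl
      exact hne (zero_smul _ _)
    apply hone
    have h1 := O.smul_mem a⁻¹ (hTO hu2)
    rwa [smul_smul, inv_mul_cancel₀ ha, one_smul] at h1
  have hdS : finrank ℚ (conjSpan G P) = 1 + finrank ℚ T := by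
    have h1 := Submodule.finrank_sup_add_finrank_inf_eq (Submodule.span ℚ {(1 : X → ℚ)}) T
    have hne : (1 : X → ℚ) ≠ 0 := by
      intro h
      exact hone (by rw [h]; exact O.zero_mem)
    rw [hinf, finrank_bot, finrank_span_singleton hne, ← hS] at h1
    omega
  have hiff : 2 * finrank ℚ (conjSpan G P) = Fintype.card X + 2 ↔ T = O := by
    constructor
    · intro h
      exact Submodule.eq_of_le_of_finrank_eq hTO (by omega)
    · intro h
      rw [hdS, h]
      omega
  rw [hiff]
  -- sums
  have hre : ∀ (u v : X → ℚ) (g : G), ∑ x, u x * v (g • x) = ∑ x, u (g⁻¹ • x) * v x := by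
    intro u v g
    refine Fintype.sum_equiv (MulAction.toPerm g) _ _ fun x => ?_
    show u x * v (g • x) = u (g⁻¹ • g • x) * v (g • x)
    rw [inv_smul_smul]
  have hcast : ∀ (w : X → ℤ) (g : G), ((∑ x, (if x ∈ P then (1 : ℤ) else -1) * w (g • x) : ℤ) : ℚ) =
      ∑ x, spanF P g⁻¹ x * (w x : ℚ) := by
    intro w g
    have h1 := hre (fun x => ((if x ∈ P then (1 : ℤ) else -1 : ℤ) : ℚ)) (fun x => (w x : ℚ)) g
    have h2 : ∀ x, spanF P g⁻¹ x = ((if g⁻¹ • x ∈ P then (1 : ℤ) else -1 : ℤ) : ℚ) := by
      intro x
      unfold spanF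
      by_cases h : g⁻¹ • x ∈ P
      · rw [if_pos h, if_pos h]
        norm_num
      · rw [if_neg h, if_neg h]
        norm_num
    have h3 : ∑ x, spanF P g⁻¹ x * (w x : ℚ) =
        ∑ x, ((if g⁻¹ • x ∈ P then (1 : ℤ) else -1 : ℤ) : ℚ) * (w x : ℚ) :=
      Finset.sum_congr rfl fun x _ => by rw [h2 x]
    rw [h3]
    refine Eq.trans ?_ h1
    rw [Int.cast_sum]
    exact Finset.sum_congr rfl fun x _ => Int.cast_mul _ _
  constructor
  · intro hNd
    by_contra hne
    have hlt : T < O := lt_of_le_of_ne hTO hne
    obtain ⟨v, hvO, hvT⟩ := SetLike.exists_of_lt hlt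
    obtain ⟨φ, hφv, hφT⟩ := Submodule.exists_le_ker_of_notMem hvT
    obtain ⟨u, hu⟩ : ∃ u : X → ℚ, ∀ a : X → ℚ, φ a = ∑ x, a x * u x := by
      refine ⟨fun x => φ (Pi.single x 1), fun a => ?_⟩
      conv_lhs => rw [← Finset.univ_sum_single a]
      rw [map_sum]
      refine Finset.sum_congr rfl fun x _ => ?_
      have h1 : (Pi.single x (a x) : X → ℚ) = a x • Pi.single x (1 : ℚ) := by
        rw [← Pi.single_smul, smul_eq_mul, mul_one]
      rw [h1, map_smul, smul_eq_mul]
    have hOdd : ∀ a ∈ O, ∑ x, a x * (u x - u (c • x)) = 2 * φ a := by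
      intro a ha
      rw [hO] at ha
      have h1 : ∑ x, a x * u (c • x) = -∑ x, a x * u x := by
        have h2 : ∑ x, a x * u (c • x) = ∑ x, a (c • x) * u x := by
          refine Fintype.sum_equiv (MulAction.toPerm c) _ _ fun x => ?_
          show a x * u (c • x) = a (c • c • x) * u (c • x)
          rw [span_cc hc]
        rw [h2, ← Finset.sum_neg_distrib]
        refine Finset.sum_congr rfl fun x _ => ?_
        rw [ha x]
        ring
      simp only [mul_sub, Finset.sum_sub_distrib]
      rw [h1, hu a]
      ring
    obtain ⟨b, hb⟩ := IsLocalization.exist_integer_multiples_of_finite (nonZeroDivisors ℤ)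
      (fun x : X => u x - u (c • x))
    choose w hw using hb
    have hb0 : ((b : ℤ) : ℚ) ≠ 0 := by
      have := nonZeroDivisors.ne_zero b.2
      exact_mod_cast this
    have hw' : ∀ x, (w x : ℚ) = (b : ℤ) * (u x - u (c • x)) := by
      intro x
      have h1 := hw x
      rw [eq_intCast] at h1
      rw [h1, zsmul_eq_mul]
    have hOrth : Orth c ⊤ (fun x => if x ∈ P then (1 : ℤ) else -1) w := by
      refine ⟨fun x => ?_, fun g _ => ?_⟩
      · have h1 : (w (c • x) : ℚ) = -(w x : ℚ) := by
          rw [hw', hw', span_cc hc]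
          ring
        exact_mod_cast h1
      · have h1 := hcast w g
        have h2 : ∑ x, spanF P g⁻¹ x * (w x : ℚ) = 0 := by
          have h3 : ∑ x, spanF P g⁻¹ x * (w x : ℚ) =
              (b : ℤ) * ∑ x, spanF P g⁻¹ x * (u x - u (c • x)) := by
            rw [Finset.mul_sum]
            refine Finset.sum_congr rfl fun x _ => ?_
            rw [hw' x]
            ring
          have hT' : spanF P g⁻¹ ∈ T := by
            rw [hT]
            exact Submodule.subset_span ⟨g⁻¹, rfl⟩
          have h4 : φ (spanF P g⁻¹) = 0 := LinearMap.mem_ker.1 (hφT hT')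
          rw [h3, hOdd _ (hTO hT'), h4, mul_zero, mul_zero]
        rw [h2] at h1
        exact_mod_cast h1
    have hw0 := hNd w hOrth
    apply hφv
    have h5 := hOdd v hvO
    have h6 : ∑ x, v x * (u x - u (c • x)) = 0 := by
      refine Finset.sum_eq_zero fun x _ => ?_
      have h7 := hw' x
      rw [hw0] at h7
      simp only [Pi.zero_apply, Int.cast_zero] at h7
      rcases mul_eq_zero.1 h7.symm with h | h
      · exact absurd h hb0
      · rw [h, mul_zero]
    rw [h6] at h5
    linarith
  · intro hTO' w hw
    have hwT : (fun x => (w x : ℚ)) ∈ T := by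
      rw [hTO', hO]
      intro x
      show ((w (c • x) : ℤ) : ℚ) = -((w x : ℤ) : ℚ)
      rw [hw.odd x]
      push_cast
      rfl
    have horth : ∀ u ∈ T, ∑ x, u x * (w x : ℚ) = 0 := by
      intro u hu
      rw [hT] at hu
      induction hu using Submodule.span_induction with
      | mem u hu =>
        obtain ⟨g, rfl⟩ := hu
        have h1 := hw.orth g⁻¹ (Subgroup.mem_top _)
        have h2 := hcast w g⁻¹
        rw [h1, inv_inv] at h2
        exact_mod_cast h2.symm
      | zero => simp
      | add u v _ _ h1 h2 =>
        simp only [Pi.add_apply, add_mul, Finset.sum_add_distrib, h1, h2, add_zero]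
      | smul a u _ h1 =>
        simp only [Pi.smul_apply, smul_eq_mul, mul_assoc, ← Finset.mul_sum, h1, mul_zero]
    have h3 := horth _ hwT
    funext x
    have h4 := (Finset.sum_eq_zero_iff_of_nonneg (fun x _ => mul_self_nonneg ((w x : ℚ)))).1 h3 x
      (Finset.mem_univ x)
    have h5 : (w x : ℚ) = 0 := mul_self_eq_zero.1 h4
    exact_mod_cast h5

end

end Pool.MP43e44c.NT
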