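import Pool.Agent.H.MP_43e44c_ag.NT.Main
import Pool.Agent.H.MP_43e44c_ag.NT.Span
import Pool.Agent.H.MP_43e44c_ag.NT.Prim
import Pool.Agent.H.MP_43e44c_ag.Count2
import Pool.Agent.H.MP_43e44c_ag.NCl
import Pool.Agent.H.MP_43e44c_ag.GZ.FG

/-!
Nondegenerate CM types: translation to CM fields.
-/

set_option autoImplicit false

open NumberField Finset Module

namespace Pool.MP43e44c.NT

variable {K : Type*} [Field K] [NumberField K]

/-- A CM type is primitive if it is not induced from a proper subfield. -/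
def Primitive (Φ : Finset (K →+* ℂ)) : Prop :=
  ∀ F : IntermediateField ℚ K, (∀ φ ∈ Φ, ∀ ψ : K →+* ℂ, (∀ x ∈ F, φ x = ψ x) → ψ ∈ Φ) → F = ⊤

/-- The exceptional fields: Galois over the rationals with group the four-group or dihedral of order eight. -/
def Exc (K : Type*) [Field K] [NumberField K] : Prop :=
  IsGalois ℚ K ∧ (IsKleinFour (K ≃ₐ[ℚ] K) ∨ Nonempty ((K ≃ₐ[ℚ] K) ≃* DihedralGroup 4))

theorem cc_field [IsCMField K] : CC (GG K) (K →+* ℂ) (conjG K) := by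
  refine ⟨fun g => (GZ.conjG_comm g).symm, GZ.conjG_sq, fun φ => ?_⟩
  rw [conjG_smul]
  exact conj_ne φ

theorem flda_nd [IsCMField K] {Φ : Finset (K →+* ℂ)} (hΦ : IsCMType Φ)
    (h : 2 * finrank ℚ (conjSpan (GG K) Φ) = finrank ℚ K + 2) : Nd (conjG K) ⊤ (sg Φ) := by
  have h1 := (nd_iff_finrank (cc_field (K := K)) (P := Φ)
    (fun x => by rw [conjG_smul]; exact hΦ x)).2 (by rw [h, NumberField.Embeddings.card K ℂ])
  exact h1

/-- A nondegenerate CM type gives Hodge rings generated by divisor classes. -/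
theorem hodge_of_nd [IsCMField K] {Φ : Finset (K →+* ℂ)} (hΦ : IsCMType Φ)
    (h : 2 * finrank ℚ (conjSpan (GG K) Φ) = finrank ℚ K + 2) : HodgeRingGeneratedByDivisors Φ := by
  by_contra hbad
  obtain ⟨-, f, ⟨hf1, hf2⟩, hf0⟩ := bad_subset_lat (show Φ ∈ {Φ : Finset (K →+* ℂ) |
    IsCMType Φ ∧ ¬ HodgeRingGeneratedByDivisors Φ} from ⟨hΦ, hbad⟩)
  apply hf0
  apply flda_nd hΦ h f
  refine ⟨fun x => by rw [conjG_smul]; exact hf1 x, fun g _ => ?_⟩
  rw [← hf2 g⁻¹]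
  refine Fintype.sum_equiv (MulAction.toPerm g) _ _ fun x => ?_
  rw [MulAction.toPerm_apply, inv_smul_smul, mul_comm]

/-- Two different embeddings which agree on a proper subfield. -/
theorem flda_exists_ne {F : IntermediateField ℚ K} (hF : F ≠ ⊤) :
    ∃ φ ψ : K →+* ℂ, φ ≠ ψ ∧ ∀ x ∈ F, φ x = ψ x := by
  obtain ⟨φ₀⟩ : Nonempty (K →+* ℂ) := inferInstance
  let alg : Algebra F ℂ := (φ₀.comp (algebraMap F K)).toAlgebra
  have h1 : Nat.card (K →ₐ[F] ℂ) = finrank F K := by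
    rw [Nat.card_eq_fintype_card, AlgHom.card F K ℂ]
  have h2 : finrank F K ≠ 1 := fun h => hF (IntermediateField.finrank_eq_one_iff_eq_top.1 h)
  have h3 : 0 < finrank F K := finrank_pos
  have h4 : 1 < Nat.card (K →ₐ[F] ℂ) := by omega
  have h5 : Nontrivial (K →ₐ[F] ℂ) := Finite.one_lt_card_iff_nontrivial.1 h4
  obtain ⟨f, g, hfg⟩ := h5.exists_pair_ne
  refine ⟨f.toRingHom, g.toRingHom, fun h => hfg ?_, fun x hx => ?_⟩
  · ext x
    exact congrArg (fun s : K →+* ℂ => s x) h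
  · have h6 := f.commutes ⟨x, hx⟩
    have h7 := g.commutes ⟨x, hx⟩
    exact h6.trans h7.symm

/-- A nondegenerate CM type is primitive. -/
theorem prim_of_nd [IsCMField K] {Φ : Finset (K →+* ℂ)} (hΦ : IsCMType Φ)
    (h : 2 * finrank ℚ (conjSpan (GG K) Φ) = finrank ℚ K + 2) : Primitive Φ := by
  classical
  intro F hF
  by_contra hne
  obtain ⟨φ₀, ψ₀, hφψ, hag⟩ := flda_exists_ne hne
  have hsg : ∀ g : GG K, sg Φ (g • φ₀) = sg Φ (g • ψ₀) := by
    intro g
    have h1 := smul_agree hag g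
    by_cases h2 : g • φ₀ ∈ Φ
    · rw [sg_mem h2, sg_mem (hF _ h2 _ h1)]
    · have h3 : g • ψ₀ ∉ Φ := fun h3 => h2 (hF _ h3 _ fun x hx => (h1 x hx).symm)
      rw [sg_notMem h2, sg_notMem h3]
  let cj : (K →+* ℂ) → (K →+* ℂ) := ComplexEmbedding.conjugate
  have hcj : ∀ x y : K →+* ℂ, (cj x = y) = (x = cj y) := by
    intro x y
    apply propext
    constructor
    · rintro rfl
      exact (conj_conj x).symm
    · rintro rfl
      exact conj_conj y
  let δ : (K →+* ℂ) → (K →+* ℂ) → ℤ := fun a x => if x = a then 1 else 0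
  let w : (K →+* ℂ) → ℤ := fun x => δ φ₀ x - δ (cj φ₀) x - δ ψ₀ x + δ (cj ψ₀) x
  have hδc : ∀ a x, δ a (cj x) = δ (cj a) x := by
    intro a x
    simp only [δ, hcj]
  have hcc : ∀ a, cj (cj a) = a := conj_conj
  have hw0 : w = 0 := by
    apply flda_nd hΦ h w
    refine ⟨fun x => ?_, fun g _ => ?_⟩
    · rw [conjG_smul]
      show δ φ₀ (cj x) - δ (cj φ₀) (cj x) - δ ψ₀ (cj x) + δ (cj ψ₀) (cj x) =
        -(δ φ₀ x - δ (cj φ₀) x - δ ψ₀ x + δ (cj ψ₀) x)
      rw [hδc, hδc, hδc, hδc, hcc, hcc]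
      ring
    · have h1 : ∑ x, sg Φ x * w (g • x) = ∑ y, sg Φ (g⁻¹ • y) * w y := by
        refine Fintype.sum_equiv (MulAction.toPerm g) _ _ fun x => ?_
        rw [MulAction.toPerm_apply, inv_smul_smul]
      have h2 : ∀ a, ∑ y, sg Φ (g⁻¹ • y) * δ a y = sg Φ (g⁻¹ • a) := by
        intro a
        simp only [δ, mul_ite, mul_one, mul_zero]
        rw [Finset.sum_ite_eq' univ a, if_pos (mem_univ _)]
      have h3 : ∑ y, sg Φ (g⁻¹ • y) * w y = sg Φ (g⁻¹ • φ₀) - sg Φ (g⁻¹ • cj φ₀)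
          - sg Φ (g⁻¹ • ψ₀) + sg Φ (g⁻¹ • cj ψ₀) := by
        simp only [w, mul_add, mul_sub, sum_add_distrib, sum_sub_distrib, h2]
      have h4 : ∀ a, sg Φ (g⁻¹ • cj a) = - sg Φ (g⁻¹ • a) := by
        intro a
        show sg Φ (g⁻¹ • ComplexEmbedding.conjugate a) = _
        rw [hcgK, sg_conj hΦ]
      rw [h1, h3, h4, h4, hsg]
      ring
  have h5 := congrFun hw0 φ₀
  have h6 : φ₀ ≠ cj φ₀ := fun h => conj_ne φ₀ h.symm
  simp only [w, δ, Pi.zero_apply, if_neg hφψ, if_neg h6, if_true] at h5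
  split_ifs at h5 <;> omega

/-- If the Galois group of the closure is small then the field is its own Galois closure. -/
theorem galois_of_card [IsCMField K] (h : Nat.card (GG K) = finrank ℚ K) :
    IsGalois ℚ K ∧ Nonempty ((K ≃ₐ[ℚ] K) ≃* GG K) := by
  obtain ⟨x₀⟩ : Nonempty (K →+* ℂ) := inferInstance
  have h1 : finrank ℚ K = finrank ℚ (GC K) := by
    rw [← h, IsGalois.card_aut_eq_finrank]
  have hinj : Function.Injective (lft x₀) := (lft x₀).toRingHom.injective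
  have hsurj : Function.Surjective (lft x₀) :=
    (LinearMap.injective_iff_surjective_of_finrank_eq_finrank h1 (f := (lft x₀).toLinearMap)).1
      hinj
  let e : K ≃ₐ[ℚ] GC K := AlgEquiv.ofBijective (lft x₀) ⟨hinj, hsurj⟩
  exact ⟨IsGalois.of_algEquiv e.symm, ⟨AlgEquiv.autCongr e⟩⟩

end Pool.MP43e44c.NT
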