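import Pool.Agent.H.MP_43e44c_ag.NT.Defs

/-!
Nondegenerate CM types: sign functions, descent, flips.
-/

set_option autoImplicit false

open Finset

namespace Pool.MP43e44c.NT

section

variable {G : Type*} [Group G] {X : Type*} [MulAction G X]

/-- PROOF. Let `Q = MulAction.orbitRel.Quotient K X`; `c` commutes with `K`, so it induces an involution
`σ` of `Q` (`Quotient.map'`) without fixed points (`hfree`).  With a well order (`WellOrderingRel`) of `Q` put
`s x = 1` if `[x] < σ [x]` and `s x = -1` otherwise. -/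
theorem exists_inv_sgn (K : Subgroup G) {c : G} (hK : ∀ k ∈ K, k * c = c * k) (hcc : c * c = 1)
    (hfree : ∀ x : X, ∀ k ∈ K, k • x ≠ c • x) :
    ∃ s : X → ℤ, Sgn c s ∧ ∀ k ∈ K, ∀ x, s (k • x) = s x := by
  classical
  let q : X → MulAction.orbitRel.Quotient K X := fun x => Quotient.mk _ x
  have hq : ∀ x y, q x = q y → ∃ k ∈ K, k • y = x := by
    intro x y h
    have h1 : (MulAction.orbitRel K X) x y := Quotient.exact h
    rw [MulAction.orbitRel_apply] at h1
    obtain ⟨k, hk⟩ := h1
    exact ⟨k.1, k.2, hk⟩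
  have hq' : ∀ k ∈ K, ∀ x, q (k • x) = q x := by
    intro k hk x
    apply Quotient.sound
    change (MulAction.orbitRel K X) (k • x) x
    rw [MulAction.orbitRel_apply]
    exact ⟨⟨k, hk⟩, rfl⟩
  have hne : ∀ x, q x ≠ q (c • x) := by
    intro x h
    obtain ⟨k, hk, h1⟩ := hq _ _ h.symm
    exact hfree x k hk h1
  have hccx : ∀ x : X, c • c • x = x := by
    intro x
    rw [← mul_smul, hcc, one_smul]
  refine ⟨fun x => if WellOrderingRel (q x) (q (c • x)) then 1 else -1, ⟨?_, ?_⟩, ?_⟩
  · intro x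
    by_cases h : WellOrderingRel (q x) (q (c • x))
    · left; exact if_pos h
    · right; exact if_neg h
  · intro x
    rw [hccx]
    rcases trichotomous_of (WellOrderingRel) (q x) (q (c • x)) with h | h | h
    · have h' : ¬ WellOrderingRel (q (c • x)) (q x) := asymm_of WellOrderingRel h
      rw [if_pos h, if_neg h']
    · exact absurd h (hne x)
    · have h' : ¬ WellOrderingRel (q x) (q (c • x)) := asymm_of WellOrderingRel h
      rw [if_pos h, if_neg h']
      norm_num
  · intro k hk x
    simp only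
    have h1 : c • k • x = k • c • x := by
      rw [← mul_smul, ← mul_smul, hK k hk]
    rw [h1, hq' k hk, hq' k hk]

/-- PROOF. By induction on `k`, for all `w` with `P w` and all `x`, `e ^ k` divides `w x`.  So `w x = 0`
(`Int.eq_zero_of_abs_lt_dvd` with `k = |w x|`, `n < 2 ^ n`). -/
theorem descent {X : Type*} {P : (X → ℤ) → Prop} {e : ℤ} (he : 2 ≤ e)
    (h : ∀ w, P w → ∃ w', P w' ∧ ∀ x, w x = e * w' x) : ∀ w, P w → w = 0 := by
  have key : ∀ k : ℕ, ∀ w, P w → ∀ x, e ^ k ∣ w x := by
    intro k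
    induction k with
    | zero =>
      intro w _ x
      simp
    | succ k ih =>
      intro w hw x
      obtain ⟨w', hw', h1⟩ := h w hw
      rw [h1 x, pow_succ, mul_comm (e ^ k) e]
      exact mul_dvd_mul_left e (ih w' hw' x)
  intro w hw
  funext x
  have h1 := key (w x).natAbs w hw x
  have h2 : ((w x).natAbs : ℤ) < 2 ^ (w x).natAbs := by exact_mod_cast Nat.lt_two_pow_self
  have h3 : (2 : ℤ) ^ (w x).natAbs ≤ e ^ (w x).natAbs := pow_le_pow_left₀ (by norm_num) he _
  apply Int.eq_zero_of_abs_lt_dvd h1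
  rw [Int.abs_eq_natAbs]
  linarith

variable [Fintype X] {c : G} {M : Subgroup G} {f w : X → ℤ}

theorem Nd.mono {M' : Subgroup G} (hf : Nd c M f) (h : M ≤ M') : Nd c M' f :=
  fun w hw => hf w ⟨hw.odd, fun g hg => hw.orth g (h hg)⟩

/-- PROOF. `descent` with `P = Orth c M f`; `w' x = w x / e`. -/
theorem nd_of_dvd {e : ℤ} (he : 2 ≤ e) (h : ∀ w, Orth c M f w → ∀ x, e ∣ w x) : Nd c M f := by
  have he0 : e ≠ 0 := by omega
  intro w hw
  refine descent (P := Orth c M f) he ?_ w hw
  intro w hw
  choose w' hw' using h w hw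
  refine ⟨w', ⟨?_, ?_⟩, hw'⟩
  · intro x
    have h1 := hw.odd x
    rw [hw' x, hw' (c • x)] at h1
    have h2 : e * w' (c • x) = e * (-w' x) := by rw [h1]; ring
    exact mul_left_cancel₀ he0 h2
  · intro g hg
    have h1 := hw.orth g hg
    have h2 : ∑ x, f x * w (g • x) = e * ∑ x, f x * w' (g • x) := by
      rw [Finset.mul_sum]
      apply Finset.sum_congr rfl
      intro x _
      rw [hw' (g • x)]
      ring
    rw [h2] at h1
    exact (mul_eq_zero.1 h1).resolve_left he0

/-- PROOF. `(g * g₀) • x = g • g₀ • x` for `g ∈ ⊤`. -/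
theorem Orth.translate (hc : CC G X c) (h : Orth c ⊤ f w) (g₀ : G) :
    Orth c ⊤ f (fun x => w (g₀ • x)) := by
  constructor
  · intro x
    have h1 : g₀ • c • x = c • g₀ • x := by
      rw [← mul_smul, ← mul_smul, hc.cen]
    rw [h1, h.odd]
  · intro g _
    have h1 := h.orth (g₀ * g) (Subgroup.mem_top _)
    simp only [mul_smul] at h1
    exact h1

open Classical in
/-- The function with the signs at `x₀` and `c • x₀` changed. -/
noncomputable def flip (c : G) (x₀ : X) (f : X → ℤ) (x : X) : ℤ :=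
  if x = x₀ ∨ x = c • x₀ then -f x else f x

omit [Fintype X] in
theorem flip_sgn (hc : CC G X c) (hf : Sgn c f) (x₀ : X) : Sgn c (flip c x₀ f) := by
  have hccx : ∀ x : X, c • c • x = x := by
    intro x
    rw [← mul_smul, hc.sq, one_smul]
  constructor
  · intro x
    unfold flip
    split_ifs
    · rcases hf.pm x with h | h
      · right; rw [h]
      · left; rw [h]; norm_num
    · exact hf.pm x
  · intro x
    have h1 : (c • x = x₀ ∨ c • x = c • x₀) ↔ (x = x₀ ∨ x = c • x₀) := by
      constructor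
      · rintro (h | h)
        · right; rw [← h, hccx]
        · left; exact smul_left_cancel c h
      · rintro (h | h)
        · right; rw [h]
        · left; rw [h, hccx]
    unfold flip
    by_cases h : x = x₀ ∨ x = c • x₀
    · rw [if_pos h, if_pos (h1.2 h), hf.odd]
    · rw [if_neg h, if_neg (fun h2 => h (h1.1 h2)), hf.odd]

/-- PROOF. The difference is `2 f x₀ w (g x₀) + 2 f (c x₀) w (g c x₀)` (`c x₀ ≠ x₀`), `f (c x₀) = - f x₀`,
`w (g c x₀) = w (c g x₀) = - w (g x₀)`. -/
theorem flip_sum (hc : CC G X c) (hf : Sgn c f) (hw : ∀ x, w (c • x) = -w x) (x₀ : X) (g : G) :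
    ∑ x, flip c x₀ f x * w (g • x) = ∑ x, f x * w (g • x) - 4 * (f x₀ * w (g • x₀)) := by
  classical
  have h1 : ∀ x, flip c x₀ f x * w (g • x) = f x * w (g • x) -
      ((if x = x₀ then 2 * (f x * w (g • x)) else 0) +
        (if x = c • x₀ then 2 * (f x * w (g • x)) else 0)) := by
    intro x
    unfold flip
    by_cases h2 : x = x₀
    · have h3 : x ≠ c • x₀ := by
        rw [h2]
        exact fun h4 => hc.free x₀ h4.symm
      rw [if_pos (Or.inl h2), if_pos h2, if_neg h3]
      ring
    · by_cases h3 : x = c • x₀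
      · rw [if_pos (Or.inr h3), if_neg h2, if_pos h3]
        ring
      · have h4 : ¬ (x = x₀ ∨ x = c • x₀) := by
          rintro (h5 | h5)
          · exact h2 h5
          · exact h3 h5
        rw [if_neg h4, if_neg h2, if_neg h3]
        ring
  have h2 : w (g • c • x₀) = -w (g • x₀) := by
    rw [← mul_smul, hc.cen, mul_smul, hw]
  simp_rw [h1]
  rw [Finset.sum_sub_distrib, Finset.sum_add_distrib, Finset.sum_ite_eq', Finset.sum_ite_eq',
    if_pos (Finset.mem_univ _), if_pos (Finset.mem_univ _), h2, hf.odd]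
  ring

end

end Pool.MP43e44c.NT
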