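import Pool.Agent.H.MP_43e44c_ag.NT.Bas

/-!
Nondegenerate CM types: groups with a cyclic subgroup of index at most two.
-/

set_option autoImplicit false

open Finset

namespace Pool.MP43e44c.NT

section

variable {G : Type*} [Group G] {X : Type*} [MulAction G X] [Fintype X]

open Classical in
/-- From a half system to a sign function. PROOF. `f x = 1` if `x ∈ P`, `-1` otherwise; `∑ f x w (g x) = 2 ∑_{p ∈ P} w (g p)`
for odd `w` (the complement of `P` is `c P`). -/
theorem nd_of_half {c : G} (hc : CC G X c) (P : Finset X) (hP : ∀ x, x ∈ P ↔ c • x ∉ P)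
    (h : ∀ w : X → ℤ, (∀ x, w (c • x) = -w x) → (∀ g : G, ∑ p ∈ P, w (g • p) = 0) → w = 0) :
    ∃ f : X → ℤ, Sgn c f ∧ Nd c ⊤ f := by
  refine ⟨fun x => if x ∈ P then 1 else -1, ⟨?_, ?_⟩, ?_⟩
  · intro x
    by_cases hx : x ∈ P
    · exact Or.inl (by simp [hx])
    · exact Or.inr (by simp [hx])
  · intro x
    by_cases hx : x ∈ P
    · have h1 := (hP x).1 hx
      simp [hx, h1]
    · have h1 : c • x ∈ P := by
        by_contra h2
        exact hx ((hP x).2 h2)
      simp [hx, h1]
  · intro w hw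
    refine h w hw.odd fun g => ?_
    have h1 := hw.orth g (Subgroup.mem_top g)
    have h2 : ∑ x, w (g • x) = 0 := by
      have h3 : ∑ x, w (g • (MulAction.toPerm c x)) = ∑ x, w (g • x) :=
        Equiv.sum_comp (MulAction.toPerm c) fun x => w (g • x)
      have h4 : ∀ x : X, w (g • (MulAction.toPerm c x)) = - w (g • x) := by
        intro x
        rw [MulAction.toPerm_apply, smul_smul, hc.cen, ← smul_smul]
        exact hw.odd _
      rw [Finset.sum_congr rfl fun x _ => h4 x, Finset.sum_neg_distrib] at h3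
      omega
    have h5 : ∀ x : X, (if x ∈ P then (1 : ℤ) else -1) * w (g • x) =
        2 * (if x ∈ P then w (g • x) else 0) - w (g • x) := by
      intro x
      by_cases hx : x ∈ P
      · simp only [hx, if_true]; ring
      · simp only [hx, if_false]; ring
    rw [Finset.sum_congr rfl fun x _ => h5 x, Finset.sum_sub_distrib, h2, ← Finset.mul_sum,
      Finset.sum_ite_mem, Finset.univ_inter] at h1
    omega

/-- PROOF. `r` acts freely: if `r ^ i x = x` and `r ^ i ≠ 1` then some power of `r ^ i` is `c`... ; we only need: the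
elements `r ^ i x₀`, `0 ≤ i < h`, are different and `r ^ i x₀ ≠ c r ^ j x₀` (if `r ^ i x = r ^ j x`, `0 < j - i < h`, then
`d = gcd (j - i) (2 h)` divides `h`?  `h` is a power of two or: the stabiliser of `x` in `zpowers r` has odd order... ).
NOTE: `h` is a power of two here (`hh`), so the subgroup generated by `r ^ (j - i)`, `0 < j - i < 2 h`, contains
`c = r ^ h`, which has no fixed point. -/
theorem cyc_free {c r : G} (hc : CC G X c) {a h : ℕ} (hh : h = 2 ^ a) (hr : orderOf r = 2 * h)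
    (hrc : r ^ h = c) (x : X) {i : ℤ} (hi : r ^ i • x = x) : r ^ i = 1 := by
  have hpos : 0 < 2 * h := by rw [hh]; positivity
  obtain ⟨j, hj⟩ : ∃ j : ℕ, (j : ℤ) = i % (2 * h : ℕ) :=
    ⟨(i % (2 * h : ℕ)).toNat, Int.toNat_of_nonneg (Int.emod_nonneg _ (by omega))⟩
  have hjlt : j < 2 * h := by
    have := Int.emod_lt_of_pos i (b := ((2 * h : ℕ) : ℤ)) (by exact_mod_cast hpos)
    omega
  have hij : r ^ i = r ^ j := by
    rw [← zpow_natCast r j, hj, ← hr]
    exact (zpow_mod_orderOf r i).symm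
  rw [hij] at hi ⊢
  by_cases hj0 : j = 0
  · simp [hj0]
  exfalso
  obtain ⟨v, m, hm, hvm⟩ := Nat.exists_eq_two_pow_mul_odd hj0
  have hva : v ≤ a := by
    by_contra hv
    have h1 : 2 ^ (a + 1) ≤ 2 ^ v := Nat.pow_le_pow_right (by norm_num) (by omega)
    have h2 : 2 ^ v ≤ j := by
      rw [hvm]
      exact Nat.le_mul_of_pos_right _ hm.pos
    have h3 : 2 * h = 2 ^ (a + 1) := by rw [hh, pow_succ]; ring
    omega
  have hfix : ∀ k : ℕ, (r ^ j) ^ k • x = x := by
    intro k
    induction k with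
    | zero => simp
    | succ k ih => rw [pow_succ, ← smul_smul, hi, ih]
  have h4 : (r ^ j) ^ (2 ^ (a - v)) = c := by
    rw [← pow_mul, hvm]
    have h5 : 2 ^ v * m * 2 ^ (a - v) = h * m := by
      rw [hh]
      calc 2 ^ v * m * 2 ^ (a - v) = (2 ^ v * 2 ^ (a - v)) * m := by ring
        _ = 2 ^ a * m := by rw [← pow_add, Nat.add_sub_cancel' hva]
    rw [h5, pow_mul, hrc]
    obtain ⟨t, ht⟩ := hm
    rw [ht, pow_add, pow_mul, pow_two, hc.sq]
    simp
  exact hc.free x (by rw [← h4]; exact hfix _)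

/-- PROOF. `P = {r ^ i x₀ : 0 ≤ i < h}`, a half system by `cyc_free`.  With `W g = w (g x₀)` and `E g = ∑_{i < h} W (g r ^ i) = 0`,
`E g - E (g r) = W g - W (g r ^ h) = 2 W g`. -/
theorem nd_cyc_one {c r : G} (hc : CC G X c) {a h : ℕ} (hh : h = 2 ^ a) (hr : orderOf r = 2 * h)
    (hrc : r ^ h = c) (x₀ : X) (hX : ∀ x : X, ∃ i : ℤ, r ^ i • x₀ = x) :
    ∃ f : X → ℤ, Sgn c f ∧ Nd c ⊤ f := by
  classical
  have hpos : 0 < 2 * h := by rw [hh]; positivity
  -- equality of two points of the orbit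
  have hinj : ∀ i j : ℕ, i < 2 * h → j < 2 * h → r ^ i • x₀ = r ^ j • x₀ → i = j := by
    intro i j hi hj hij
    have h1 : r ^ ((i : ℤ) - j) • x₀ = x₀ := by
      rw [zpow_sub, zpow_natCast, zpow_natCast, mul_smul]
      have h2 : (r ^ j)⁻¹ • r ^ i • x₀ = x₀ := by
        rw [hij, inv_smul_smul]
      have hcomm : (r ^ i) • (r ^ j)⁻¹ • x₀ = (r ^ j)⁻¹ • r ^ i • x₀ := by
        rw [smul_smul, smul_smul]
        congr 1
        exact ((Commute.refl r).pow_pow i j).inv_right.eq
      rw [hcomm, h2]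
    have h3 := cyc_free hc hh hr hrc x₀ h1
    have h4 : ((2 * h : ℕ) : ℤ) ∣ (i : ℤ) - j := by
      rw [← hr]
      exact orderOf_dvd_iff_zpow_eq_one.2 h3
    obtain ⟨t, ht⟩ := h4
    have ht0 : t = 0 := by
      by_contra htne
      rcases lt_or_gt_of_ne htne with hlt | hgt
      · have : ((2 * h : ℕ) : ℤ) * t ≤ -((2 * h : ℕ) : ℤ) := by nlinarith
        omega
      · have : ((2 * h : ℕ) : ℤ) ≤ ((2 * h : ℕ) : ℤ) * t := by nlinarith
        omega
    rw [ht0] at ht
    omega
  have hX' : ∀ x : X, ∃ i : ℕ, i < 2 * h ∧ r ^ i • x₀ = x := by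
    intro x
    obtain ⟨i, hi⟩ := hX x
    obtain ⟨j, hj⟩ : ∃ j : ℕ, (j : ℤ) = i % (2 * h : ℕ) :=
      ⟨(i % (2 * h : ℕ)).toNat, Int.toNat_of_nonneg (Int.emod_nonneg _ (by omega))⟩
    have hjlt : j < 2 * h := by
      have := Int.emod_lt_of_pos i (b := ((2 * h : ℕ) : ℤ)) (by exact_mod_cast hpos)
      omega
    have hij : r ^ i = r ^ j := by
      rw [← zpow_natCast r j, hj, ← hr]
      exact (zpow_mod_orderOf r i).symm
    exact ⟨j, hjlt, by rw [← hij, hi]⟩
  have hr2 : r ^ (2 * h) = 1 := by rw [← hr]; exact pow_orderOf_eq_one r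
  set P : Finset X := (range h).image fun i : ℕ => r ^ i • x₀ with hPdef
  have hmem : ∀ i : ℕ, i < 2 * h → (r ^ i • x₀ ∈ P ↔ i < h) := by
    intro i hi
    rw [hPdef, mem_image]
    constructor
    · rintro ⟨j, hj, hji⟩
      rw [mem_range] at hj
      have := hinj j i (by omega) hi hji
      omega
    · intro hlt
      exact ⟨i, mem_range.2 hlt, rfl⟩
  have hcx : ∀ i : ℕ, c • r ^ i • x₀ = r ^ (h + i) • x₀ := by
    intro i
    rw [← hrc, smul_smul, ← pow_add]
  refine nd_of_half hc P ?_ ?_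
  · intro x
    obtain ⟨i, hi, rfl⟩ := hX' x
    rw [hmem i hi, hcx]
    by_cases hlt : i < h
    · rw [hmem (h + i) (by omega)]
      omega
    · have h1 : r ^ (h + i) = r ^ (i - h) := by
        have h2 : h + i = (i - h) + 2 * h := by omega
        rw [h2, pow_add, hr2, mul_one]
      rw [h1, hmem (i - h) (by omega)]
      omega
  · intro w hodd hE
    have hsum : ∀ g : G, ∑ i ∈ range h, w ((g * r ^ i) • x₀) = 0 := by
      intro g
      have h1 := hE g
      rw [hPdef, Finset.sum_image] at h1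
      · rw [← h1]
        exact Finset.sum_congr rfl fun i _ => by rw [mul_smul]
      · intro i hi j hj hij
        rw [Finset.mem_coe, mem_range] at hi hj
        exact hinj i j (by omega) (by omega) hij
    have hW : ∀ g : G, w (g • x₀) = 0 := by
      intro g
      have h1 := hsum g
      have h2 := hsum (g * r)
      have h3 : ∑ i ∈ range h, w ((g * r ^ (i + 1)) • x₀) = 0 := by
        rw [← h2]
        exact Finset.sum_congr rfl fun i _ => by rw [pow_succ', mul_assoc]
      have h4 : ∑ i ∈ range h, (w ((g * r ^ (i + 1)) • x₀) - w ((g * r ^ i) • x₀)) =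
          w ((g * r ^ h) • x₀) - w ((g * r ^ 0) • x₀) :=
        Finset.sum_range_sub (fun i => w ((g * r ^ i) • x₀)) h
      rw [Finset.sum_sub_distrib, h1, h3] at h4
      have h5 : w ((g * r ^ h) • x₀) = - w (g • x₀) := by
        rw [hrc, hc.cen, mul_smul]
        exact hodd _
      rw [h5, pow_zero, mul_one] at h4
      omega
    funext x
    obtain ⟨i, _, rfl⟩ := hX' x
    exact hW _

end

end Pool.MP43e44c.NT
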