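import Pool.Agent.H.MP_43e44c_ag.NT.CycA

/-!
Nondegenerate CM types: groups with a cyclic subgroup of index two.
-/

set_option autoImplicit false

open Finset

namespace Pool.MP43e44c.NT

section

variable {G : Type*} [Group G] {X : Type*} [MulAction G X] [Fintype X]

omit [Fintype X] in
theorem CycB_conj {c r : G} {h : ℕ} (hrc : r ^ h = c) (i : ℤ) (y : X) :
    c • r ^ i • y = r ^ ((h : ℤ) + i) • y := by
  rw [← hrc, zpow_add, zpow_natCast, mul_smul]

theorem CycB_eq {c r : G} (hc : CC G X c) {a h : ℕ}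
    (hh : h = 2 ^ a) (hr : orderOf r = 2 * h) (hrc : r ^ h = c) (y : X) {i j : ℤ} :
    r ^ i • y = r ^ j • y ↔ i % (2 * h : ℤ) = j % (2 * h : ℤ) := by
  have key : r ^ i = r ^ j ↔ i % (2 * h : ℤ) = j % (2 * h : ℤ) := by
    rw [zpow_eq_zpow_iff_modEq, hr]
    push_cast
    exact Iff.rfl
  rw [← key]
  constructor
  · intro e
    have h1 : r ^ (i - j) • y = y := by
      have : r ^ (-j) • r ^ i • y = r ^ (-j) • r ^ j • y := by rw [e]
      rw [← mul_smul, ← mul_smul, ← zpow_add, ← zpow_add] at this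
      rw [show i - j = -j + i by ring, this]
      simp
    have h2 := cyc_free hc hh hr hrc y h1
    have h3 : r ^ i = r ^ (i - j) * r ^ j := by rw [← zpow_add]; congr 1; ring
    rw [h3, h2, one_mul]
  · intro e
    rw [e]

open Classical in
/-- the half system -/
noncomputable def CycB_P (r : G) (h : ℕ) (x₀ y₀ : X) : Finset X :=
  (range h).image (fun i => r ^ i • x₀) ∪ (range h).image (fun i => r ^ i • y₀)

theorem CycB_mem {c r : G} (hc : CC G X c) {a h : ℕ}
    (hh : h = 2 ^ a) (hr : orderOf r = 2 * h) (hrc : r ^ h = c) (x₀ y₀ : X)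
    (hX' : ∀ i j : ℤ, r ^ i • x₀ ≠ r ^ j • y₀) (y : X) (hy : y = x₀ ∨ y = y₀) (i : ℤ) :
    r ^ i • y ∈ CycB_P r h x₀ y₀ ↔ i % (2 * h : ℤ) < h := by
  have h0 : (0 : ℤ) < h := by
    have : 0 < h := by rw [hh]; positivity
    exact_mod_cast this
  classical
  unfold CycB_P
  rw [mem_union, mem_image, mem_image]
  constructor
  · rintro (⟨j, hj, e⟩ | ⟨j, hj, e⟩)
    · rw [← zpow_natCast] at e
      rcases hy with rfl | rfl
      · have := (CycB_eq hc hh hr hrc y).1 e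
        rw [← this, Int.emod_eq_of_lt (by positivity) (by have := mem_range.1 hj; omega)]
        exact_mod_cast mem_range.1 hj
      · exact absurd e (hX' _ _)
    · rw [← zpow_natCast] at e
      rcases hy with rfl | rfl
      · exact absurd e.symm (hX' _ _)
      · have := (CycB_eq hc hh hr hrc y).1 e
        rw [← this, Int.emod_eq_of_lt (by positivity) (by have := mem_range.1 hj; omega)]
        exact_mod_cast mem_range.1 hj
  · intro hi
    have hnn : 0 ≤ i % (2 * h : ℤ) := Int.emod_nonneg _ (by positivity)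
    have hj : (i % (2 * h : ℤ)).toNat < h := by omega
    have e : r ^ (i % (2 * h : ℤ)).toNat • y = r ^ i • y := by
      rw [← zpow_natCast, CycB_eq hc hh hr hrc y, Int.toNat_of_nonneg hnn]
      exact Int.emod_emod_of_dvd _ (dvd_refl _)
    rcases hy with rfl | rfl
    · exact Or.inl ⟨_, mem_range.2 hj, e⟩
    · exact Or.inr ⟨_, mem_range.2 hj, e⟩

theorem CycB_half {c r : G} (hc : CC G X c) {a h : ℕ}
    (hh : h = 2 ^ a) (hr : orderOf r = 2 * h) (hrc : r ^ h = c) (x₀ y₀ : X)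
    (hX : ∀ x : X, (∃ i : ℤ, r ^ i • x₀ = x) ∨ ∃ i : ℤ, r ^ i • y₀ = x)
    (hX' : ∀ i j : ℤ, r ^ i • x₀ ≠ r ^ j • y₀) (x : X) :
    x ∈ CycB_P r h x₀ y₀ ↔ c • x ∉ CycB_P r h x₀ y₀ := by
  have h0 : (0 : ℤ) < h := by
    have : 0 < h := by rw [hh]; positivity
    exact_mod_cast this
  have key : ∀ i : ℤ, i % (2 * h : ℤ) < h ↔ ¬ ((h : ℤ) + i) % (2 * h : ℤ) < h := by
    intro i
    have h1 := Int.emod_nonneg i (show (2 * h : ℤ) ≠ 0 by positivity)
    have h2 := Int.emod_lt_of_pos i (show (0 : ℤ) < 2 * h by positivity)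
    have h3 := Int.emod_add_mul_ediv i (2 * h : ℤ)
    set m := i % (2 * h : ℤ)
    set d := i / (2 * h : ℤ)
    have e : (h : ℤ) + i = (h + m) + (2 * h : ℤ) * d := by rw [← h3]; ring
    rw [e, Int.add_mul_emod_self_left]
    constructor
    · intro h4
      rw [Int.emod_eq_of_lt (by omega) (by omega)]
      omega
    · intro h4
      by_contra h5
      apply h4
      have : (h : ℤ) + m = (m - h) + (2 * h : ℤ) * 1 := by ring
      rw [this, Int.add_mul_emod_self_left, Int.emod_eq_of_lt (by omega) (by omega)]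
      omega
  rcases hX x with ⟨i, rfl⟩ | ⟨i, rfl⟩
  · rw [CycB_conj hrc, CycB_mem hc hh hr hrc x₀ y₀ hX' x₀ (Or.inl rfl),
      CycB_mem hc hh hr hrc x₀ y₀ hX' x₀ (Or.inl rfl)]
    exact key i
  · rw [CycB_conj hrc, CycB_mem hc hh hr hrc x₀ y₀ hX' y₀ (Or.inr rfl),
      CycB_mem hc hh hr hrc x₀ y₀ hX' y₀ (Or.inr rfl)]
    exact key i

theorem CycB_sum {c r : G} (hc : CC G X c) {a h : ℕ}
    (hh : h = 2 ^ a) (hr : orderOf r = 2 * h) (hrc : r ^ h = c) (x₀ y₀ : X)
    (hX : ∀ x : X, (∃ i : ℤ, r ^ i • x₀ = x) ∨ ∃ i : ℤ, r ^ i • y₀ = x)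
    (hX' : ∀ i j : ℤ, r ^ i • x₀ ≠ r ^ j • y₀) :
    ∃ f : X → ℤ, Sgn c f ∧ (∀ i : ℤ, i % (2 * h : ℤ) < h → f (r ^ i • y₀) = 1) ∧
      ∀ w : X → ℤ, (∀ x, w (c • x) = -w x) → ∀ g : G, ∑ x, f x * w (g • x) =
        2 * (∑ i ∈ range h, w ((g * r ^ i) • x₀) + ∑ i ∈ range h, w ((g * r ^ i) • y₀)) := by
  classical
  set P := CycB_P r h x₀ y₀ with hPdef
  have hP := CycB_half hc hh hr hrc x₀ y₀ hX hX'
  have h0 : 0 < h := by rw [hh]; positivity
  refine ⟨fun x => 2 * (if x ∈ P then (1 : ℤ) else 0) - 1, ⟨fun x => ?_, fun x => ?_⟩, fun i hi => ?_,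
    fun w hw g => ?_⟩
  · by_cases hx : x ∈ P
    · left; simp [hx]
    · right; simp [hx]
  · by_cases hx : x ∈ P
    · have := (hP x).1 hx
      rw [← hPdef] at this
      simp [hx, this]
    · have h1 : c • x ∈ P := by
        by_contra h2
        exact hx ((hP x).2 h2)
      simp [hx, h1]
  · have := (CycB_mem hc hh hr hrc x₀ y₀ hX' y₀ (Or.inr rfl) i).2 hi
    rw [← hPdef] at this
    simp [this]
  · have hz : ∑ x, w (g • x) = 0 := by
      have h1 : ∑ x, w (g • x) = ∑ x, w (g • c • x) :=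
        (Equiv.sum_comp (MulAction.toPerm c) (fun x => w (g • x))).symm
      have h2 : ∀ x, w (g • c • x) = -w (g • x) := by
        intro x
        rw [← mul_smul, hc.cen g, mul_smul, hw]
      rw [sum_congr rfl (fun x _ => h2 x), sum_neg_distrib] at h1
      omega
    have h3 : ∑ x, (2 * (if x ∈ P then (1 : ℤ) else 0) - 1) * w (g • x) =
        2 * ∑ x ∈ P, w (g • x) - ∑ x, w (g • x) := by
      have h5 : ∑ x ∈ P, w (g • x) = ∑ x, if x ∈ P then w (g • x) else 0 := by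
        rw [Finset.sum_ite_mem, Finset.univ_inter]
      rw [h5, mul_sum, ← sum_sub_distrib]
      refine sum_congr rfl fun x _ => ?_
      split_ifs <;> ring
    rw [h3, hz, sub_zero]
    congr 1
    rw [hPdef, CycB_P, sum_union, sum_image, sum_image]
    · congr 1
      · refine sum_congr rfl fun i _ => ?_
        rw [mul_smul]
      · refine sum_congr rfl fun i _ => ?_
        rw [mul_smul]
    · intro i hi j hj e
      simp only [coe_range, Set.mem_Iio] at hi hj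
      simp only [← zpow_natCast] at e
      have := (CycB_eq hc hh hr hrc y₀).1 e
      rw [Int.emod_eq_of_lt (by positivity) (by omega),
        Int.emod_eq_of_lt (by positivity) (by omega)] at this
      exact_mod_cast this
    · intro i hi j hj e
      simp only [coe_range, Set.mem_Iio] at hi hj
      simp only [← zpow_natCast] at e
      have := (CycB_eq hc hh hr hrc x₀).1 e
      rw [Int.emod_eq_of_lt (by positivity) (by omega),
        Int.emod_eq_of_lt (by positivity) (by omega)] at this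
      exact_mod_cast this
    · rw [disjoint_left]
      intro x hx hx'
      obtain ⟨i, _, rfl⟩ := mem_image.1 hx
      obtain ⟨j, _, e⟩ := mem_image.1 hx'
      simp only [← zpow_natCast] at e
      exact hX' _ _ e.symm

omit [Fintype X] in
/-- telescoping -/
theorem CycB_tele {c r : G} (hc : CC G X c) {h : ℕ} (hrc : r ^ h = c) {w : X → ℤ}
    (hw : ∀ x, w (c • x) = -w x) (y : X) (g : G) :
    ∑ i ∈ range h, w ((g * r ^ i) • y) - ∑ i ∈ range h, w ((g * r * r ^ i) • y) = 2 * w (g • y) := by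
  have h1 : ∀ i, w ((g * r * r ^ i) • y) = w ((g * r ^ (i + 1)) • y) := by
    intro i
    rw [pow_succ', mul_assoc]
  have h2 : w ((g * r ^ h) • y) = -w (g • y) := by
    rw [hrc, hc.cen g, mul_smul, hw]
  rw [sum_congr rfl (fun i _ => h1 i), ← sum_sub_distrib,
    sum_range_sub' (fun i => w ((g * r ^ i) • y)) h, h2, pow_zero, mul_one]
  ring

/-- PROOF. `P = {r ^ i x₀ : 0 ≤ i < h} ∪ {r ^ i γ x₀ : 0 ≤ i < h}`.  `E g = ∑_{i < h} W (g r ^ i) + ∑_{i < h} W (g r ^ i γ) = 0`, `E g - E (g r) =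
2 W g + 2 W (g γ)`, so `W (g γ) = - W g`, `W g = W (g γ γ) = W (g c) = - W g`. -/
theorem nd_cyc_two [MulAction.IsPretransitive G X] {c r γ : G} (hc : CC G X c) {a h : ℕ}
    (hh : h = 2 ^ a) (hr : orderOf r = 2 * h) (hrc : r ^ h = c) (x₀ : X)
    (hX : ∀ x : X, (∃ i : ℤ, r ^ i • x₀ = x) ∨ ∃ i : ℤ, r ^ i • γ • x₀ = x)
    (hX' : ∀ i : ℤ, r ^ i • x₀ ≠ γ • x₀) (hγ : γ * γ = c) :
    ∃ f : X → ℤ, Sgn c f ∧ Nd c ⊤ f := by
  have hX2 : ∀ i j : ℤ, r ^ i • x₀ ≠ r ^ j • γ • x₀ := by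
    intro i j e
    apply hX' (-j + i)
    rw [zpow_add, mul_smul, e, ← mul_smul, ← zpow_add, neg_add_cancel, zpow_zero, one_smul]
  obtain ⟨f, hf, -, hs⟩ := CycB_sum hc hh hr hrc x₀ (γ • x₀) hX hX2
  refine ⟨f, hf, fun w hw => ?_⟩
  have hE : ∀ g : G, ∑ i ∈ range h, w ((g * r ^ i) • x₀) + ∑ i ∈ range h, w ((g * r ^ i) • γ • x₀) = 0 := by
    intro g
    have h1 := hw.orth g (Subgroup.mem_top g)
    rw [hs w hw.odd g] at h1
    omega
  have h2 : ∀ g : G, w (g • γ • x₀) = -w (g • x₀) := by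
    intro g
    have h3 := hE g
    have h4 := hE (g * r)
    have h5 := CycB_tele hc hrc hw.odd x₀ g
    have h6 := CycB_tele hc hrc hw.odd (γ • x₀) g
    omega
  have h3 : ∀ g : G, w (g • x₀) = 0 := by
    intro g
    have h4 := h2 g
    have h5 := h2 (g * γ)
    rw [← mul_smul, mul_assoc, hγ, hc.cen g, mul_smul, hw.odd, mul_smul] at h5
    omega
  funext x
  obtain ⟨g, rfl⟩ := MulAction.exists_smul_eq G x₀ x
  exact h3 g

/-- PROOF. `P = {r ^ i x₀ : 0 ≤ i < h} ∪ {c r γ x₀} ∪ {r ^ i γ x₀ : 0 ≤ i < h, i ≠ 1}`.  `E g = ∑_{i < h} W (g r ^ i) +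
∑_{i < h} W (g r ^ i γ) - 2 W (g r γ) = 0`, and `(E g - E (g r)) / 2`:
`W g + W (g γ) - W (g r γ) + W (g r² γ) = 0`   (*).
Let `V = R W`, `(R W) g = W (g γ) - W (g r γ) + W (g r² γ)`; (*) says `R W = - W`, so `R (R W) = W`; using `γ r = r⁻¹ γ`, `γ² = 1`:
`R (R W) g = ∑ ± W (g r ^ i γ r ^ j γ) = ∑ ± W (g r ^ (i - j))`, i.e. `3 W g - 2 W (g r) - 2 W (g r⁻¹) + W (g r²) + W (g r⁻²) = W g`.
So `2 W g - 2 W (g r) - 2 W (g r⁻¹) + W (g r²) + W (g r⁻²) = 0` for all `g`.  With `U₁ g = W g - W (g r)`, `U₂ g = U₁ g - U₁ (g r)`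
this is `U₂ (g r⁻²) + U₂ g = 0` (replace `g`; `(1 + r²) (1 - r)² = r² (2 - 2 r - 2 r⁻¹ + r² + r⁻²)`).  So
`U₂ (g r²) = - U₂ g`, `U₂ (g r⁴) = U₂ g`, `U₂ (g c) = U₂ (g r ^ h) = U₂ g` as `4 ∣ h`, and `U₂ (g c) = - U₂ g`, so `U₂ = 0`;
`U₁ (g r) = U₁ g`, `U₁ (g c) = U₁ g`, so `U₁ = 0`, and `W = 0` in the same way; pretransitivity. -/
theorem nd_cyc_three [MulAction.IsPretransitive G X] {c r γ : G} (hc : CC G X c) {a h : ℕ}
    (hh : h = 2 ^ a) (hr : orderOf r = 2 * h) (hrc : r ^ h = c) (x₀ : X)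
    (hX : ∀ x : X, (∃ i : ℤ, r ^ i • x₀ = x) ∨ ∃ i : ℤ, r ^ i • γ • x₀ = x)
    (hX' : ∀ i : ℤ, r ^ i • x₀ ≠ γ • x₀) (hγ : γ * γ = 1) (hγr : γ * r * γ⁻¹ = r⁻¹) (h4 : 4 ∣ h) :
    ∃ f : X → ℤ, Sgn c f ∧ Nd c ⊤ f := by
  have h0 : 0 < h := by rw [hh]; positivity
  have hX2 : ∀ i j : ℤ, r ^ i • x₀ ≠ r ^ j • γ • x₀ := by
    intro i j e
    apply hX' (-j + i)
    rw [zpow_add, mul_smul, e, ← mul_smul, ← zpow_add, neg_add_cancel, zpow_zero, one_smul]
  obtain ⟨f, hf, hf1, hs⟩ := CycB_sum hc hh hr hrc x₀ (γ • x₀) hX hX2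
  have hf1' : f (r • γ • x₀) = 1 := by
    have h5 := hf1 1 (by
      obtain ⟨k, hk⟩ := h4
      rw [Int.emod_eq_of_lt (by norm_num) (by omega)]
      omega)
    rwa [zpow_one] at h5
  refine ⟨flip c (r • γ • x₀) f, flip_sgn hc hf _, fun w hw => ?_⟩
  set W : G → ℤ := fun g => w (g • x₀) with hW
  have hcW : ∀ g, W (g * c) = -W g := by
    intro g
    simp only [hW]
    rw [hc.cen g, mul_smul, hw.odd]
  have hE : ∀ g : G, ∑ i ∈ range h, w ((g * r ^ i) • x₀) + ∑ i ∈ range h, w ((g * r ^ i) • γ • x₀) -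
      2 * W (g * r * γ) = 0 := by
    intro g
    have h1 := hw.orth g (Subgroup.mem_top g)
    rw [flip_sum hc hf hw.odd, hs w hw.odd g, hf1'] at h1
    simp only [hW, mul_smul] at h1 ⊢
    omega
  have hst : ∀ g : G, W g + W (g * γ) - W (g * r * γ) + W (g * r ^ 2 * γ) = 0 := by
    intro g
    have h3 := hE g
    have h4 := hE (g * r)
    have h5 := CycB_tele hc hrc hw.odd x₀ g
    have h6 := CycB_tele hc hrc hw.odd (γ • x₀) g
    have e1 : w (g • x₀) = W g := rfl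
    have e2 : w (g • γ • x₀) = W (g * γ) := by simp only [hW, mul_smul]
    have e3 : g * r * r = g * r ^ 2 := by rw [mul_assoc, pow_two]
    rw [e1] at h5
    rw [e2] at h6
    rw [e3] at h4
    omega
  have g1 : γ * r * γ = r⁻¹ := by
    have : γ⁻¹ = γ := inv_eq_of_mul_eq_one_left hγ
    rwa [this] at hγr
  have g2 : γ * r ^ 2 * γ = (r ^ 2)⁻¹ := by
    have : γ * r ^ 2 * γ = (γ * r * γ) * (γ * r * γ) := by
      rw [pow_two]
      calc γ * (r * r) * γ = γ * r * 1 * r * γ := by group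
        _ = γ * r * (γ * γ) * r * γ := by rw [hγ]
        _ = _ := by group
    rw [this, g1, pow_two]
    group
  have q1 : ∀ g : G, W (g * γ) + W g - W (g * r⁻¹) + W (g * (r ^ 2)⁻¹) = 0 := by
    intro g
    have := hst (g * γ)
    rw [show g * γ * γ = g by rw [mul_assoc, hγ, mul_one],
      show g * γ * r * γ = g * r⁻¹ by rw [← g1]; group,
      show g * γ * r ^ 2 * γ = g * (r ^ 2)⁻¹ by rw [← g2]; group] at this
    exact this
  have q4 : ∀ g : G, W g - 2 * W (g * r) + 2 * W (g * r ^ 2) - 2 * W (g * r ^ 3) + W (g * r ^ 4) = 0 := by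
    intro g
    have a0 := hst (g * r ^ 2)
    have a1 := q1 (g * r ^ 2)
    have a2 := q1 (g * r ^ 3)
    have a3 := q1 (g * r ^ 4)
    rw [show g * r ^ 2 * r⁻¹ = g * r by group, show g * r ^ 2 * (r ^ 2)⁻¹ = g by group] at a1
    rw [show g * r ^ 3 * r⁻¹ = g * r ^ 2 by group, show g * r ^ 3 * (r ^ 2)⁻¹ = g * r by group] at a2
    rw [show g * r ^ 4 * r⁻¹ = g * r ^ 3 by group, show g * r ^ 4 * (r ^ 2)⁻¹ = g * r ^ 2 by group] at a3
    rw [show g * r ^ 2 * r * γ = g * r ^ 3 * γ by group,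
      show g * r ^ 2 * r ^ 2 * γ = g * r ^ 4 * γ by group] at a0
    omega
  have hper : ∀ (U : G → ℤ), (∀ g, U (g * r ^ 4) = U g) → (∀ g, U (g * c) = -U g) → ∀ g, U g = 0 := by
    intro U h1 h2 g
    obtain ⟨k, hk⟩ := h4
    have h3 : ∀ n : ℕ, ∀ g, U (g * r ^ (4 * n)) = U g := by
      intro n
      induction n with
      | zero => intro g; simp
      | succ n ih =>
        intro g
        rw [show g * r ^ (4 * (n + 1)) = g * r ^ (4 * n) * r ^ 4 by
          rw [mul_assoc, ← pow_add]; congr 2, h1, ih]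
    have h5 := h3 k g
    rw [← hk, hrc, h2] at h5
    omega
  have u2 : ∀ g : G, W g - 2 * W (g * r) + W (g * r ^ 2) = 0 := by
    apply hper (fun g => W g - 2 * W (g * r) + W (g * r ^ 2))
    · intro g
      have a0 := q4 g
      have a1 := q4 (g * r ^ 2)
      rw [show g * r ^ 2 * r = g * r ^ 3 by group, show g * r ^ 2 * r ^ 2 = g * r ^ 4 by group,
        show g * r ^ 2 * r ^ 3 = g * r ^ 4 * r by group,
        show g * r ^ 2 * r ^ 4 = g * r ^ 4 * r ^ 2 by group] at a1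
      omega
    · intro g
      have b : ∀ x : G, g * c * x = g * x * c := by intro x; rw [mul_assoc, mul_assoc, hc.cen x]
      simp only [b, hcW]
      ring
  have u1 : ∀ g : G, W g - W (g * r) = 0 := by
    have a1 : ∀ g : G, W (g * r) - W (g * r * r) = W g - W (g * r) := by
      intro g
      have := u2 g
      rw [show g * r ^ 2 = g * r * r by simp only [pow_succ, pow_zero, one_mul, mul_assoc]] at this
      omega
    apply hper (fun g => W g - W (g * r))
    · intro g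
      rw [show g * r ^ 4 * r = g * r * r * r * r * r by simp only [pow_succ, pow_zero, one_mul, mul_assoc],
        show g * r ^ 4 = g * r * r * r * r by simp only [pow_succ, pow_zero, one_mul, mul_assoc], a1, a1, a1, a1]
    · intro g
      have b : ∀ x : G, g * c * x = g * x * c := by intro x; rw [mul_assoc, mul_assoc, hc.cen x]
      simp only [b, hcW]
      ring
  have u0 : ∀ g : G, W g = 0 := by
    apply hper W
    · intro g
      have a1 : ∀ g : G, W (g * r) = W g := fun g => by have := u1 g; omega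
      rw [show g * r ^ 4 = g * r * r * r * r by simp only [pow_succ, pow_zero, one_mul, mul_assoc], a1, a1, a1, a1]
    · exact hcW
  funext x
  obtain ⟨g, rfl⟩ := MulAction.exists_smul_eq G x₀ x
  exact u0 g

end

end Pool.MP43e44c.NT
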