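import Mathlib

/-!
Nondegenerate CM types: sign functions on a finite set with a group action (definitions).
-/

set_option autoImplicit false

open Finset

namespace Pool.MP43e44c.NT

/-- `c` is a central involution without fixed points. -/
structure CC (G : Type*) [Group G] (X : Type*) [MulAction G X] (c : G) : Prop where
  cen : ∀ g : G, g * c = c * g
  sq : c * c = 1
  free : ∀ x : X, c • x ≠ x

section

variable {G : Type*} [Group G] {X : Type*} [MulAction G X]

/-- A sign function, odd with respect to `c`. -/
structure Sgn (c : G) (f : X → ℤ) : Prop where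
  pm : ∀ x, f x = 1 ∨ f x = -1
  odd : ∀ x, f (c • x) = -f x

/-- `w` is odd and orthogonal to the translates of `f` by the elements of `M`. -/
structure Orth [Fintype X] (c : G) (M : Subgroup G) (f w : X → ℤ) : Prop where
  odd : ∀ x, w (c • x) = -w x
  orth : ∀ g ∈ M, ∑ x, f x * w (g • x) = 0

/-- The translates of `f` by the elements of `M` span all odd functions. -/
def Nd [Fintype X] (c : G) (M : Subgroup G) (f : X → ℤ) : Prop :=
  ∀ w : X → ℤ, Orth c M f w → w = 0

/-- The hypothesis of the key lemma: `c, t` are commuting involutions, central in `M`, and `c`, `t`, `ct` have no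
fixed points. -/
structure Four (X : Type*) [MulAction G X] (M : Subgroup G) (c t : G) : Prop where
  cM : c ∈ M
  tM : t ∈ M
  cenc : ∀ m ∈ M, m * c = c * m
  cent : ∀ m ∈ M, m * t = t * m
  c2 : c * c = 1
  t2 : t * t = 1
  freec : ∀ x : X, c • x ≠ x
  freet : ∀ x : X, t • x ≠ x
  freect : ∀ x : X, t • x ≠ c • x

/-- The orbit of `x₀` under `c, t`. -/
def InB (c t : G) (x₀ x : X) : Prop := x = x₀ ∨ x = t • x₀ ∨ x = c • x₀ ∨ x = c • t • x₀

/-- The orbit of `x₀` under `M`. -/
def orb (M : Subgroup G) (x₀ : X) : Set X := {x | ∃ m ∈ M, m • x₀ = x}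

end

end Pool.MP43e44c.NT
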