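import Mathlib

/-!
Nondegenerate CM types: recognition of the dihedral group of order eight.
-/

set_option autoImplicit false

namespace Pool.MP43e44c.NT

theorem DihIso_pow_mod {G : Type*} [Group G] {r : G} (h : r ^ 4 = 1) (m : ℕ) :
    r ^ (m % 4) = r ^ m := by
  conv_rhs => rw [← Nat.mod_add_div m 4, pow_add, pow_mul, h, one_pow, mul_one]

theorem DihIso_val_add {G : Type*} [Group G] {r : G} (h : r ^ 4 = 1) (i j : ZMod 4) :
    r ^ (i + j).val = r ^ i.val * r ^ j.val := by
  rw [ZMod.val_add, DihIso_pow_mod h, pow_add]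

theorem DihIso_val_sub {G : Type*} [Group G] {r : G} (h : r ^ 4 = 1) (i j : ZMod 4) :
    r ^ (j - i).val = (r ^ i.val)⁻¹ * r ^ j.val := by
  have h1 := DihIso_val_add h i (j - i)
  rw [add_sub_cancel] at h1
  rw [h1, inv_mul_cancel_left]

theorem DihIso_conj {G : Type*} [Group G] {r s : G} (hs : s * s = 1) (hsr : s * r * s = r⁻¹)
    (k : ℕ) : s * r ^ k * s = (r ^ k)⁻¹ := by
  have hinv : s⁻¹ = s := inv_eq_of_mul_eq_one_right hs
  have h1 : (s * r * s⁻¹) ^ k = s * r ^ k * s⁻¹ := conj_pow
  rw [hinv] at h1
  rw [← h1, hsr, inv_pow]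

theorem DihIso_comm {G : Type*} [Group G] {r s : G} (hs : s * s = 1) (hsr : s * r * s = r⁻¹)
    (k : ℕ) : r ^ k * s = s * (r ^ k)⁻¹ := by
  rw [← DihIso_conj hs hsr k, ← mul_assoc, ← mul_assoc, hs, one_mul]

theorem DihIso_comm2 {G : Type*} [Group G] {r s : G} (hs : s * s = 1) (hsr : s * r * s = r⁻¹)
    (k : ℕ) : s * r ^ k = (r ^ k)⁻¹ * s := by
  rw [← DihIso_conj hs hsr k, mul_assoc (s * r ^ k), hs, mul_one]

/-- PROOF. Every element is `r ^ i` or `s * r ^ i` with `i < 4`; the map `DihedralGroup 4 → G`, `r i ↦ r ^ i.val`,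
`sr i ↦ s * r ^ i.val` is a homomorphism (`s r s = r⁻¹`, `r ^ 4 = 1`) and injective (`r` has order `4` because `r² = c ≠ 1`, and
`s ∉ zpowers r`), so bijective because both sides have 8 elements. -/
theorem dih_of_rel {G : Type*} [Group G] (hG : Nat.card G = 8) {r s c : G} (hr : r * r = c)
    (hc : c * c = 1) (hc1 : c ≠ 1) (hs : s * s = 1) (hsr : s * r * s = r⁻¹)
    (hs' : s ∉ Subgroup.zpowers r) : Nonempty (G ≃* DihedralGroup 4) := by
  have h4 : r ^ 4 = 1 := by
    have : r ^ 4 = (r * r) * (r * r) := by
      rw [← pow_two, ← pow_two, ← pow_mul]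
    rw [this, hr, hc]
  let f : DihedralGroup 4 → G := fun x => match x with
    | DihedralGroup.r i => r ^ i.val
    | DihedralGroup.sr i => s * r ^ i.val
  have fr : ∀ i : ZMod 4, f (DihedralGroup.r i) = r ^ i.val := fun i => rfl
  have fs : ∀ i : ZMod 4, f (DihedralGroup.sr i) = s * r ^ i.val := fun i => rfl
  have hmul : ∀ x y : DihedralGroup 4, f (x * y) = f x * f y := by
    rintro (i | i) (j | j)
    · rw [DihedralGroup.r_mul_r, fr, fr, fr, DihIso_val_add h4]
    · rw [DihedralGroup.r_mul_sr, fr, fs, fs, DihIso_val_sub h4, ← mul_assoc, ← mul_assoc,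
        DihIso_comm hs hsr]
    · rw [DihedralGroup.sr_mul_r, fr, fs, fs, DihIso_val_add h4, mul_assoc]
    · rw [DihedralGroup.sr_mul_sr, fr, fs, fs, DihIso_val_sub h4, ← mul_assoc,
        DihIso_conj hs hsr]
  let F : DihedralGroup 4 →* G := MonoidHom.mk' f hmul
  have hinj : Function.Injective F := by
    rw [injective_iff_map_eq_one]
    rintro (i | i) hx
    · have hx' : r ^ i.val = 1 := hx
      have hlt : i.val < 4 := ZMod.val_lt i
      have h0 : i.val = 0 := by
        rcases Nat.lt_or_ge i.val 1 with h | h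
        · omega
        · exfalso
          have hcases : i.val = 1 ∨ i.val = 2 ∨ i.val = 3 := by omega
          rcases hcases with h1 | h1 | h1
          · rw [h1, pow_one] at hx'
            apply hc1
            rw [← hr, hx', one_mul]
          · rw [h1, pow_two, hr] at hx'
            exact hc1 hx'
          · rw [h1] at hx'
            have h5 : r = 1 := by
              have : r ^ 4 = r ^ 3 * r := pow_succ r 3
              rw [h4, hx', one_mul] at this
              exact this.symm
            apply hc1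
            rw [← hr, h5, one_mul]
      have hi : i = 0 := (ZMod.val_eq_zero i).1 h0
      rw [hi]
      rfl
    · exfalso
      have hx' : s * r ^ i.val = 1 := hx
      apply hs'
      have : s = (r ^ i.val)⁻¹ := eq_inv_of_mul_eq_one_left hx'
      rw [this]
      exact Subgroup.inv_mem _ (Subgroup.pow_mem _ (Subgroup.mem_zpowers r) _)
  have hfin : Finite G := Nat.finite_of_card_ne_zero (by rw [hG]; norm_num)
  have hbij : Function.Bijective F := by
    refine hinj.bijective_of_nat_card_le ?_
    rw [hG, DihedralGroup.nat_card]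
  exact ⟨(MulEquiv.ofBijective F hbij).symm⟩

theorem DihIso_card {G : Type*} [Group G] {g t c : G} (hcen : ∀ x : G, x * c = c * x)
    (hc : c * c = 1) (hc1 : c ≠ 1) (ht : t * t = 1) (ht1 : t ≠ 1) (htc : t ≠ c)
    (hgt : g * t = c * t * g)
    (hG : ∀ x : G, (x * t = t * x → x = 1 ∨ x = c ∨ x = t ∨ x = c * t) ∧
      (¬ x * t = t * x → g⁻¹ * x * t = t * (g⁻¹ * x))) : Nat.card G = 8 := by
  classical
  let A : Finset G := {1, c, t, c * t}
  have hA : ∀ x : G, x ∈ A ↔ x = 1 ∨ x = c ∨ x = t ∨ x = c * t := fun x => by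
    simp [A]
  have hAcard : A.card = 4 := by
    have h1 : (1 : G) ≠ c * t := by
      intro h
      apply htc
      have h2 : c * (c * t) = c := by rw [← h, mul_one]
      rw [← mul_assoc, hc, one_mul] at h2
      exact h2
    have h2 : c ≠ c * t := by
      intro h
      exact ht1 (mul_eq_left.1 h.symm)
    have h3 : t ≠ c * t := by
      intro h
      exact hc1 (mul_eq_right.1 h.symm)
    simp only [A]
    rw [Finset.card_insert_of_notMem, Finset.card_insert_of_notMem,
      Finset.card_insert_of_notMem, Finset.card_singleton]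
    · simpa using h3
    · simp only [Finset.mem_insert, Finset.mem_singleton, not_or]
      exact ⟨htc.symm, h2⟩
    · simp only [Finset.mem_insert, Finset.mem_singleton, not_or]
      exact ⟨hc1.symm, ht1.symm, h1⟩
  have hAcomm : ∀ x ∈ A, x * t = t * x := by
    intro x hx
    rcases (hA x).1 hx with rfl | rfl | rfl | rfl
    · rw [one_mul, mul_one]
    · rw [hcen t]
    · rfl
    · rw [mul_assoc, ht, mul_one, ← mul_assoc, hcen t, mul_assoc, ht, mul_one]
  let B : Finset G := A.image (fun x => g * x)
  have hBcard : B.card = 4 := by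
    rw [Finset.card_image_of_injective _ (mul_right_injective g), hAcard]
  have hdisj : Disjoint A B := by
    rw [Finset.disjoint_left]
    intro x hxA hxB
    obtain ⟨y, hy, rfl⟩ := Finset.mem_image.1 hxB
    have h1 := hAcomm _ hxA
    have h2 := hAcomm _ hy
    -- `g` would commute with `t`
    apply hc1
    have h3 : g * t * y = t * g * y := by
      rw [mul_assoc, ← h2, ← mul_assoc, h1, mul_assoc]
    have h4 : g * t = t * g := mul_right_cancel h3
    rw [hgt, mul_assoc] at h4
    exact mul_eq_right.1 h4
  have huniv : (Set.univ : Set G) = ↑(A ∪ B) := by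
    ext x
    simp only [Set.mem_univ, Finset.coe_union, Set.mem_union, Finset.mem_coe, true_iff]
    by_cases hx : x * t = t * x
    · left
      exact (hA x).2 ((hG x).1 hx)
    · right
      refine Finset.mem_image.2 ⟨g⁻¹ * x, ?_, ?_⟩
      · exact (hA _).2 ((hG _).1 ((hG x).2 hx))
      · show g * (g⁻¹ * x) = x
        rw [mul_inv_cancel_left]
  rw [← Set.ncard_univ, huniv, Set.ncard_coe_finset, Finset.card_union_of_disjoint hdisj, hAcard,
    hBcard]

/-- PROOF. `g * g` commutes with `g`, so it is not `t` or `c t` (`t` does not commute with `g` as `c ≠ 1`); so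
`g * g = 1` or `g * g = c`.  In the second case `r = g`, in the first case `r = g * t`:
`g t g t = g (c g t) t = c`, as `t g = c g t`; `s = t`; `t r t = c r = r⁻¹`.  The group has 8 elements: `G = A ∪ g A` with
`A = {1, c, t, c t}`. -/
theorem dih_of_four {G : Type*} [Group G] {g t c : G} (hcen : ∀ x : G, x * c = c * x)
    (hc : c * c = 1) (hc1 : c ≠ 1) (ht : t * t = 1) (ht1 : t ≠ 1) (htc : t ≠ c)
    (hgt : g * t = c * t * g)
    (hG : ∀ x : G, (x * t = t * x → x = 1 ∨ x = c ∨ x = t ∨ x = c * t) ∧
      (¬ x * t = t * x → g⁻¹ * x * t = t * (g⁻¹ * x))) : Nonempty (G ≃* DihedralGroup 4) := by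
  have hcard := DihIso_card hcen hc hc1 ht ht1 htc hgt hG
  have hncomm : ∀ r : G, r * t ≠ t * r → t ∉ Subgroup.zpowers r := by
    intro r hr hmem
    obtain ⟨k, hk⟩ := Subgroup.mem_zpowers_iff.1 hmem
    apply hr
    rw [← hk]
    exact (Commute.refl r).zpow_right k
  have hgtne : g * t ≠ t * g := by
    intro h
    apply hc1
    have h1 : c * (t * g) = t * g := by rw [← mul_assoc, ← hgt, h]
    exact mul_eq_right.1 h1
  have hggt : g * g * t = t * (g * g) := by
    calc g * g * t = g * (g * t) := mul_assoc _ _ _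
      _ = g * (c * t * g) := by rw [hgt]
      _ = (g * c) * (t * g) := by rw [mul_assoc c, mul_assoc]
      _ = (c * g) * (t * g) := by rw [hcen g]
      _ = c * (g * t) * g := by simp only [mul_assoc]
      _ = c * (c * t * g) * g := by rw [hgt]
      _ = (c * c) * (t * (g * g)) := by simp only [mul_assoc]
      _ = t * (g * g) := by rw [hc, one_mul]
  rcases (hG (g * g)).1 hggt with h | h | h | h
  · -- case of an involution
    refine dih_of_rel hcard (r := g * t) (s := t) (c := c) ?_ hc hc1 ht ?_ (hncomm _ ?_)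
    · calc g * t * (g * t) = (g * t) * g * t := by simp only [mul_assoc]
        _ = c * t * g * g * t := by rw [hgt]
        _ = c * (t * ((g * g) * t)) := by simp only [mul_assoc]
        _ = c := by rw [h, one_mul, ht, mul_one]
    · refine eq_inv_of_mul_eq_one_left ?_
      calc t * (g * t) * t * (g * t) = t * (g * ((t * t) * (g * t))) := by simp only [mul_assoc]
        _ = t * ((g * g) * t) := by rw [ht, one_mul, mul_assoc]
        _ = 1 := by rw [h, one_mul, ht]
    · intro h2
      apply hgtne
      have h3 : g = t * (g * t) := by rw [← h2, mul_assoc, ht, mul_one]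
      calc g * t = (t * t) * (g * t) := by rw [ht, one_mul]
        _ = t * (t * (g * t)) := mul_assoc _ _ _
        _ = t * g := by rw [← h3]
  · -- case of an element of order four
    refine dih_of_rel hcard (r := g) (s := t) (c := c) h hc hc1 ht ?_ (hncomm _ hgtne)
    refine eq_inv_of_mul_eq_one_left ?_
    calc t * g * t * g = t * (g * t) * g := by simp only [mul_assoc]
      _ = t * (c * t * g) * g := by rw [hgt]
      _ = (t * c) * (t * (g * g)) := by simp only [mul_assoc]
      _ = (t * c) * (t * c) := by rw [h]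
      _ = (c * t) * (c * t) := by rw [hcen t]
      _ = c * (t * c) * t := by simp only [mul_assoc]
      _ = c * (c * t) * t := by rw [hcen t]
      _ = (c * c) * (t * t) := by simp only [mul_assoc]
      _ = 1 := by rw [hc, ht, one_mul]
  · exfalso
    apply hgtne
    rw [← h, mul_assoc]
  · exfalso
    apply hc1
    have h1 : g * (c * t) = (c * t) * g := by rw [← h, mul_assoc]
    rw [← mul_assoc, hcen g, mul_assoc, hgt, ← mul_assoc, ← mul_assoc, hc, one_mul, mul_assoc] at h1
    exact mul_eq_right.1 h1.symm

end Pool.MP43e44c.NT
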