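import Pool.Agent.H.MP_43e44c_ag.NT.Bas

/-!
Nondegenerate CM types: sums of functions invariant under a free four-group.
-/

set_option autoImplicit false

open Finset

namespace Pool.MP43e44c.NT

section

variable {G : Type*} [Group G] {X : Type*} [MulAction G X]

/-- PROOF. `Y'` = the elements of `Y` with `s x = 1` for a sign function `s` with `s (c x) = - s x`, `s (t x) = s x`
(`exists_inv_sgn` with `K = Subgroup.zpowers t`, whose elements are `1, t`; or choose `s` for `t` on `Y` by hand);
`∑_Y φ = 2 ∑_{Y'} φ` (bijection `c`), and `∑_{Y'} φ` is even because of the involution `t` of `Y'` without fixed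
points (`Finset.sum_involution` in `ZMod 2`). -/
theorem dvd_four (Y : Finset X) {c t : G} (hct : c * t = t * c) (c2 : c * c = 1) (t2 : t * t = 1)
    (h1 : ∀ x : X, c • x ≠ x) (h2 : ∀ x : X, t • x ≠ x) (h3 : ∀ x : X, t • x ≠ c • x)
    (hYc : ∀ x ∈ Y, c • x ∈ Y) (hYt : ∀ x ∈ Y, t • x ∈ Y) {φ : X → ℤ}
    (hφc : ∀ x ∈ Y, φ (c • x) = φ x) (hφt : ∀ x ∈ Y, φ (t • x) = φ x) : (4 : ℤ) ∣ ∑ x ∈ Y, φ x := by
  classical
  have cc : ∀ x : X, c • c • x = x := fun x => by rw [smul_smul, c2, one_smul]
  have tt : ∀ x : X, t • t • x = x := fun x => by rw [smul_smul, t2, one_smul]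
  have ct : ∀ x : X, c • t • x = t • c • x := fun x => by rw [smul_smul, smul_smul, hct]
  induction' hn : Y.card using Nat.strong_induction_on with n ih generalizing Y
  rcases Y.eq_empty_or_nonempty with rfl | ⟨x, hx⟩
  · simp
  · set O : Finset X := {x, c • x, t • x, c • t • x} with hO
    have hOY : O ⊆ Y := by
      intro y hy
      simp only [hO, mem_insert, mem_singleton] at hy
      rcases hy with rfl | rfl | rfl | rfl
      · exact hx
      · exact hYc _ hx
      · exact hYt _ hx
      · exact hYc _ (hYt _ hx)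
    have hOc : ∀ y, c • y ∈ O → y ∈ O := by
      intro y hy
      simp only [hO, mem_insert, mem_singleton] at hy ⊢
      rcases hy with h | h | h | h
      · right; left; rw [← h, cc]
      · left; rw [← cc y, h, cc]
      · right; right; right; rw [← cc y, h]
      · right; right; left; rw [← cc y, h, cc]
    have hOt : ∀ y, t • y ∈ O → y ∈ O := by
      intro y hy
      simp only [hO, mem_insert, mem_singleton] at hy ⊢
      rcases hy with h | h | h | h
      · right; right; left; rw [← h, tt]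
      · right; right; right; rw [← tt y, h, ct]
      · left; rw [← tt y, h, tt]
      · right; left; rw [← tt y, h, ct, tt]
    have d1 : x ≠ c • x := (h1 x).symm
    have d2 : x ≠ t • x := (h2 x).symm
    have d3 : x ≠ c • t • x := by
      intro h
      apply h3 x
      have h5 : c • x = c • c • t • x := congrArg (fun y => c • y) h
      rw [cc] at h5
      exact h5.symm
    have d4 : c • x ≠ t • x := (h3 x).symm
    have d5 : c • x ≠ c • t • x := by
      intro h
      apply h2 x
      rw [← cc (t • x), ← h, cc]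
    have d6 : t • x ≠ c • t • x := (h1 _).symm
    have hsum : ∑ y ∈ O, φ y = 4 * φ x := by
      rw [hO, sum_insert, sum_insert, sum_insert, sum_singleton, hφc _ (hYt _ hx), hφt _ hx, hφc _ hx]
      · ring
      · simpa using d6
      · simp only [mem_insert, mem_singleton, not_or]
        exact ⟨d4, d5⟩
      · simp only [mem_insert, mem_singleton, not_or]
        exact ⟨d1, d2, d3⟩
    rw [← sum_sdiff hOY, hsum]
    apply dvd_add _ (dvd_mul_right _ _)
    have hlt : (Y \ O).card < n := by
      rw [← hn]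
      apply card_lt_card
      refine ⟨sdiff_subset, fun h => ?_⟩
      have := h hx
      simp [hO] at this
    refine ih _ hlt (Y \ O) ?_ ?_ ?_ ?_ rfl
    · intro y hy
      rw [mem_sdiff] at hy ⊢
      exact ⟨hYc _ hy.1, fun h => hy.2 (hOc _ h)⟩
    · intro y hy
      rw [mem_sdiff] at hy ⊢
      exact ⟨hYt _ hy.1, fun h => hy.2 (hOt _ h)⟩
    · intro y hy
      exact hφc _ (mem_sdiff.1 hy).1
    · intro y hy
      exact hφt _ (mem_sdiff.1 hy).1

/-- PROOF. `dvd_four` for `φ / 2`. -/
theorem dvd_eight (Y : Finset X) {c t : G} (hct : c * t = t * c) (c2 : c * c = 1) (t2 : t * t = 1)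
    (h1 : ∀ x : X, c • x ≠ x) (h2 : ∀ x : X, t • x ≠ x) (h3 : ∀ x : X, t • x ≠ c • x)
    (hYc : ∀ x ∈ Y, c • x ∈ Y) (hYt : ∀ x ∈ Y, t • x ∈ Y) {φ : X → ℤ}
    (hφc : ∀ x ∈ Y, φ (c • x) = φ x) (hφt : ∀ x ∈ Y, φ (t • x) = φ x)
    (hφ : ∀ x ∈ Y, (2 : ℤ) ∣ φ x) : (8 : ℤ) ∣ ∑ x ∈ Y, φ x := by
  have h := dvd_four Y hct c2 t2 h1 h2 h3 hYc hYt (φ := fun x => φ x / 2)
    (fun x hx => by simp only [hφc x hx]) (fun x hx => by simp only [hφt x hx])
  have e : ∑ x ∈ Y, φ x = 2 * ∑ x ∈ Y, φ x / 2 := by
    rw [mul_sum]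
    exact sum_congr rfl fun x hx => (Int.mul_ediv_cancel' (hφ x hx)).symm
  rw [e]
  obtain ⟨k, hk⟩ := h
  exact ⟨k, by rw [hk]; ring⟩

end

end Pool.MP43e44c.NT
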