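import Pool.Agent.H.MP_43e44c_ag.NT.Two
import Pool.Agent.H.MP_43e44c_ag.NT.DihIso

/-!
Nondegenerate CM types: 2-groups with a normal four-group, the case of 8 embeddings.
-/

set_option autoImplicit false

open Finset

namespace Pool.MP43e44c.NT

section

variable {G : Type*} [Group G] {X : Type*} [MulAction G X]

theorem FourB_sum [DecidableEq X] {M : Subgroup G} {c t : G} (hc : CC G X c) (h : Four X M c t)
    {f w : X → ℤ} (hf : Sgn c f) (hft : ∀ x, f (t • x) = f x) (hw : ∀ x, w (c • x) = -w x)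
    (y : X) (g : G) :
    ∑ x ∈ ({y, t • y, c • y, c • t • y} : Finset X), f x * w (g • x) =
      2 * (f y * (w (g • y) + w (g • t • y))) := by
  have hcc : ∀ x : X, c • c • x = x := fun x => by rw [← mul_smul, hc.sq, one_smul]
  have hgc : ∀ (g : G) (x : X), g • c • x = c • g • x := fun g x => by
    rw [← mul_smul, hc.cen, mul_smul]
  have n1 : y ≠ t • y := (h.freet y).symm
  have n2 : y ≠ c • y := (h.freec y).symm
  have n3 : y ≠ c • t • y := by
    intro h1
    apply h.freect y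
    rw [← hcc (t • y), ← h1]
  have n4 : t • y ≠ c • y := h.freect y
  have n5 : t • y ≠ c • t • y := (h.freec _).symm
  have n6 : c • y ≠ c • t • y := fun h1 => n1 (smul_left_cancel c h1)
  rw [Finset.sum_insert (by simp [n1, n2, n3]), Finset.sum_insert (by simp [n4, n5]),
    Finset.sum_insert (by simp [n6]), Finset.sum_singleton]
  rw [hf.odd, hf.odd, hft, hgc, hgc, hw, hw]
  ring

/-- PROOF. `f` = a sign function with `f (t x) = f x` (`exists_inv_sgn`, `K = zpowers t`).  For a solution `w` and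
`g ∈ G`: equations for `g` and `g e`: `∑_{x ∈ X₁} f x w (g c t x) + ∑_{x ∉ X₁} f x w (g x) = 0`, and
`∑_{X₁} f x w (g c t x) = ∑_{X₁} f (c t x) w (g x) = - ∑_{X₁} f x w (g x)`.  So `∑_{X₁} f x w (g x) = 0` and
`∑_{X - X₁} f x w (g x) = 0`.  `X₁ = {x₀, t x₀, c x₀, c t x₀}`: `2 f x₀ (w (g x₀) + w (g t x₀)) = 0` for all `g`   (1).
`X - X₁` is the same with `y₀ = g₀ x₀`: `w (g y₀) + w (g t y₀) = 0` for all `g`   (2).
`t g₀ = c g₀ t` (from `hg`), so `w (g t y₀) = w (g t g₀ x₀) = w (g c g₀ t x₀) = - w (g g₀ t x₀) = w (g g₀ x₀)` by (1), and (2)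
gives `2 w (g g₀ x₀) = 0` for all `g`: `w = 0` (pretransitivity). -/
theorem nd_four_t [Fintype X] [MulAction.IsPretransitive G X] {M : Subgroup G} {c t e g₀ : G}
    (hc : CC G X c)
    (h : Four X M c t) (hg : g₀ * t = c * t * g₀) {x₀ : X} (hX : ∀ x : X, InB c t x₀ x ∨ InB c t (g₀ • x₀) x)
    (hX' : ∀ x : X, ¬ (InB c t x₀ x ∧ InB c t (g₀ • x₀) x))
    (he1 : ∀ x, InB c t x₀ x → e • x = (c * t) • x) (he2 : ∀ x, InB c t (g₀ • x₀) x → e • x = x) :
    ∃ f : X → ℤ, Sgn c f ∧ Nd c ⊤ f := by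
  classical
  obtain ⟨f, hf, hft'⟩ := exists_inv_sgn (X := X) (Subgroup.zpowers t) (c := c)
    (fun k _ => hc.cen k) hc.sq (fun x k hk => by
      rcases Key_zpowers h.t2 hk with rfl | rfl
      · rw [one_smul]; exact (hc.free x).symm
      · exact h.freect x)
  have hft : ∀ x, f (t • x) = f x := fun x => hft' t (Subgroup.mem_zpowers t) x
  refine ⟨f, hf, fun w hw => ?_⟩
  set y₀ : X := g₀ • x₀ with hy₀
  have hgc : ∀ (g : G) (x : X), g • c • x = c • g • x := fun g x => by
    rw [← mul_smul, hc.cen, mul_smul]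
  have hfne : ∀ x, f x ≠ 0 := fun x h0 => by
    rcases hf.pm x with h1 | h1 <;> rw [h0] at h1 <;> exact absurd h1 (by decide)
  -- splitting of the sum
  have hsplit : ∀ g : G, 2 * (f x₀ * (w (g • x₀) + w (g • t • x₀))) +
      2 * (f y₀ * (w (g • y₀) + w (g • t • y₀))) = 0 := by
    intro g
    have h1 := hw.orth g trivial
    have hu : (univ : Finset X) =
        ({x₀, t • x₀, c • x₀, c • t • x₀} : Finset X) ∪ {y₀, t • y₀, c • y₀, c • t • y₀} := by
      ext x
      simp only [mem_univ, true_iff, mem_union, mem_insert, mem_singleton]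
      exact hX x
    have hd : Disjoint ({x₀, t • x₀, c • x₀, c • t • x₀} : Finset X)
        {y₀, t • y₀, c • y₀, c • t • y₀} := by
      rw [Finset.disjoint_left]
      intro x h2 h3
      simp only [mem_insert, mem_singleton] at h2 h3
      exact hX' x ⟨h2, h3⟩
    rw [hu, Finset.sum_union hd, FourB_sum hc h hf hft hw.odd, FourB_sum hc h hf hft hw.odd] at h1
    exact h1
  have hx1 : InB c t x₀ x₀ := Or.inl rfl
  have hx2 : InB c t x₀ (t • x₀) := Or.inr (Or.inl rfl)
  have hy1 : InB c t y₀ y₀ := Or.inl rfl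
  have hy2 : InB c t y₀ (t • y₀) := Or.inr (Or.inl rfl)
  have key : ∀ g : G, w (g • x₀) + w (g • t • x₀) = 0 ∧ w (g • y₀) + w (g • t • y₀) = 0 := by
    intro g
    have s1 := hsplit g
    have s2 := hsplit (g * e)
    rw [mul_smul, mul_smul, mul_smul, mul_smul, he1 _ hx1, he1 _ hx2, he2 _ hy1, he2 _ hy2,
      mul_smul, mul_smul, Key_tt h, hgc, hgc, hw.odd, hw.odd] at s2
    have s3 : f x₀ * (w (g • x₀) + w (g • t • x₀)) = 0 := by linarith
    have s4 : f y₀ * (w (g • y₀) + w (g • t • y₀)) = 0 := by linarith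
    exact ⟨(mul_eq_zero.1 s3).resolve_left (hfne _), (mul_eq_zero.1 s4).resolve_left (hfne _)⟩
  have htg : t * g₀ = c * (g₀ * t) := by
    rw [hg, ← mul_assoc, ← mul_assoc, hc.sq, one_mul]
  funext x
  obtain ⟨g, rfl⟩ := MulAction.exists_smul_eq G y₀ x
  have k1 := (key g).2
  have k2 := (key (g * g₀)).1
  have e1 : g • t • y₀ = c • (g * g₀) • t • x₀ := by
    rw [hy₀, ← mul_smul t g₀, htg, mul_smul, hgc, mul_smul, mul_smul]
  have e2 : (g * g₀) • x₀ = g • y₀ := by rw [mul_smul]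
  rw [e1, hw.odd] at k1
  rw [e2] at k2
  show w (g • y₀) = 0
  linarith

theorem FourB_mem {c t : G} {y x : X} :
    InB c t y x ↔ ∃ a : G, (a = 1 ∨ a = t ∨ a = c ∨ a = c * t) ∧ x = a • y := by
  constructor
  · rintro (rfl | rfl | rfl | rfl)
    · exact ⟨1, Or.inl rfl, (one_smul _ _).symm⟩
    · exact ⟨t, Or.inr (Or.inl rfl), rfl⟩
    · exact ⟨c, Or.inr (Or.inr (Or.inl rfl)), rfl⟩
    · exact ⟨c * t, Or.inr (Or.inr (Or.inr rfl)), (mul_smul _ _ _).symm⟩
  · rintro ⟨a, rfl | rfl | rfl | rfl, rfl⟩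
    · exact Or.inl (one_smul _ _)
    · exact Or.inr (Or.inl rfl)
    · exact Or.inr (Or.inr (Or.inl rfl))
    · exact Or.inr (Or.inr (Or.inr (mul_smul _ _ _)))

/-- an element which commutes with `t` and maps `y` to `a y` acts as `a` on the block of `y` -/
theorem FourB_act {c t m a : G} (hcen : ∀ g : G, g * c = c * g) (hm : m * t = t * m)
    (ha : a = 1 ∨ a = t ∨ a = c ∨ a = c * t) {y x : X} (hy : m • y = a • y)
    (hx : InB c t y x) : m • x = a • x := by
  have hat : a * t = t * a := by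
    rcases ha with rfl | rfl | rfl | rfl
    · rw [one_mul, mul_one]
    · rfl
    · exact (hcen t).symm
    · rw [mul_assoc, ← mul_assoc t c t, hcen t, mul_assoc]
  obtain ⟨b, hb, rfl⟩ := FourB_mem.1 hx
  have hmb : m * b = b * m := by
    rcases hb with rfl | rfl | rfl | rfl
    · rw [one_mul, mul_one]
    · exact hm
    · exact hcen m
    · rw [← mul_assoc, hcen m, mul_assoc, hm, mul_assoc]
  have hab : a * b = b * a := by
    rcases hb with rfl | rfl | rfl | rfl
    · rw [one_mul, mul_one]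
    · exact hat
    · exact hcen a
    · rw [← mul_assoc, hcen a, mul_assoc, hat, mul_assoc]
  rw [← mul_smul, hmb, mul_smul, hy, ← mul_smul, ← hab, mul_smul]

theorem FourB_ct {M : Subgroup G} {c t : G} (hc : CC G X c) (h : Four X M c t) :
    Four X M c (c * t) := by
  refine ⟨h.cM, mul_mem h.cM h.tM, h.cenc, ?_, h.c2, ?_, h.freec, ?_, ?_⟩
  · intro m hm
    rw [← mul_assoc, h.cenc m hm, mul_assoc, h.cent m hm, mul_assoc]
  · rw [mul_assoc, ← mul_assoc t c t, hc.cen t, mul_assoc c t t, h.t2, mul_one, h.c2]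
  · intro x hx
    apply h.freect x
    rw [mul_smul] at hx
    rw [← Key_cc h (t • x), hx]
  · intro x hx
    rw [mul_smul] at hx
    exact h.freet x (smul_left_cancel c hx)

theorem FourB_inB {M : Subgroup G} {c t : G} (h : Four X M c t) (y x : X) :
    InB c (c * t) y x ↔ InB c t y x := by
  unfold InB
  rw [mul_smul, Key_cc h]
  tauto

end

section

variable {G : Type*} [Group G] {X : Type*} [MulAction G X] [Fintype X]

/-- PROOF. Let `X₁` = the `x` with `InB c t x₀ x`, `X₂` the same for `y₀ = g₀ x₀`.  `M` = the centraliser of `t`.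
Each `m ∈ M` acts on `X₁` as one of `1, t, c, ct` (`m x₀ ∈ X₁` by `hM`, `m x₀ = a x₀`, and `m a' x₀ = a' m x₀ = a a' x₀`), and on
`X₂` (`g₀⁻¹ m g₀ ∈ M`).
(1) Suppose for all `m ∈ M` the two elements are equal: `m = a` (faithful), so `M = {1, c, t, ct}`, and
`dih_of_four` gives the second alternative.
(2) Otherwise there is `m ∈ M`, `m = a₁` on `X₁` and `m = a₂` on `X₂`, `a₁ ≠ a₂`; `e = a₁ m` is `1` on `X₁` and `a = a₁ a₂ ≠ 1` on
`X₂`, `a ∈ {c, t, ct}`.  If `a = c` use `nd_split`.  If `a = t'` with `t' = t` or `t' = c t`: `Four X M c t'`,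
`g₀ t' = c t' g₀`, and `e' = g₀⁻¹ e g₀` is `1` on `X₂` (`g₀ X₂ = X₁`) and `g₀⁻¹ t' g₀ = c t'` on `X₁`: `nd_four_t` with
`t'` and `e'` (`InB c t' x₀ x ↔ InB c t x₀ x`). -/
theorem nd_four [MulAction.IsPretransitive G X] [FaithfulSMul G X] {c t g₀ : G} (hc : CC G X c)
    (h : Four X (Subgroup.centralizer {t}) c t) (hg : g₀ * t = c * t * g₀)
    (hall : ∀ g : G, g * t = t * g ∨ g * t = c * t * g) {x₀ : X}
    (hM : ∀ m ∈ Subgroup.centralizer {t}, InB c t x₀ (m • x₀))
    (hX : ∀ x : X, InB c t x₀ x ∨ InB c t (g₀ • x₀) x)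
    (hX' : ∀ x : X, ¬ (InB c t x₀ x ∧ InB c t (g₀ • x₀) x)) :
    (∃ f : X → ℤ, Sgn c f ∧ Nd c ⊤ f) ∨ Nonempty (G ≃* DihedralGroup 4) := by
  have hmemM : ∀ m : G, m ∈ Subgroup.centralizer {t} ↔ m * t = t * m := by
    intro m
    rw [Subgroup.mem_centralizer_iff]
    constructor
    · intro h1
      exact (h1 t (Set.mem_singleton t)).symm
    · intro h1 s hs
      rw [Set.mem_singleton_iff.1 hs]
      exact h1.symm
  set y₀ : X := g₀ • x₀ with hy₀
  -- commutation rules
  have htg : t * g₀ = c * (g₀ * t) := by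
    rw [hg, ← mul_assoc, ← mul_assoc, hc.sq, one_mul]
  have hinvt : g₀⁻¹ * t = c * (t * g₀⁻¹) := by
    rw [inv_mul_eq_iff_eq_mul, ← mul_assoc, ← mul_assoc, hc.cen g₀, mul_assoc c g₀ t, hg,
      ← mul_assoc, ← mul_assoc, hc.sq, one_mul, mul_assoc, mul_inv_cancel, mul_one]
  have hinvct : g₀⁻¹ * (c * t) = t * g₀⁻¹ := by
    rw [← mul_assoc, hc.cen, mul_assoc, hinvt, ← mul_assoc, hc.sq, one_mul]
  have hconjt : g₀⁻¹ * t * g₀ = c * t := by
    rw [hinvt, mul_assoc, mul_assoc, inv_mul_cancel, mul_one]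
  have hconjct : g₀⁻¹ * (c * t) * g₀ = t := by
    rw [hinvct, mul_assoc, inv_mul_cancel, mul_one]
  have hgct : g₀ * (c * t) = t * g₀ := by
    rw [← mul_assoc, hc.cen g₀, mul_assoc, htg]
  -- `g₀` maps the block of `x₀` to the block of `y₀`
  have hB1 : ∀ x, InB c t x₀ x → InB c t y₀ (g₀ • x) := by
    rintro x (rfl | rfl | rfl | rfl)
    · exact Or.inl rfl
    · refine Or.inr (Or.inr (Or.inr ?_))
      rw [hy₀, ← mul_smul, hg, mul_smul, mul_smul]
    · refine Or.inr (Or.inr (Or.inl ?_))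
      rw [hy₀, ← mul_smul, hc.cen g₀, mul_smul]
    · refine Or.inr (Or.inl ?_)
      rw [hy₀, ← mul_smul c t, ← mul_smul g₀, hgct, mul_smul]
  have hB1' : ∀ x, InB c t y₀ x → InB c t x₀ (g₀⁻¹ • x) := by
    rintro x (rfl | rfl | rfl | rfl)
    · refine Or.inl ?_
      rw [hy₀, inv_smul_smul]
    · refine Or.inr (Or.inr (Or.inr ?_))
      rw [hy₀, ← mul_smul, ← mul_smul, ← mul_smul, hinvt, mul_assoc, mul_assoc, inv_mul_cancel,
        mul_one]
    · refine Or.inr (Or.inr (Or.inl ?_))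
      rw [hy₀, ← mul_smul, hc.cen, mul_smul, inv_smul_smul]
    · refine Or.inr (Or.inl ?_)
      rw [hy₀, ← mul_smul c t, ← mul_smul, hinvct, mul_smul, inv_smul_smul]
  have hgg : g₀ * g₀ * t = t * (g₀ * g₀) := by
    calc g₀ * g₀ * t = g₀ * (g₀ * t) := mul_assoc _ _ _
      _ = g₀ * (c * t * g₀) := by rw [hg]
      _ = (g₀ * (c * t)) * g₀ := (mul_assoc _ _ _).symm
      _ = t * g₀ * g₀ := by rw [hgct]
      _ = t * (g₀ * g₀) := mul_assoc _ _ _
  have hB2 : ∀ x, InB c t y₀ x → InB c t x₀ (g₀ • x) := by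
    intro x hx
    have h1 : InB c t x₀ ((g₀ * g₀) • g₀⁻¹ • x) := by
      obtain ⟨a, ha, hax⟩ := FourB_mem.1 (hB1' x hx)
      obtain ⟨b, hb, hbx⟩ := FourB_mem.1 (hM _ ((hmemM _).2 hgg))
      have h2 := FourB_act hc.cen hgg hb hbx (hB1' x hx)
      rw [h2]
      rcases hb with rfl | rfl | rfl | rfl
      · rw [one_smul]; exact hB1' x hx
      · exact Key_inB_t h (hB1' x hx)
      · exact Key_inB_c h (hB1' x hx)
      · rw [mul_smul]
        exact Key_inB_c h (Key_inB_t h (hB1' x hx))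
    rwa [mul_smul, smul_inv_smul] at h1
  -- action of `M` on the second block
  have hM2 : ∀ m, m * t = t * m → ∃ b : G, (b = 1 ∨ b = t ∨ b = c ∨ b = c * t) ∧ m • y₀ = b • y₀ := by
    intro m hm
    have h1 : InB c t y₀ (g₀ • (g₀⁻¹ * m * g₀) • x₀) := by
      refine hB1 _ (hM _ ((hmemM _).2 ?_))
      calc g₀⁻¹ * m * g₀ * t = g₀⁻¹ * m * (g₀ * t) := by rw [mul_assoc]
        _ = g₀⁻¹ * m * (c * t * g₀) := by rw [hg]
        _ = g₀⁻¹ * ((m * (c * t)) * g₀) := by simp only [mul_assoc]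
        _ = g₀⁻¹ * (((c * t) * m) * g₀) := by
            rw [← mul_assoc m c t, hc.cen m, mul_assoc c m t, hm, ← mul_assoc c t m]
        _ = (g₀⁻¹ * (c * t)) * (m * g₀) := by simp only [mul_assoc]
        _ = t * (g₀⁻¹ * m * g₀) := by rw [hinvct]; simp only [mul_assoc]
    have h2 : g₀ • (g₀⁻¹ * m * g₀) • x₀ = m • y₀ := by
      rw [← mul_smul, hy₀, ← mul_smul]
      congr 1
      simp only [mul_assoc, mul_inv_cancel_left]
    rw [h2] at h1
    exact FourB_mem.1 h1
  by_cases hex : ∀ m, m * t = t * m → ∀ a b : G, (a = 1 ∨ a = t ∨ a = c ∨ a = c * t) →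
      (b = 1 ∨ b = t ∨ b = c ∨ b = c * t) → m • x₀ = a • x₀ → m • y₀ = b • y₀ → a = b
  · right
    have hc1 : c ≠ 1 := by
      intro h1
      apply hc.free x₀
      rw [h1, one_smul]
    have ht1 : t ≠ 1 := by
      intro h1
      apply h.freet x₀
      rw [h1, one_smul]
    have htc : t ≠ c := by
      intro h1
      apply h.freect x₀
      rw [h1]
    refine dih_of_four (g := g₀) (t := t) (c := c) hc.cen hc.sq hc1 h.t2 ht1 htc hg ?_
    intro m
    refine ⟨fun hm => ?_, fun hm => ?_⟩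
    · obtain ⟨a, ha, hax⟩ := FourB_mem.1 (hM m ((hmemM m).2 hm))
      obtain ⟨b, hb, hby⟩ := hM2 m hm
      have hab := hex m hm a b ha hb hax hby
      subst hab
      have hma : m = a := by
        refine FaithfulSMul.eq_of_smul_eq_smul (α := X) fun x => ?_
        rcases hX x with hx | hx
        · exact FourB_act hc.cen hm ha hax hx
        · exact FourB_act hc.cen hm hb hby hx
      rw [hma]
      rcases ha with h1 | h1 | h1 | h1
      · exact Or.inl h1
      · exact Or.inr (Or.inr (Or.inl h1))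
      · exact Or.inr (Or.inl h1)
      · exact Or.inr (Or.inr (Or.inr h1))
    · have h1 : m * t = c * t * m := (hall m).resolve_left hm
      rw [mul_assoc, h1, ← mul_assoc, hinvct, mul_assoc]
  · left
    push Not at hex
    obtain ⟨m, hm, a₁, a₂, ha₁, ha₂, hx, hy, hne⟩ := hex
    -- products in the four-group
    have ha11 : a₁ * a₁ = 1 := by
      rcases ha₁ with rfl | rfl | rfl | rfl
      · rw [one_mul]
      · exact h.t2
      · exact hc.sq
      · exact (FourB_ct hc h).t2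
    have e1 : ∀ x, InB c t x₀ x → (a₁ * m) • x = x := by
      intro x hx'
      rw [mul_smul, FourB_act hc.cen hm ha₁ hx hx', ← mul_smul, ha11, one_smul]
    have e2 : ∀ x, InB c t y₀ x → (a₁ * m) • x = (a₁ * a₂) • x := by
      intro x hx'
      rw [mul_smul, FourB_act hc.cen hm ha₂ hy hx', ← mul_smul]
    have ha : a₁ * a₂ = t ∨ a₁ * a₂ = c ∨ a₁ * a₂ = c * t := by
      have htc : t * c = c * t := hc.cen t
      have hct2 : c * (c * t) = t := by rw [← mul_assoc, hc.sq, one_mul]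
      have htct : t * (c * t) = c := by rw [← mul_assoc, htc, mul_assoc, h.t2, mul_one]
      have hctc : c * t * c = t := by rw [mul_assoc, htc, hct2]
      have hctt : c * t * t = c := by rw [mul_assoc, h.t2, mul_one]
      rcases ha₁ with rfl | rfl | rfl | rfl <;> rcases ha₂ with rfl | rfl | rfl | rfl
      all_goals first
        | exact absurd rfl hne
        | simp [htc, hct2, htct, hctc, hctt]
    rcases ha with ha | ha | ha
    · -- `t' = t`
      refine nd_four_t (M := Subgroup.centralizer {t}) (c := c) (t := t)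
        (e := g₀⁻¹ * (a₁ * m) * g₀) (g₀ := g₀) (x₀ := x₀) hc h hg hX hX' ?_ ?_
      · intro x hx'
        rw [mul_smul, mul_smul, e2 _ (hB1 x hx'), ha, ← mul_smul, ← mul_smul, hconjt]
      · intro x hx'
        rw [mul_smul, mul_smul, e1 _ (hB2 x hx'), inv_smul_smul]
    · -- the element acts as `c` on the second block
      refine nd_split (c := c) (e := a₁ * m) (g₀ := g₀) hc (X₁ := {x | InB c t x₀ x})
        (fun x hx' => Key_inB_c h hx') (fun x hx' => e1 x hx') ?_ ?_ ?_ (x₀ := x₀) (Or.inl rfl)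
      · intro x hx'
        have h1 : InB c t y₀ x := (hX x).resolve_left hx'
        rw [e2 x h1, ha]
      · intro x hx' h1
        exact hX' _ ⟨h1, hB1 x hx'⟩
      · intro x hx'
        exact hB1' x ((hX x).resolve_left hx')
    · -- `t' = c t`
      have hct2 : c * (c * t) = t := by rw [← mul_assoc, hc.sq, one_mul]
      refine nd_four_t (M := Subgroup.centralizer {t}) (c := c) (t := c * t)
        (e := g₀⁻¹ * (a₁ * m) * g₀) (g₀ := g₀) (x₀ := x₀) hc (FourB_ct hc h) ?_ ?_ ?_ ?_ ?_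
      · rw [hct2, hgct]
      · intro x
        rw [FourB_inB h, FourB_inB h]
        exact hX x
      · intro x
        rw [FourB_inB h, FourB_inB h]
        exact hX' x
      · intro x hx'
        rw [FourB_inB h] at hx'
        rw [mul_smul, mul_smul, e2 _ (hB1 x hx'), ha, ← mul_smul, ← mul_smul, hconjct, hct2]
      · intro x hx'
        rw [FourB_inB h] at hx'
        rw [mul_smul, mul_smul, e1 _ (hB2 x hx'), inv_smul_smul]

end

end Pool.MP43e44c.NT
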