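import Mathlib

/-!
Nondegenerate CM types: 2-groups without normal four-groups; a self-centralising cyclic normal subgroup.
-/

set_option autoImplicit false

namespace Pool.MP43e44c.NT

/-- A nontrivial normal subgroup of a finite 2-group contains a central element of order two.
PROOF. `G` acts on `N` by conjugation, the number of fixed points is even
(`IsPGroup.card_modEq_card_fixedPoints`), so there is a central element `≠ 1` of `N`; a power of it has order 2. -/
theorem exists_central_inv {G : Type*} [Group G] [Finite G] (hG : IsPGroup 2 G) (N : Subgroup G)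
    (hN : N.Normal) (hN1 : N ≠ ⊥) : ∃ z ∈ N, z ≠ 1 ∧ z * z = 1 ∧ ∀ g : G, g * z = z * g := by
  have : Fact (Nat.Prime 2) := ⟨Nat.prime_two⟩
  have := hN
  have hNG : IsPGroup 2 N := hG.to_subgroup N
  have : Nontrivial N := (Subgroup.nontrivial_iff_ne_bot N).2 hN1
  have dvd : 2 ∣ Nat.card N := by
    obtain ⟨n, hn0, hn⟩ := hNG.nontrivial_iff_card.mp inferInstance
    exact hn.symm ▸ dvd_pow_self _ (ne_of_gt hn0)
  obtain ⟨w, hw, hw1⟩ :=
    (hG.of_equiv ConjAct.toConjAct).exists_fixed_point_of_prime_dvd_card_of_fixed_point N dvd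
      (a := (1 : N)) (fun g => smul_one g)
  have hcen : ∀ g : G, g * (w : G) = w * g := by
    intro g
    have h1 := congrArg Subtype.val (hw (ConjAct.toConjAct g))
    rw [ConjAct.Subgroup.val_conj_smul, ConjAct.smul_def, ConjAct.ofConjAct_toConjAct] at h1
    calc g * (w : G) = g * w * g⁻¹ * g := by group
      _ = w * g := by rw [h1]
  have hw1' : (w : G) ≠ 1 := fun h => hw1 (Subtype.ext h.symm)
  have hex : ∃ k : ℕ, (w : G) ^ 2 ^ k = 1 := hG w
  classical
  have h2 := Nat.find_spec hex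
  have h3 : Nat.find hex ≠ 0 := by
    intro h0
    rw [h0, pow_zero, pow_one] at h2
    exact hw1' h2
  obtain ⟨k, hk⟩ := Nat.exists_eq_succ_of_ne_zero h3
  refine ⟨(w : G) ^ 2 ^ k, N.pow_mem w.2 _, ?_, ?_, ?_⟩
  · exact Nat.find_min hex (by omega)
  · rw [← pow_add, ← two_mul, ← pow_succ']
    rw [hk] at h2
    exact h2
  · intro g
    exact (Commute.pow_right (hcen g) (2 ^ k) : Commute g _)

/-- PROOF. Apply `exists_central_inv` to `G ⧸ N` and the image of `Z`: there is `d ∈ Z`, `d ∉ N`, `d * d ∈ N`, and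
`g * d * g⁻¹ * d⁻¹ ∈ N` for all `g` (hence the stated form). -/
theorem exists_step {G : Type*} [Group G] [Finite G] (hG : IsPGroup 2 G) (N Z : Subgroup G)
    (hN : N.Normal) (hZ : Z.Normal) (hNZ : N < Z) :
    ∃ d ∈ Z, d ∉ N ∧ d * d ∈ N ∧ ∀ g : G, ∃ n ∈ N, g * d * g⁻¹ = n * d := by
  have := hN
  have hZ' : (Z.map (QuotientGroup.mk' N)).Normal :=
    hZ.map _ (QuotientGroup.mk'_surjective N)
  have hne : Z.map (QuotientGroup.mk' N) ≠ ⊥ := by
    intro h0
    obtain ⟨z, hz, hzN⟩ := SetLike.exists_of_lt hNZ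
    have h1 : QuotientGroup.mk' N z ∈ Z.map (QuotientGroup.mk' N) :=
      Subgroup.mem_map_of_mem _ hz
    rw [h0, Subgroup.mem_bot] at h1
    exact hzN ((QuotientGroup.eq_one_iff z).1 h1)
  obtain ⟨w, hw, hw1, hw2, hw3⟩ := exists_central_inv (hG.to_quotient N) _ hZ' hne
  obtain ⟨d, hd, rfl⟩ := Subgroup.mem_map.1 hw
  refine ⟨d, hd, fun h => hw1 ((QuotientGroup.eq_one_iff d).2 h), ?_, fun g => ?_⟩
  · rw [← map_mul] at hw2
    exact (QuotientGroup.eq_one_iff _).1 hw2
  · refine ⟨g * d * g⁻¹ * d⁻¹, ?_, by group⟩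
    have h1 := hw3 (QuotientGroup.mk' N g)
    apply (QuotientGroup.eq_one_iff _).1
    show QuotientGroup.mk' N (g * d * g⁻¹ * d⁻¹) = 1
    rw [map_mul, map_mul, map_mul, map_inv, map_inv, h1]
    group

/-- the elements of order two of a cyclic group -/
theorem GrpA_two {G : Type*} [Group G] [Finite G] {r c n : G} (hc : c ∈ Subgroup.zpowers r)
    (hn : n ∈ Subgroup.zpowers r) (c2 : c * c = 1) (c1 : c ≠ 1) (n2 : n * n = 1) :
    n = 1 ∨ n = c := by
  obtain ⟨b, rfl⟩ := Subgroup.mem_zpowers_iff.1 hc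
  obtain ⟨a, rfl⟩ := Subgroup.mem_zpowers_iff.1 hn
  rw [← zpow_add, ← orderOf_dvd_iff_zpow_eq_one] at c2 n2
  obtain ⟨u, hu⟩ := n2
  obtain ⟨v, hv⟩ := c2
  have hvo : v % 2 = 1 := by
    by_contra h0
    have h1 : v = 2 * (v / 2) := by omega
    apply c1
    rw [← orderOf_dvd_iff_zpow_eq_one]
    refine ⟨v / 2, ?_⟩
    have h2 : (orderOf r : ℤ) * v = 2 * ((orderOf r : ℤ) * (v / 2)) := by
      conv_lhs => rw [h1]
      ring
    omega
  rcases Int.emod_two_eq_zero_or_one u with h0 | h0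
  · left
    have h1 : u = 2 * (u / 2) := by omega
    rw [← orderOf_dvd_iff_zpow_eq_one]
    refine ⟨u / 2, ?_⟩
    have h2 : (orderOf r : ℤ) * u = 2 * ((orderOf r : ℤ) * (u / 2)) := by
      conv_lhs => rw [h1]
      ring
    omega
  · right
    have h1 : u - v = 2 * ((u - v) / 2) := by omega
    have h3 : r ^ (a - b) = 1 := by
      rw [← orderOf_dvd_iff_zpow_eq_one]
      refine ⟨(u - v) / 2, ?_⟩
      have h2 : (orderOf r : ℤ) * (u - v) = 2 * ((orderOf r : ℤ) * ((u - v) / 2)) := by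
        conv_lhs => rw [h1]
        ring
      have h4 : (orderOf r : ℤ) * (u - v) = orderOf r * u - orderOf r * v := by ring
      omega
    rw [zpow_sub] at h3
    exact mul_inv_eq_one.1 h3

/-- an odd power generates the same cyclic 2-group -/
theorem GrpA_odd {G : Type*} [Group G] (hG : IsPGroup 2 G) {r : G} {j : ℤ}
    (hj : j % 2 = 1) : ∃ u : ℤ, r = (r ^ j) ^ u := by
  obtain ⟨k, hk⟩ := hG r
  have h1 : IsCoprime j ((2 : ℤ) ^ k) := by
    apply IsCoprime.pow_right
    rw [Int.isCoprime_two_right]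
    exact Int.odd_iff.2 hj
  obtain ⟨u, v, huv⟩ := h1
  refine ⟨u, ?_⟩
  rw [← zpow_mul]
  have h3 : r ^ ((2 : ℤ) ^ k * v) = 1 := by
    rw [zpow_mul]
    have h4 : r ^ ((2 : ℤ) ^ k) = 1 := by
      exact_mod_cast hk
    rw [h4, one_zpow]
  calc r = r ^ (1 : ℤ) := (zpow_one r).symm
    _ = r ^ (j * u + (2 : ℤ) ^ k * v) := by rw [← huv]; ring_nf
    _ = r ^ (j * u) := by rw [zpow_add, h3, mul_one]

/-- PROOF. Let `C = zpowers r` be a normal cyclic subgroup of maximal order among those with `c ∈ C` (`zpowers c` is one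
of them, `c` is central).  Let `Z` be the centraliser of `C`, normal, `C ≤ Z`.  Suppose `C < Z`.  Take `d` from
`exists_step` (`N = C`).  `d * d = r ^ j`.
If `j` is even (`j = 2 i`), `t = d r^{-i}` satisfies `t * t = 1`, `t ∉ C` (so `t ≠ 1, c`), and for `g ∈ G`: `g t g⁻¹ = n t` with
`n ∈ C` (`C` normal), `n` commutes with `t`, `1 = (g t g⁻¹)² = n²`, so `n = 1` or `n = c` (the only elements of order
two of the cyclic 2-group `C` which contains `c`): contradiction to `hno`.
If `j` is odd, `zpowers (d * d) = C` (the order of `r` is a power of 2), so `C ≤ zpowers d`, `zpowers d` is normal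
(`g d g⁻¹ = n d ∈ zpowers d`) and strictly larger than `C`: contradiction to the maximality. -/
theorem exists_cyc {G : Type*} [Group G] [Finite G] (hG : IsPGroup 2 G) {c : G}
    (hcen : ∀ g : G, g * c = c * g) (c2 : c * c = 1) (c1 : c ≠ 1)
    (hno : ¬ ∃ t : G, t * t = 1 ∧ t ≠ 1 ∧ t ≠ c ∧ ∀ g : G, g * t = t * g ∨ g * t = c * t * g) :
    ∃ r : G, c ∈ Subgroup.zpowers r ∧ (∀ g : G, g * r * g⁻¹ ∈ Subgroup.zpowers r) ∧
      ∀ g : G, g * r = r * g → g ∈ Subgroup.zpowers r := by
  obtain ⟨r, ⟨hr1, hr2⟩, hmax⟩ := Set.exists_max_image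
    {r : G | c ∈ Subgroup.zpowers r ∧ ∀ g : G, g * r * g⁻¹ ∈ Subgroup.zpowers r} orderOf
    (Set.toFinite _) ⟨c, Subgroup.mem_zpowers c, fun g => by
      rw [hcen g, mul_inv_cancel_right]
      exact Subgroup.mem_zpowers c⟩
  refine ⟨r, hr1, hr2, ?_⟩
  by_contra hcon
  push Not at hcon
  obtain ⟨g0, hg0, hg0'⟩ := hcon
  have hconj : ∀ (g : G) (k : ℤ), g * r ^ k * g⁻¹ ∈ Subgroup.zpowers r := by
    intro g k
    have h1 : g * r ^ k * g⁻¹ = (g * r * g⁻¹) ^ k := (conj_zpow).symm
    rw [h1]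
    exact Subgroup.zpow_mem _ (hr2 g) k
  have hN : (Subgroup.zpowers r).Normal := by
    refine ⟨fun n hn g => ?_⟩
    obtain ⟨k, rfl⟩ := Subgroup.mem_zpowers_iff.1 hn
    exact hconj g k
  have hZmem : ∀ z : G, z ∈ Subgroup.centralizer {r} ↔ r * z = z * r := by
    intro z
    rw [Subgroup.mem_centralizer_singleton_iff]
    exact eq_comm
  have hZc : ∀ z : G, r * z = z * r → ∀ n ∈ Subgroup.zpowers r, n * z = z * n := by
    intro z hz n hn
    obtain ⟨k, rfl⟩ := Subgroup.mem_zpowers_iff.1 hn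
    exact (Commute.zpow_left hz k : Commute _ z)
  have hZ : (Subgroup.centralizer {r}).Normal := by
    refine ⟨fun z hz g => ?_⟩
    rw [hZmem] at hz ⊢
    have h1 := hZc z hz (g⁻¹ * r * g) (by
      have := hr2 g⁻¹
      rwa [inv_inv] at this)
    calc r * (g * z * g⁻¹) = g * ((g⁻¹ * r * g) * z) * g⁻¹ := by group
      _ = g * (z * (g⁻¹ * r * g)) * g⁻¹ := by rw [h1]
      _ = g * z * g⁻¹ * r := by group
  have hNZ : Subgroup.zpowers r < Subgroup.centralizer {r} := by
    refine lt_of_le_of_ne ?_ ?_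
    · rw [Subgroup.zpowers_le, hZmem]
    · intro h0
      apply hg0'
      rw [h0, hZmem, hg0]
  obtain ⟨d, hdZ, hdN, hdd, hd⟩ := exists_step hG _ _ hN hZ hNZ
  rw [hZmem] at hdZ
  have hdc := hZc d hdZ
  obtain ⟨j, hj⟩ := Subgroup.mem_zpowers_iff.1 hdd
  rcases Int.emod_two_eq_zero_or_one j with h0 | h0
  · -- even
    obtain ⟨i, hi⟩ : ∃ i, j = i + i := ⟨j / 2, by omega⟩
    apply hno
    have hri : r ^ (-i) * d = d * r ^ (-i) := hdc _ (Subgroup.zpow_mem_zpowers r _)
    have ht2 : d * r ^ (-i) * (d * r ^ (-i)) = 1 := by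
      calc d * r ^ (-i) * (d * r ^ (-i)) = d * (r ^ (-i) * d) * r ^ (-i) := by group
        _ = d * d * (r ^ (-i) * r ^ (-i)) := by rw [hri]; group
        _ = 1 := by
          rw [← hj, hi]
          group
    have htN : d * r ^ (-i) ∉ Subgroup.zpowers r := by
      intro h1
      apply hdN
      have h2 := Subgroup.mul_mem _ h1 (Subgroup.zpow_mem_zpowers r i)
      have h3 : d * r ^ (-i) * r ^ i = d := by group
      rwa [h3] at h2
    have htZ : r * (d * r ^ (-i)) = d * r ^ (-i) * r := by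
      calc r * (d * r ^ (-i)) = (r * d) * r ^ (-i) := by group
        _ = d * r ^ (-i) * r := by rw [hdZ]; group
    refine ⟨d * r ^ (-i), ht2, ?_, ?_, fun g => ?_⟩
    · intro h1
      apply htN
      rw [h1]
      exact Subgroup.one_mem _
    · intro h1
      apply htN
      rw [h1]
      exact hr1
    · obtain ⟨n, hn, hgn⟩ := hd g
      set t := d * r ^ (-i) with ht
      obtain ⟨m, hm, hgm⟩ : ∃ m ∈ Subgroup.zpowers r, g * t * g⁻¹ = m * t := by
        refine ⟨n * (g * r ^ (-i) * g⁻¹) * r ^ i, ?_, ?_⟩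
        · exact Subgroup.mul_mem _ (Subgroup.mul_mem _ hn (hconj g _))
            (Subgroup.zpow_mem_zpowers r i)
        · have h1 := hdc _ (hconj g (-i))
          have h2 := hdc _ (Subgroup.zpow_mem_zpowers r i)
          calc g * t * g⁻¹ = (g * d * g⁻¹) * (g * r ^ (-i) * g⁻¹) := by rw [ht]; group
            _ = n * (d * (g * r ^ (-i) * g⁻¹)) := by rw [hgn]; group
            _ = n * ((g * r ^ (-i) * g⁻¹) * d) := by rw [h1]
            _ = n * (g * r ^ (-i) * g⁻¹) * ((d * r ^ i) * r ^ (-i)) := by group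
            _ = n * (g * r ^ (-i) * g⁻¹) * ((r ^ i * d) * r ^ (-i)) := by rw [h2]
            _ = n * (g * r ^ (-i) * g⁻¹) * r ^ i * t := by rw [ht]; group
      have hmt := hZc t htZ m hm
      have hm2 : m * m = 1 := by
        have h1 : g * t * g⁻¹ * (g * t * g⁻¹) = 1 := by
          calc g * t * g⁻¹ * (g * t * g⁻¹) = g * (t * t) * g⁻¹ := by group
            _ = 1 := by rw [ht2]; group
        rw [hgm] at h1
        calc m * m = m * m * (t * t) := by rw [ht2, mul_one]
          _ = m * (m * t) * t := by group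
          _ = m * (t * m) * t := by rw [hmt]
          _ = m * t * (m * t) := by group
          _ = 1 := h1
      have hgt : g * t = m * t * g := by
        rw [← hgm]
        group
      rcases GrpA_two hr1 hm c2 c1 hm2 with h1 | h1
      · left
        rw [hgt, h1, one_mul]
      · right
        rw [hgt, h1]
  · -- odd
    obtain ⟨u, hu⟩ := GrpA_odd hG (r := r) h0
    rw [hj] at hu
    have hrd : r ∈ Subgroup.zpowers d := by
      rw [hu]
      exact Subgroup.zpow_mem _ (Subgroup.mul_mem _ (Subgroup.mem_zpowers d)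
        (Subgroup.mem_zpowers d)) u
    have hle : Subgroup.zpowers r ≤ Subgroup.zpowers d := by
      rw [Subgroup.zpowers_le]
      exact hrd
    have hPd : d ∈ {r : G | c ∈ Subgroup.zpowers r ∧ ∀ g : G, g * r * g⁻¹ ∈ Subgroup.zpowers r} := by
      refine ⟨hle hr1, fun g => ?_⟩
      obtain ⟨n, hn, hgn⟩ := hd g
      rw [hgn]
      exact Subgroup.mul_mem _ (hle hn) (Subgroup.mem_zpowers d)
    have h1 := hmax d hPd
    have h2 : Subgroup.zpowers r = Subgroup.zpowers d := by
      apply Subgroup.eq_of_le_of_card_ge hle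
      rw [Nat.card_zpowers, Nat.card_zpowers]
      exact h1
    apply hdN
    rw [h2]
    exact Subgroup.mem_zpowers d

end Pool.MP43e44c.NT
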