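import Mathlib

/-!
Nondegenerate CM types: units modulo powers of two.
-/

set_option autoImplicit false

namespace Pool.MP43e44c.NT

/-- A number dividing by half of `2 ^ a` is zero or `2 ^ (a - 1)` modulo `2 ^ a`. -/
theorem Num_half {b : ℕ} {x : ℤ} (h : (2 : ℤ) ^ (b + 2) ∣ x) :
    (2 : ℤ) ^ (b + 3) ∣ x ∨ (2 : ℤ) ^ (b + 3) ∣ x - 2 ^ (b + 2) := by
  obtain ⟨t, ht⟩ := h
  rcases Int.even_or_odd' t with ⟨u, hu | hu⟩
  · left
    exact ⟨u, by rw [ht, hu]; ring⟩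
  · right
    exact ⟨u, by rw [ht, hu]; ring⟩

/-- PROOF. `2 ^ a ∣ (k - 1) (k + 1)`, one of the two factors is twice an odd number. -/
theorem sq_one {a : ℕ} (ha : 3 ≤ a) {k : ℤ} (hk : (2 : ℤ) ^ a ∣ k ^ 2 - 1) :
    (2 : ℤ) ^ a ∣ k - 1 ∨ (2 : ℤ) ^ a ∣ k - (1 + 2 ^ (a - 1)) ∨ (2 : ℤ) ^ a ∣ k + 1 ∨
      (2 : ℤ) ^ a ∣ k - (-1 + 2 ^ (a - 1)) := by
  obtain ⟨b, rfl⟩ : ∃ b, a = b + 3 := ⟨a - 3, by omega⟩
  have e1 : b + 3 - 1 = b + 2 := by omega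
  rw [e1]
  have h2 : (2 : ℤ) ∣ k ^ 2 - 1 := dvd_trans (dvd_pow_self 2 (by omega)) hk
  have hodd : Odd k := by
    rcases Int.even_or_odd k with h | h
    · exfalso
      obtain ⟨t, ht⟩ := h
      obtain ⟨u, hu⟩ := h2
      have : (2 : ℤ) * (u - 2 * t ^ 2) = -1 := by
        have : k ^ 2 = (t + t) ^ 2 := by rw [ht]
        linarith [this, hu]
      omega
    · exact h
  obtain ⟨m, hm⟩ := hodd
  have hdiv : (2 : ℤ) ^ (b + 1) ∣ m * (m + 1) := by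
    obtain ⟨u, hu⟩ := hk
    refine ⟨u, ?_⟩
    have h4 : (4 : ℤ) * (m * (m + 1)) = 4 * (2 ^ (b + 1) * u) := by
      have : k ^ 2 - 1 = 4 * (m * (m + 1)) := by rw [hm]; ring
      rw [← this, hu]; ring
    linarith
  rcases Int.even_or_odd m with he | ho
  · have hc : IsCoprime ((2 : ℤ) ^ (b + 1)) (m + 1) := by
      apply IsCoprime.pow_left
      obtain ⟨t, ht⟩ := he
      exact ⟨-t, 1, by rw [ht]; ring⟩
    have hd : (2 : ℤ) ^ (b + 1) ∣ m := hc.dvd_of_dvd_mul_right hdiv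
    have hd2 : (2 : ℤ) ^ (b + 2) ∣ k - 1 := by
      obtain ⟨t, ht⟩ := hd
      exact ⟨t, by rw [hm, ht]; ring⟩
    rcases Num_half hd2 with h | h
    · exact Or.inl h
    · right; left
      have : k - (1 + 2 ^ (b + 2)) = k - 1 - 2 ^ (b + 2) := by ring
      rw [this]; exact h
  · have hc : IsCoprime ((2 : ℤ) ^ (b + 1)) m := by
      apply IsCoprime.pow_left
      obtain ⟨t, ht⟩ := ho
      exact ⟨-t, 1, by rw [ht]; ring⟩
    have hd : (2 : ℤ) ^ (b + 1) ∣ m + 1 := hc.dvd_of_dvd_mul_left hdiv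
    have hd2 : (2 : ℤ) ^ (b + 2) ∣ k + 1 := by
      obtain ⟨t, ht⟩ := hd
      refine ⟨t, ?_⟩
      have : k + 1 = 2 * (m + 1) := by rw [hm]; ring
      rw [this, ht]; ring
    rcases Num_half hd2 with h | h
    · right; right; left; exact h
    · right; right; right
      have : k - (-1 + 2 ^ (b + 2)) = k + 1 - 2 ^ (b + 2) := by ring
      rw [this]; exact h

/-- High powers of an odd number are one modulo powers of two. -/
theorem Num_pow {k : ℤ} (hodd : Odd k) (j : ℕ) : (2 : ℤ) ^ (j + 1) ∣ k ^ (2 ^ j) - 1 := by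
  induction j with
  | zero =>
    obtain ⟨m, hm⟩ := hodd
    exact ⟨m, by rw [hm]; ring⟩
  | succ j ih =>
    have h1 : k ^ (2 ^ (j + 1)) - 1 = (k ^ (2 ^ j) - 1) * (k ^ (2 ^ j) + 1) := by
      rw [pow_succ 2 j, pow_mul]; ring
    rw [h1, pow_succ]
    apply mul_dvd_mul ih
    have : Odd (k ^ (2 ^ j)) := hodd.pow
    obtain ⟨m, hm⟩ := this
    exact ⟨m + 1, by rw [hm]; ring⟩

/-- The square of an odd number is one modulo four. -/
theorem Num_four {k : ℤ} (hodd : Odd k) : (4 : ℤ) ∣ k ^ 2 - 1 := by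
  obtain ⟨m, hm⟩ := hodd
  exact ⟨m * (m + 1), by rw [hm]; ring⟩

/-- A power of an odd number whose square is not one is `1 + 2 ^ (a - 1)`.
PROOF. `k ^ (2 ^ i)` is congruent to one for large `i` (`Int.ModEq`, `Nat.ModEq.pow_totient` or `ZMod` units: the group of units
of `ZMod (2 ^ a)` has order `2 ^ (a - 1)`).  Let `j` be minimal with `2 ^ a ∣ k ^ (2 ^ j) - 1`; `j ≥ 2`.  `k' = k ^ (2 ^ (j - 1))` is the
square of an odd number, `8 ∣ k' - 1`, `2 ^ a ∣ k' ^ 2 - 1`, not `2 ^ a ∣ k' - 1`.  In `sq_one` the last two cases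
contradict `8 ∣ k' - 1` (`a ≥ 3`: `4 ∣ k' + 1` resp. `k' - (-1 + 2 ^ (a-1))` mod 4), so the second holds. -/
theorem exists_pow {a : ℕ} (ha : 3 ≤ a) {k : ℤ} (hodd : Odd k) (hk : ¬ (2 : ℤ) ^ a ∣ k ^ 2 - 1) :
    ∃ i : ℕ, (2 : ℤ) ^ a ∣ k ^ i - (1 + 2 ^ (a - 1)) := by
  classical
  have hex : ∃ j : ℕ, (2 : ℤ) ^ a ∣ k ^ (2 ^ j) - 1 :=
    ⟨a, dvd_trans (pow_dvd_pow 2 (by omega)) (Num_pow hodd a)⟩
  have hspec := Nat.find_spec hex
  have hmin := fun m => @Nat.find_min _ _ hex m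
  set j := Nat.find hex with hj
  have hj2 : 2 ≤ j := by
    by_contra hlt
    have : j = 0 ∨ j = 1 := by omega
    rcases this with h0 | h0
    · rw [h0] at hspec
      apply hk
      have : k ^ 2 - 1 = (k ^ (2 ^ 0) - 1) * (k + 1) := by ring
      rw [this]
      exact Dvd.dvd.mul_right hspec _
    · rw [h0] at hspec
      exact hk (by simpa using hspec)
  obtain ⟨i, hi⟩ : ∃ i, j = i + 2 := ⟨j - 2, by omega⟩
  have hprev : ¬ (2 : ℤ) ^ a ∣ k ^ (2 ^ (i + 1)) - 1 := hmin (i + 1) (by omega)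
  have h4 : (4 : ℤ) ∣ k ^ (2 ^ (i + 1)) - 1 := by
    rw [pow_succ 2 i, pow_mul]
    exact Num_four hodd.pow
  have hsq : (2 : ℤ) ^ a ∣ (k ^ (2 ^ (i + 1))) ^ 2 - 1 := by
    rw [hi] at hspec
    rw [← pow_mul, ← pow_succ]
    exact hspec
  have h4a : (4 : ℤ) ∣ 2 ^ a := by
    have : (4 : ℤ) = 2 ^ 2 := by norm_num
    rw [this]; exact pow_dvd_pow 2 (by omega)
  have h4b : (4 : ℤ) ∣ 2 ^ (a - 1) := by
    have : (4 : ℤ) = 2 ^ 2 := by norm_num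
    rw [this]; exact pow_dvd_pow 2 (by omega)
  refine ⟨2 ^ (i + 1), ?_⟩
  rcases sq_one ha hsq with h | h | h | h
  · exact absurd h hprev
  · exact h
  · exfalso
    have h5 := dvd_trans h4a h
    omega
  · exfalso
    have h5 := dvd_trans h4a h
    omega

/-- PROOF. `1 + 2 ^ (a - 2)` is odd, hence a unit modulo `2 ^ (a - 1)`. -/
theorem exists_sol {a : ℕ} (ha : 3 ≤ a) (j : ℤ) :
    ∃ i : ℤ, (2 : ℤ) ^ a ∣ 2 * j + i * (2 + 2 ^ (a - 1)) := by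
  obtain ⟨b, rfl⟩ : ∃ b, a = b + 3 := ⟨a - 3, by omega⟩
  have e1 : b + 3 - 1 = b + 2 := by omega
  rw [e1]
  exact ⟨-j * (1 - 2 ^ (b + 1)), j * 2 ^ b, by ring⟩

end Pool.MP43e44c.NT
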