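import Pool.Agent.H.MP_43e44c_ag.NT.GrpA
import Pool.Agent.H.MP_43e44c_ag.NT.Num

/-!
Nondegenerate CM types: the structure of 2-groups without normal four-groups.
-/

set_option autoImplicit false

namespace Pool.MP43e44c.NT

lemma GrpB_conj {G : Type*} [Group G] {r g : G} {k : ℤ} (h : g * r * g⁻¹ = r ^ k) (i : ℤ) :
    g * r ^ i * g⁻¹ = r ^ (k * i) := by
  rw [← conj_zpow, h, zpow_mul]

lemma GrpB_conj_mul {G : Type*} [Group G] {r g g' : G} {k k' : ℤ} (h : g * r * g⁻¹ = r ^ k)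
    (h' : g' * r * g'⁻¹ = r ^ k') : (g * g') * r * (g * g')⁻¹ = r ^ (k * k') := by
  have : (g * g') * r * (g * g')⁻¹ = g * (g' * r * g'⁻¹) * g⁻¹ := by group
  rw [this, h', GrpB_conj h]

lemma GrpB_conj_pow {G : Type*} [Group G] {r g : G} {k : ℤ} (h : g * r * g⁻¹ = r ^ k) (i : ℕ) :
    g ^ i * r * (g ^ i)⁻¹ = r ^ (k ^ i) := by
  induction i with
  | zero => simp
  | succ n ih => rw [pow_succ, pow_succ]; exact GrpB_conj_mul ih h

lemma GrpB_eq_iff {G : Type*} [Group G] {r : G} {a : ℕ} (hr : orderOf r = 2 ^ a) (i j : ℤ) :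
    r ^ i = r ^ j ↔ (2 : ℤ) ^ a ∣ i - j := by
  have h := orderOf_dvd_sub_iff_zpow_eq_zpow (x := r) (a := i) (b := j)
  rw [hr] at h
  rw [← h]
  push_cast
  rfl

lemma GrpB_comm_iff {G : Type*} [Group G] {r g : G} {a : ℕ} (hr : orderOf r = 2 ^ a) {k : ℤ}
    (h : g * r * g⁻¹ = r ^ k) (hk : (2 : ℤ) ^ a ∣ k - 1) : g * r = r * g := by
  have h1 : r ^ k = r ^ (1 : ℤ) := (GrpB_eq_iff hr k 1).2 hk
  rw [h1, zpow_one, mul_inv_eq_iff_eq_mul] at h
  exact h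

/-- two to the power `a` splits off a factor two -/
lemma GrpB_two_pow {a : ℕ} (ha : 1 ≤ a) : (2 : ℤ) ^ a = 2 * 2 ^ (a - 1) := by
  obtain ⟨b, rfl⟩ : ∃ b, a = b + 1 := ⟨a - 1, by omega⟩
  rw [pow_succ]; simp; ring

lemma GrpB_half {a : ℕ} (ha : 1 ≤ a) {m j : ℤ} (hm : Odd m)
    (h : (2 : ℤ) ^ a ∣ j * (2 * m)) : (2 : ℤ) ^ (a - 1) ∣ j := by
  rw [GrpB_two_pow ha] at h
  have h1 : (2 : ℤ) ^ (a - 1) ∣ j * m := by
    have h2 : (2 : ℤ) * 2 ^ (a - 1) ∣ 2 * (j * m) := by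
      rw [show 2 * (j * m) = j * (2 * m) by ring]; exact h
    exact (mul_dvd_mul_iff_left (by norm_num : (2 : ℤ) ≠ 0)).1 h2
  have hc : IsCoprime ((2 : ℤ) ^ (a - 1)) m := by
    apply IsCoprime.pow_left
    obtain ⟨n, hn⟩ := hm
    subst hn
    exact ⟨-n, 1, by ring⟩
  exact hc.dvd_of_dvd_mul_right h1

lemma GrpB_c {G : Type*} [Group G] {c r : G} {a : ℕ} (ha : 1 ≤ a) (hr : orderOf r = 2 ^ a)
    (hrc : r ^ 2 ^ (a - 1) = c) {j : ℤ} (hj : (2 : ℤ) ^ (a - 1) ∣ j) : r ^ j = 1 ∨ r ^ j = c := by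
  obtain ⟨m, rfl⟩ := hj
  have hc : r ^ ((2 : ℤ) ^ (a - 1)) = c := by
    rw [← hrc, ← zpow_natCast]; push_cast; rfl
  rcases Int.even_or_odd' m with ⟨n, hn | hn⟩
  · left
    have h : r ^ ((2 : ℤ) ^ (a - 1) * m) = r ^ (0 : ℤ) := by
      rw [GrpB_eq_iff hr, GrpB_two_pow ha]
      exact ⟨n, by rw [hn]; ring⟩
    simpa using h
  · right
    rw [← hc]
    rw [GrpB_eq_iff hr, GrpB_two_pow ha]
    exact ⟨n, by rw [hn]; ring⟩

/-- The automorphism `r ↦ r ^ (1 + 2 ^ (a - 1))` does not occur.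
PROOF. Suppose `γ r γ⁻¹ = r ^ u`, `u = 1 + 2 ^ (a - 1)`.  `γ²` commutes with `r` (`u² ≡ 1`), so `γ² = r ^ j`, and `γ` commutes with
`γ²`: `r ^ (u j) = r ^ j`, `2 ^ a ∣ 2 ^ (a - 1) j`, `j = 2 j'`.  `(r ^ i γ)² = r ^ i (γ r ^ i γ⁻¹) γ² =
r ^ (i (2 + 2 ^ (a - 1)) + 2 j')`; take `i` from `exists_sol`: `t = r ^ i γ`, `t² = 1`.  `t` does not commute with `r` (`a ≥ 3`, the
order of `r` is `2 ^ a`), so `t ≠ 1, c`.  For `g ∈ G`: conjugation by `g t g⁻¹` has the same effect on `r` as conjugation by `t`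
(the automorphisms of a cyclic group commute: if `g r g⁻¹ = r ^ k` ...), so `g t g⁻¹ = r ^ l t` for some `l`
(`hcent`), and `1 = (r ^ l t)² = r ^ (l (2 + 2 ^ (a - 1)))`, so `2 ^ (a - 1) ∣ l` (`1 + 2 ^ (a - 2)` is odd), `r ^ l ∈ {1, c}`:
contradiction to `hno`. -/
theorem no_u {G : Type*} [Group G] {c r : G} {a : ℕ} (ha : 3 ≤ a) (hr : orderOf r = 2 ^ a)
    (hrc : r ^ 2 ^ (a - 1) = c) (hcen : ∀ g : G, g * c = c * g)
    (hnor : ∀ g : G, g * r * g⁻¹ ∈ Subgroup.zpowers r)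
    (hcent : ∀ g : G, g * r = r * g → g ∈ Subgroup.zpowers r)
    (hno : ¬ ∃ t : G, t * t = 1 ∧ t ≠ 1 ∧ t ≠ c ∧ ∀ g : G, g * t = t * g ∨ g * t = c * t * g)
    (γ : G) : γ * r * γ⁻¹ ≠ r ^ (1 + (2 : ℤ) ^ (a - 1)) := by
  intro hγ
  have ha1 : 1 ≤ a := by omega
  have hp : (2 : ℤ) ^ a = 2 * 2 ^ (a - 1) := GrpB_two_pow ha1
  have hp2 : (2 : ℤ) ^ (a - 1) = 2 * 2 ^ (a - 2) := by
    have := GrpB_two_pow (a := a - 1) (by omega)
    rw [this, show a - 1 - 1 = a - 2 by omega]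
  have hp3 : (2 : ℤ) ^ (a - 2) = 2 * 2 ^ (a - 3) := by
    have := GrpB_two_pow (a := a - 2) (by omega)
    rw [this, show a - 2 - 1 = a - 3 by omega]
  set P : ℤ := 2 ^ (a - 3) with hP
  have hPpos : 0 < P := by rw [hP]; positivity
  have hu2 : (2 : ℤ) ^ a ∣ (1 + 2 ^ (a - 1)) * (1 + 2 ^ (a - 1)) - 1 := by
    rw [hp, hp2, hp3]
    exact ⟨1 + 2 * P, by ring⟩
  -- `γ²` is a power of `r`
  have h1 : (γ * γ) * r = r * (γ * γ) := GrpB_comm_iff hr (GrpB_conj_mul hγ hγ) hu2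
  obtain ⟨j, hj⟩ := hcent _ h1
  have hj : r ^ j = γ * γ := hj
  have h2 : r ^ ((1 + (2 : ℤ) ^ (a - 1)) * j) = r ^ j := by
    rw [← GrpB_conj hγ, hj]; group
  obtain ⟨j', hj'⟩ : (2 : ℤ) ∣ j := by
    rw [GrpB_eq_iff hr] at h2
    rw [show (1 + (2 : ℤ) ^ (a - 1)) * j - j = 2 ^ (a - 1) * j by ring, hp,
      mul_comm (2 : ℤ) (2 ^ (a - 1))] at h2
    exact (mul_dvd_mul_iff_left (by positivity : (2 : ℤ) ^ (a - 1) ≠ 0)).1 h2
  obtain ⟨i, hi⟩ := exists_sol ha j'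
  -- the involution
  have htr : (r ^ i * γ) * r * (r ^ i * γ)⁻¹ = r ^ (1 + (2 : ℤ) ^ (a - 1)) := by
    have : (r ^ i * γ) * r * (r ^ i * γ)⁻¹ = r ^ i * (γ * r * γ⁻¹) * (r ^ i)⁻¹ := by group
    rw [this, hγ]; group
  have htt : (r ^ i * γ) * (r ^ i * γ) = 1 := by
    have e : (r ^ i * γ) * (r ^ i * γ) = r ^ i * (γ * r ^ i * γ⁻¹) * (γ * γ) := by group
    rw [e, GrpB_conj hγ, ← hj, ← zpow_add, ← zpow_add]
    have : r ^ (i + (1 + 2 ^ (a - 1)) * i + j) = r ^ (0 : ℤ) := by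
      rw [GrpB_eq_iff hr]
      obtain ⟨w, hw⟩ := hi
      exact ⟨w, by rw [← hw, hj']; ring⟩
    simpa using this
  generalize r ^ i * γ = t at htr htt
  have hne : ¬ (t * r = r * t) := by
    intro h
    have h3 : r ^ (1 : ℤ) = r ^ (1 + (2 : ℤ) ^ (a - 1)) := by
      rw [← htr, h]; group
    rw [GrpB_eq_iff hr, show (1 : ℤ) - (1 + 2 ^ (a - 1)) = - 2 ^ (a - 1) by ring, dvd_neg, hp] at h3
    have h4 := Int.le_of_dvd (by positivity) h3
    have h5 : (0 : ℤ) < 2 ^ (a - 1) := by positivity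
    omega
  apply hno
  refine ⟨t, htt, ?_, ?_, ?_⟩
  · rintro rfl
    exact hne (by simp)
  · rintro rfl
    exact hne (hcen r).symm
  · intro g
    have htinv : t⁻¹ = t := inv_eq_of_mul_eq_one_left htt
    -- conjugates of `t` act in the same way on `r`
    have h3 : (g * t * g⁻¹) * r * (g * t * g⁻¹)⁻¹ = r ^ (1 + (2 : ℤ) ^ (a - 1)) := by
      obtain ⟨m, hm⟩ := hnor g⁻¹
      have hm : r ^ m = g⁻¹ * r * g⁻¹⁻¹ := hm
      have e : (g * t * g⁻¹) * r * (g * t * g⁻¹)⁻¹ = g * (t * (g⁻¹ * r * g⁻¹⁻¹) * t⁻¹) * g⁻¹ := by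
        group
      rw [e, ← hm, GrpB_conj htr, mul_comm (1 + (2 : ℤ) ^ (a - 1)) m, zpow_mul, hm, conj_zpow]
      group
    have h4 : (g * t * g⁻¹ * t) * r = r * (g * t * g⁻¹ * t) :=
      GrpB_comm_iff hr (GrpB_conj_mul h3 htr) hu2
    obtain ⟨l, hl⟩ := hcent _ h4
    have hl : r ^ l = g * t * g⁻¹ * t := hl
    have hgt : g * t * g⁻¹ = r ^ l * t := by
      rw [hl, mul_assoc (g * t * g⁻¹), htt, mul_one]
    have h5 : (r ^ l * t) * (r ^ l * t) = 1 := by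
      rw [← hgt]
      have e : g * t * g⁻¹ * (g * t * g⁻¹) = g * (t * t) * g⁻¹ := by group
      rw [e, htt]; group
    have h6 : r ^ (l + (1 + (2 : ℤ) ^ (a - 1)) * l) = r ^ (0 : ℤ) := by
      have e : (r ^ l * t) * (r ^ l * t) = r ^ l * (t * r ^ l * t⁻¹) * (t * t) := by group
      rw [e, htt, mul_one, GrpB_conj htr, ← zpow_add] at h5
      rw [h5, zpow_zero]
    rw [GrpB_eq_iff hr] at h6
    have h7 : (2 : ℤ) ^ (a - 1) ∣ l := by
      refine GrpB_half ha1 (m := 1 + 2 ^ (a - 2)) ?_ ?_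
      · rw [hp3]; exact ⟨P, by ring⟩
      · rw [hp2] at h6
        rw [show l * (2 * (1 + 2 ^ (a - 2))) = l + (1 + 2 * 2 ^ (a - 2)) * l - 0 by ring]
        exact h6
    rcases GrpB_c ha1 hr hrc h7 with h8 | h8
    · left
      rw [h8, one_mul, mul_inv_eq_iff_eq_mul] at hgt
      exact hgt
    · right
      rw [h8, mul_inv_eq_iff_eq_mul] at hgt
      exact hgt

/-- PROOF. Let `r` be from `exists_cyc`, `orderOf r = 2 ^ a`, `a ≥ 1`, and `c = r ^ 2 ^ (a - 1)` (the unique element of order 2 of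
`zpowers r`).  If all `g ∈ zpowers r`: first case.  Otherwise take `γ ∉ zpowers r`, `γ r γ⁻¹ = r ^ k`, `k` odd.
`a = 1`: `r = c` is central, so `γ ∈ zpowers r`, contradiction.
`a = 2`: `k ≡ 1` or `k ≡ -1` mod 4, not `1` (`hcent`).
`a ≥ 3`: by `exists_pow` and `no_u` (`γ ^ i` acts by `k ^ i`), `2 ^ a ∣ k² - 1`; `sq_one`: `k ≡ 1` is excluded by `hcent`, `k ≡ 1 + 2 ^ (a - 1)` by
`no_u`; so `k ≡ -1` or `k ≡ -1 + 2 ^ (a - 1)`.
Any other `g ∉ zpowers r` has the same `k` mod `2 ^ a` (otherwise `g γ` would act by `1 - 2 ^ (a-1) ≡ 1 + 2 ^ (a-1)`), so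
`g γ⁻¹` commutes with `r` and `g γ⁻¹ ∈ zpowers r`.
`γ²` commutes with `r`, `γ² = r ^ j`, and with `γ`, so `2 ^ a ∣ j (k - 1)`, `k - 1` is twice an odd number (`a ≥ 2`; for
`k = -1 + 2 ^ (a-1)` as `a ≥ 3`), so `γ² ∈ {1, c}`.  If `γ² = c`: second case.  If `γ² = 1` and `k ≡ -1 + 2 ^ (a-1)`:
`(r γ)² = r (γ r γ⁻¹) γ² = r ^ (1 + k) = c`: second case with `r γ`.  If `γ² = 1` and `k ≡ -1`: if `a = 2` then `t = γ` contradicts `hno`
(`g = r ^ i` : `r γ r⁻¹ = r² γ = c γ`; `g = r ^ i γ`), so `a ≥ 3`: third case. -/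
theorem exists_str {G : Type*} [Group G] [Finite G] (hG : IsPGroup 2 G) {c : G}
    (hcen : ∀ g : G, g * c = c * g) (c2 : c * c = 1) (c1 : c ≠ 1)
    (hno : ¬ ∃ t : G, t * t = 1 ∧ t ≠ 1 ∧ t ≠ c ∧ ∀ g : G, g * t = t * g ∨ g * t = c * t * g) :
    ∃ (r : G) (h : ℕ), 0 < h ∧ orderOf r = 2 * h ∧ r ^ h = c ∧ ((∀ g : G, g ∈ Subgroup.zpowers r) ∨
      ∃ γ : G, γ ∉ Subgroup.zpowers r ∧
        (∀ g : G, g ∈ Subgroup.zpowers r ∨ ∃ i : ℤ, g = r ^ i * γ) ∧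
        (γ * γ = c ∨ (γ * γ = 1 ∧ γ * r * γ⁻¹ = r⁻¹ ∧ 4 ∣ h))) := by
  obtain ⟨r, hcr, hnor, hcent⟩ := exists_cyc hG hcen c2 c1 hno
  obtain ⟨a, hr⟩ := (IsPGroup.iff_orderOf.1 hG) r
  obtain ⟨j0, hj0⟩ := hcr
  have hj0 : r ^ j0 = c := hj0
  have ha1 : 1 ≤ a := by
    rcases Nat.eq_zero_or_pos a with h | h
    · exfalso
      rw [h, pow_zero, orderOf_eq_one_iff] at hr
      exact c1 (by rw [← hj0, hr, one_zpow])
    · exact h
  have hp : (2 : ℤ) ^ a = 2 * 2 ^ (a - 1) := GrpB_two_pow ha1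
  -- `c` is the element of order two of `zpowers r`
  have hrc : r ^ 2 ^ (a - 1) = c := by
    have h1 : (2 : ℤ) ^ (a - 1) ∣ j0 := by
      refine GrpB_half ha1 (m := 1) odd_one ?_
      have h2 : r ^ (j0 + j0) = r ^ (0 : ℤ) := by rw [zpow_add, hj0, c2, zpow_zero]
      rw [GrpB_eq_iff hr] at h2
      rwa [show j0 * (2 * 1) = j0 + j0 - 0 by ring]
    rcases GrpB_c ha1 hr rfl h1 with h2 | h2
    · exact absurd (hj0.symm.trans h2) c1
    · rw [← hj0, h2]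
  have hrcz : r ^ ((2 : ℤ) ^ (a - 1)) = c := by
    rw [← hrc, ← zpow_natCast]; push_cast; rfl
  have hnu : 3 ≤ a → ∀ γ : G, γ * r * γ⁻¹ ≠ r ^ (1 + (2 : ℤ) ^ (a - 1)) := fun ha3 γ =>
    no_u ha3 hr hrc hcen hnor hcent hno γ
  -- the exponent is odd
  have hodd : ∀ (g : G) (k : ℤ), g * r * g⁻¹ = r ^ k → Odd k := by
    intro g k hk
    rcases Int.even_or_odd' k with ⟨n, hn | hn⟩
    · exfalso
      have h1 : g * r ^ ((2 : ℤ) ^ (a - 1)) * g⁻¹ = r ^ (0 : ℤ) := by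
        rw [GrpB_conj hk, GrpB_eq_iff hr, hp]
        exact ⟨n, by rw [hn]; ring⟩
      rw [hrcz, zpow_zero, mul_inv_eq_iff_eq_mul, one_mul] at h1
      exact c1 (mul_left_cancel (a := g) (by rw [h1, mul_one]))
    · exact ⟨n, hn⟩
  -- the possible exponents
  have key : ∀ (g : G) (k : ℤ), g ∉ Subgroup.zpowers r → g * r * g⁻¹ = r ^ k →
      2 ≤ a ∧ ((2 : ℤ) ^ a ∣ k + 1 ∨ (3 ≤ a ∧ (2 : ℤ) ^ a ∣ k - (-1 + 2 ^ (a - 1)))) := by
    intro g k hg hk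
    have hnc : ¬ (2 : ℤ) ^ a ∣ k - 1 := fun h => hg (hcent g (GrpB_comm_iff hr hk h))
    obtain ⟨n, hn⟩ := hodd g k hk
    have ha2 : 2 ≤ a := by
      by_contra hlt
      have : a = 1 := by omega
      apply hnc
      rw [this]
      exact ⟨n, by rw [hn]; ring⟩
    refine ⟨ha2, ?_⟩
    rcases Nat.lt_or_ge a 3 with h3 | h3
    · left
      have : a = 2 := by omega
      rw [this] at hnc ⊢
      norm_num at hnc ⊢
      omega
    · by_cases hsq : (2 : ℤ) ^ a ∣ k ^ 2 - 1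
      · rcases sq_one h3 hsq with h | h | h | h
        · exact absurd h hnc
        · exfalso
          refine hnu h3 g ?_
          rw [hk]
          exact (GrpB_eq_iff hr _ _).2 h
        · exact Or.inl h
        · exact Or.inr ⟨h3, h⟩
      · exfalso
        obtain ⟨i, hi⟩ := exists_pow h3 ⟨n, hn⟩ hsq
        refine hnu h3 (g ^ i) ?_
        rw [GrpB_conj_pow hk]
        exact (GrpB_eq_iff hr _ _).2 hi
  refine ⟨r, 2 ^ (a - 1), by positivity, ?_, hrc, ?_⟩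
  · rw [hr]
    obtain ⟨b, rfl⟩ : ∃ b, a = b + 1 := ⟨a - 1, by omega⟩
    rw [pow_succ]; simp; ring
  by_cases hall : ∀ g : G, g ∈ Subgroup.zpowers r
  · exact Or.inl hall
  right
  push Not at hall
  obtain ⟨γ, hγ⟩ := hall
  obtain ⟨k, hk⟩ := hnor γ
  have hk : γ * r * γ⁻¹ = r ^ k := hk.symm
  obtain ⟨ha2, hkk⟩ := key γ k hγ hk
  have hp2 : (2 : ℤ) ^ (a - 1) = 2 * 2 ^ (a - 2) := by
    have := GrpB_two_pow (a := a - 1) (by omega)
    rw [this, show a - 1 - 1 = a - 2 by omega]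
  -- the product of two elements outside is inside
  have hprod : ∀ g : G, g ∉ Subgroup.zpowers r → g * γ ∈ Subgroup.zpowers r := by
    intro g hg
    obtain ⟨k', hk'⟩ := hnor g
    have hk' : g * r * g⁻¹ = r ^ k' := hk'.symm
    obtain ⟨-, hkk'⟩ := key g k' hg hk'
    have hm := GrpB_conj_mul hk' hk
    have hcomm : (2 : ℤ) ^ a ∣ k' * k - 1 → g * γ ∈ Subgroup.zpowers r := fun h =>
      hcent _ (GrpB_comm_iff hr hm h)
    rcases hkk with ⟨w, hw⟩ | ⟨h3, w, hw⟩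
    · rcases hkk' with ⟨w', hw'⟩ | ⟨h3', w', hw'⟩
      · apply hcomm
        have e1 : k = -1 + 2 ^ a * w := by linarith
        have e2 : k' = -1 + 2 ^ a * w' := by linarith
        rw [e1, e2]
        exact ⟨-w - w' + 2 ^ a * w * w', by ring⟩
      · exfalso
        refine hnu h3' (g * γ) ?_
        rw [hm, GrpB_eq_iff hr]
        have e1 : k = -1 + 2 ^ a * w := by linarith
        have e2 : k' = -1 + 2 ^ (a - 1) + 2 ^ a * w' := by linarith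
        rw [e1, e2]
        refine ⟨-w - w' + 2 ^ a * w * w' + 2 ^ (a - 1) * w - 1, ?_⟩
        rw [hp]; ring
    · rcases hkk' with ⟨w', hw'⟩ | ⟨h3', w', hw'⟩
      · exfalso
        refine hnu h3 (g * γ) ?_
        rw [hm, GrpB_eq_iff hr]
        have e1 : k = -1 + 2 ^ (a - 1) + 2 ^ a * w := by linarith
        have e2 : k' = -1 + 2 ^ a * w' := by linarith
        rw [e1, e2]
        refine ⟨-w - w' + 2 ^ a * w * w' + 2 ^ (a - 1) * w' - 1, ?_⟩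
        rw [hp]; ring
      · apply hcomm
        have e1 : k = -1 + 2 ^ (a - 1) + 2 ^ a * w := by linarith
        have e2 : k' = -1 + 2 ^ (a - 1) + 2 ^ a * w' := by linarith
        rw [e1, e2]
        refine ⟨-w - w' + 2 ^ a * w * w' + 2 ^ (a - 1) * w + 2 ^ (a - 1) * w'
          + 2 ^ (a - 2) - 1, ?_⟩
        rw [hp, hp2]; ring
  obtain ⟨j, hj⟩ := hprod γ hγ
  have hj : r ^ j = γ * γ := hj
  have hcov : ∀ g : G, g ∈ Subgroup.zpowers r ∨ ∃ i : ℤ, g = r ^ i * γ := by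
    intro g
    by_cases hg : g ∈ Subgroup.zpowers r
    · exact Or.inl hg
    · right
      obtain ⟨i, hi⟩ := hprod g hg
      have hi : r ^ i = g * γ := hi
      refine ⟨i - j, ?_⟩
      rw [zpow_sub, hi, hj]; group
  -- `γ²` is `1` or `c`
  have hj2 : (2 : ℤ) ^ (a - 1) ∣ j := by
    have h2 : r ^ (k * j) = r ^ j := by
      rw [← GrpB_conj hk, hj]; group
    rw [GrpB_eq_iff hr] at h2
    rcases hkk with ⟨w, hw⟩ | ⟨h3, w, hw⟩
    · refine GrpB_half ha1 (m := -1 + 2 ^ (a - 1) * w) ?_ ?_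
      · rw [hp2]; exact ⟨-1 + 2 ^ (a - 2) * w, by ring⟩
      · have e1 : k = -1 + 2 ^ a * w := by linarith
        rw [e1] at h2
        have : j * (2 * (-1 + 2 ^ (a - 1) * w)) = (-1 + 2 ^ a * w) * j - j := by rw [hp]; ring
        rwa [this]
    · have hp3 : (2 : ℤ) ^ (a - 2) = 2 * 2 ^ (a - 3) := by
        have := GrpB_two_pow (a := a - 2) (by omega)
        rw [this, show a - 2 - 1 = a - 3 by omega]
      refine GrpB_half ha1 (m := -1 + 2 ^ (a - 2) + 2 ^ (a - 1) * w) ?_ ?_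
      · rw [hp2, hp3]; exact ⟨-1 + 2 ^ (a - 3) + 2 * 2 ^ (a - 3) * w, by ring⟩
      · have e1 : k = -1 + 2 ^ (a - 1) + 2 ^ a * w := by linarith
        rw [e1] at h2
        have : j * (2 * (-1 + 2 ^ (a - 2) + 2 ^ (a - 1) * w)) =
            (-1 + 2 ^ (a - 1) + 2 ^ a * w) * j - j := by rw [hp, hp2]; ring
        rwa [this]
  rcases GrpB_c ha1 hr hrc hj2 with h1 | hc1
  swap
  · exact ⟨γ, hγ, hcov, Or.inl (by rw [← hj, hc1])⟩
  have hγγ : γ * γ = 1 := by rw [← hj, h1]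
  rcases hkk with hk1 | ⟨h3, w, hw⟩
  · have hinv : γ * r * γ⁻¹ = r⁻¹ := by
      rw [hk, ← zpow_neg_one, GrpB_eq_iff hr]
      rwa [sub_neg_eq_add]
    rcases Nat.lt_or_ge a 3 with h3 | h3
    · exfalso
      have ha : a = 2 := by omega
      apply hno
      have hconj : ∀ i : ℤ, γ * r ^ i = r ^ (-i) * γ := by
        intro i
        have h2 := GrpB_conj (r := r) (g := γ) (k := -1) (by rw [hinv, zpow_neg_one]) i
        rw [mul_inv_eq_iff_eq_mul] at h2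
        rw [h2]; congr 2; ring
      have h2i : ∀ i : ℤ, r ^ (2 * i) = 1 ∨ r ^ (2 * i) = c := by
        intro i
        apply GrpB_c ha1 hr hrc
        rw [ha]
        exact ⟨i, by norm_num⟩
      refine ⟨γ, hγγ, ?_, ?_, ?_⟩
      · rintro rfl
        exact hγ (Subgroup.one_mem _)
      · rintro rfl
        exact hγ ⟨j0, hj0⟩
      · intro g
        -- in both cases `g γ = r ^ (2 i) γ g`
        have hg : ∃ i : ℤ, g * γ = r ^ (2 * i) * γ * g := by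
          rcases hcov g with ⟨i, hi⟩ | ⟨i, hi⟩
          · have hi : r ^ i = g := hi
            refine ⟨i, ?_⟩
            rw [← hi, mul_assoc (r ^ (2 * i)), hconj, ← mul_assoc, ← zpow_add]
            congr 2; ring
          · refine ⟨i, ?_⟩
            rw [hi, mul_assoc, hγγ, mul_one, mul_assoc (r ^ (2 * i)), ← mul_assoc γ, hconj,
              mul_assoc (r ^ (-i)), hγγ, mul_one, ← zpow_add]
            congr 1; ring
        obtain ⟨i, hi⟩ := hg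
        rcases h2i i with h | h
        · left; rw [hi, h, one_mul]
        · right; rw [hi, h]
    · refine ⟨γ, hγ, hcov, Or.inr ⟨hγγ, hinv, ?_⟩⟩
      exact ⟨2 ^ (a - 3), by
        rw [show (4 : ℕ) = 2 ^ 2 by norm_num, ← pow_add]; congr 1; omega⟩
  · refine ⟨r * γ, ?_, ?_, Or.inl ?_⟩
    · intro h
      apply hγ
      have := Subgroup.mul_mem _ (Subgroup.inv_mem _ (Subgroup.mem_zpowers r)) h
      simpa using this
    · intro g
      rcases hcov g with h | ⟨i, hi⟩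
      · exact Or.inl h
      · right
        refine ⟨i - 1, ?_⟩
        rw [hi, zpow_sub, zpow_one]; group
    · have e : r * γ * (r * γ) = r * (γ * r * γ⁻¹) * (γ * γ) := by group
      rw [e, hγγ, mul_one, hk, ← hrcz]
      have e2 : r * r ^ k = r ^ (1 + k) := by rw [zpow_add, zpow_one]
      rw [e2, GrpB_eq_iff hr]
      exact ⟨w, by linarith⟩

end Pool.MP43e44c.NT
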