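import Pool.Agent.H.MP_43e44c_ag.NT.Dvd

/-!
Nondegenerate CM types: the key lemma for 2-groups.
-/

set_option autoImplicit false

open Finset

namespace Pool.MP43e44c.NT

section

variable {G : Type*} [Group G] {X : Type*} [MulAction G X]

theorem Key_cc {M : Subgroup G} {c t : G} (h : Four X M c t) (x : X) : c • c • x = x := by
  rw [smul_smul, h.c2, one_smul]

theorem Key_tt {M : Subgroup G} {c t : G} (h : Four X M c t) (x : X) : t • t • x = x := by
  rw [smul_smul, h.t2, one_smul]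

theorem Key_tc {M : Subgroup G} {c t : G} (h : Four X M c t) (x : X) :
    t • c • x = c • t • x := by
  rw [smul_smul, h.cenc t h.tM, ← smul_smul]

theorem Key_mc {M : Subgroup G} {c t m : G} (h : Four X M c t) (hm : m ∈ M) (x : X) :
    m • c • x = c • m • x := by
  rw [smul_smul, h.cenc m hm, ← smul_smul]

theorem Key_mt {M : Subgroup G} {c t m : G} (h : Four X M c t) (hm : m ∈ M) (x : X) :
    m • t • x = t • m • x := by
  rw [smul_smul, h.cent m hm, ← smul_smul]

theorem Key_inB_c {M : Subgroup G} {c t : G} (h : Four X M c t) {x₀ x : X} (hx : InB c t x₀ x) :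
    InB c t x₀ (c • x) := by
  rcases hx with rfl | rfl | rfl | rfl
  · exact Or.inr (Or.inr (Or.inl rfl))
  · exact Or.inr (Or.inr (Or.inr rfl))
  · exact Or.inl (Key_cc h _)
  · exact Or.inr (Or.inl (Key_cc h _))

theorem Key_inB_t {M : Subgroup G} {c t : G} (h : Four X M c t) {x₀ x : X} (hx : InB c t x₀ x) :
    InB c t x₀ (t • x) := by
  rcases hx with rfl | rfl | rfl | rfl
  · exact Or.inr (Or.inl rfl)
  · exact Or.inl (Key_tt h _)
  · exact Or.inr (Or.inr (Or.inr (Key_tc h _)))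
  · refine Or.inr (Or.inr (Or.inl ?_))
    rw [Key_tc h, Key_tt h]

theorem InB.iff_c {M : Subgroup G} {c t : G} (h : Four X M c t) (x₀ x : X) :
    InB c t x₀ (c • x) ↔ InB c t x₀ x := by
  refine ⟨fun hx => ?_, Key_inB_c h⟩
  have := Key_inB_c h hx
  rwa [Key_cc h] at this

theorem InB.iff_t {M : Subgroup G} {c t : G} (h : Four X M c t) (x₀ x : X) :
    InB c t x₀ (t • x) ↔ InB c t x₀ x := by
  refine ⟨fun hx => ?_, Key_inB_t h⟩
  have := Key_inB_t h hx
  rwa [Key_tt h] at this

/-- the subgroup generated by an involution -/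
theorem Key_zpowers {s k : G} (hs : s * s = 1) (hk : k ∈ Subgroup.zpowers s) : k = 1 ∨ k = s := by
  obtain ⟨n, rfl⟩ := Subgroup.mem_zpowers_iff.mp hk
  rcases Int.even_or_odd n with ⟨m, rfl⟩ | ⟨m, rfl⟩
  · left
    rw [← two_mul, zpow_mul, zpow_ofNat, pow_two, hs, one_zpow]
  · right
    rw [zpow_add, zpow_mul, zpow_ofNat, pow_two, hs, one_zpow, one_mul, zpow_one]

/-- PROOF. `exists_inv_sgn` for `K = zpowers t` gives `f₁` with `f₁ (t x) = f₁ x`, for `K = zpowers (c t)` it gives `f₂` with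
`f₂ (c t x) = f₂ x`, so `f₂ (t x) = - f₂ x` (the elements of `K` are `1, t` resp. `1, ct`; `Four` gives the
hypotheses).  `f x = f₁ x` if `InB c t x₀ x` and `f₂ x` otherwise. -/
theorem exists_four {M : Subgroup G} {c t : G} (h : Four X M c t) (x₀ : X) :
    ∃ f : X → ℤ, Sgn c f ∧ (∀ x, InB c t x₀ x → f (t • x) = f x) ∧
      ∀ x, ¬ InB c t x₀ x → f (t • x) = -f x := by
  classical
  have htc : t * c = c * t := h.cenc t h.tM
  have hct2 : (c * t) * (c * t) = 1 := by
    rw [mul_assoc, ← mul_assoc t c t, htc, mul_assoc c t t, h.t2, mul_one, h.c2]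
  obtain ⟨f₁, s₁, i₁⟩ := exists_inv_sgn (X := X) (Subgroup.zpowers t) (c := c)
    (by
      intro k hk
      rcases Key_zpowers h.t2 hk with rfl | rfl
      · rw [one_mul, mul_one]
      · exact htc) h.c2
    (by
      intro x k hk
      rcases Key_zpowers h.t2 hk with rfl | rfl
      · rw [one_smul]
        exact (h.freec x).symm
      · exact h.freect x)
  obtain ⟨f₂, s₂, i₂⟩ := exists_inv_sgn (X := X) (Subgroup.zpowers (c * t)) (c := c)
    (by
      intro k hk
      rcases Key_zpowers hct2 hk with rfl | rfl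
      · rw [one_mul, mul_one]
      · rw [mul_assoc, htc]) h.c2
    (by
      intro x k hk
      rcases Key_zpowers hct2 hk with rfl | rfl
      · rw [one_smul]
        exact (h.freec x).symm
      · rw [← smul_smul]
        intro h1
        exact h.freet x (smul_left_cancel c h1))
  refine ⟨fun x => if InB c t x₀ x then f₁ x else f₂ x, ⟨?_, ?_⟩, ?_, ?_⟩
  · intro x
    show (if InB c t x₀ x then f₁ x else f₂ x) = 1 ∨ (if InB c t x₀ x then f₁ x else f₂ x) = -1
    split_ifs
    · exact s₁.pm x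
    · exact s₂.pm x
  · intro x
    show (if InB c t x₀ (c • x) then f₁ (c • x) else f₂ (c • x)) =
      -(if InB c t x₀ x then f₁ x else f₂ x)
    by_cases hx : InB c t x₀ x
    · rw [if_pos hx, if_pos ((InB.iff_c h x₀ x).mpr hx)]
      exact s₁.odd x
    · rw [if_neg hx, if_neg (fun h' => hx ((InB.iff_c h x₀ x).mp h'))]
      exact s₂.odd x
  · intro x hx
    show (if InB c t x₀ (t • x) then f₁ (t • x) else f₂ (t • x)) =
      (if InB c t x₀ x then f₁ x else f₂ x)
    rw [if_pos hx, if_pos ((InB.iff_t h x₀ x).mpr hx)]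
    exact i₁ t (Subgroup.mem_zpowers t) x
  · intro x hx
    show (if InB c t x₀ (t • x) then f₁ (t • x) else f₂ (t • x)) =
      -(if InB c t x₀ x then f₁ x else f₂ x)
    rw [if_neg hx, if_neg (fun h' => hx ((InB.iff_t h x₀ x).mp h'))]
    have e1 := i₂ (c * t) (Subgroup.mem_zpowers _) x
    rw [← smul_smul, s₂.odd] at e1
    linarith

variable [Fintype X]

open Classical in
/-- sums over the four elements -/
theorem Key_sumB {M : Subgroup G} {c t : G} (h : Four X M c t) (x₀ : X) (g : X → ℤ) :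
    ∑ x with InB c t x₀ x, g x = g x₀ + g (t • x₀) + g (c • x₀) + g (c • t • x₀) := by
  have e : (Finset.univ.filter fun x => InB c t x₀ x) = {x₀, t • x₀, c • x₀, c • t • x₀} := by
    ext x
    simp [InB]
  have n1 : x₀ ≠ t • x₀ := (h.freet x₀).symm
  have n2 : x₀ ≠ c • x₀ := (h.freec x₀).symm
  have n3 : x₀ ≠ c • t • x₀ := by
    intro h1
    have h2 : c • x₀ = c • c • t • x₀ := congrArg (fun y => c • y) h1
    rw [Key_cc h] at h2
    exact h.freect x₀ h2.symm
  have n4 : t • x₀ ≠ c • x₀ := h.freect x₀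
  have n5 : t • x₀ ≠ c • t • x₀ := (h.freec _).symm
  have n6 : c • x₀ ≠ c • t • x₀ := fun h1 => n1 (smul_left_cancel c h1)
  rw [e, Finset.sum_insert (by simp [n1, n2, n3]), Finset.sum_insert (by simp [n4, n5]),
    Finset.sum_insert (by simp [n6]), Finset.sum_singleton]
  ring

open Classical in
/-- PROOF. The equations for `m` and `m t`: `∑ f x w (m x) = 0` and `∑ f x w (m t x) = ∑ f (t x) w (m x) = 0`.
Sum: `∑_{InB} 2 f x w (m x) = 0`, the four different elements give
`2 f x₀ (w (m x₀) + w (m t x₀) - w (m c x₀) - w (m c t x₀)) = 4 f x₀ (w (m x₀) + w (m t x₀))`; difference: the second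
claim. -/
theorem key_i {M : Subgroup G} {c t : G} (h : Four X M c t) {x₀ : X} {f w : X → ℤ} (hf : Sgn c f)
    (h1 : ∀ x, InB c t x₀ x → f (t • x) = f x) (h2 : ∀ x, ¬ InB c t x₀ x → f (t • x) = -f x)
    (hw : Orth c M f w) :
    (∀ x ∈ orb M x₀, w (t • x) = -w x) ∧
      ∀ m ∈ M, ∑ x with ¬ InB c t x₀ x, f x * w (m • x) = 0 := by
  have key : ∀ m ∈ M, (∑ x with InB c t x₀ x, f x * w (m • x) = 0) ∧
      ∑ x with ¬ InB c t x₀ x, f x * w (m • x) = 0 := by
    intro m hm
    have a1 := hw.orth m hm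
    have a2 := hw.orth (m * t) (M.mul_mem hm h.tM)
    have a3 : ∑ x, f (t • x) * w (m • x) = 0 := by
      have e := Equiv.sum_comp (MulAction.toPerm t) (fun x : X => f x * w ((m * t) • x))
      rw [a2] at e
      rw [← e]
      refine Finset.sum_congr rfl fun x _ => ?_
      show f (t • x) * w (m • x) = f (t • x) * w ((m * t) • t • x)
      rw [← smul_smul, Key_tt h]
    rw [← Finset.sum_filter_add_sum_filter_not Finset.univ (fun x => InB c t x₀ x)] at a1 a3
    have a4 : ∑ x with InB c t x₀ x, f (t • x) * w (m • x) =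
        ∑ x with InB c t x₀ x, f x * w (m • x) := by
      refine Finset.sum_congr rfl fun x hx => ?_
      rw [h1 x (Finset.mem_filter.mp hx).2]
    have a5 : ∑ x with ¬ InB c t x₀ x, f (t • x) * w (m • x) =
        -∑ x with ¬ InB c t x₀ x, f x * w (m • x) := by
      rw [← Finset.sum_neg_distrib]
      refine Finset.sum_congr rfl fun x hx => ?_
      rw [h2 x (Finset.mem_filter.mp hx).2]
      ring
    rw [a4, a5] at a3
    constructor <;> linarith
  refine ⟨?_, fun m hm => (key m hm).2⟩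
  rintro x ⟨m, hm, rfl⟩
  have b := (key m hm).1
  rw [Key_sumB h] at b
  have hx0 : InB c t x₀ x₀ := Or.inl rfl
  have e1 : f (t • x₀) = f x₀ := h1 _ hx0
  have e2 : f (c • x₀) = -f x₀ := hf.odd _
  have e3 : f (c • t • x₀) = -f x₀ := by rw [hf.odd, e1]
  have e4 : w (m • c • x₀) = -w (m • x₀) := by rw [Key_mc h hm, hw.odd]
  have e5 : w (m • c • t • x₀) = -w (m • t • x₀) := by rw [Key_mc h hm, hw.odd]
  rw [e1, e2, e3, e4, e5, Key_mt h hm] at b
  rcases hf.pm x₀ with h0 | h0
  · rw [h0] at b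
    linarith
  · rw [h0] at b
    linarith

omit [Fintype X] in
theorem Key_orb_smul {M : Subgroup G} {x₀ x : X} {m : G} (hm : m ∈ M) :
    m • x ∈ orb M x₀ ↔ x ∈ orb M x₀ := by
  constructor
  · rintro ⟨k, hk, e⟩
    refine ⟨m⁻¹ * k, M.mul_mem (M.inv_mem hm) hk, ?_⟩
    rw [← smul_smul, e, inv_smul_smul]
  · rintro ⟨k, hk, rfl⟩
    exact ⟨m * k, M.mul_mem hm hk, (smul_smul _ _ _).symm⟩

open Classical in
/-- PROOF. Let `X₁ = orb M x₀`, `b₀` = the four elements with `InB`, contained in `X₁`.  For `m ∈ M`, in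
`∑_{¬ InB} f x w (m x) = 0` (`key_i`) the sum over `x ∉ X₁` is zero (substitute `x ↦ t x`, `f (t x) = - f x`,
`w (m t x) = w (t m x) = w (m x)`, as `m x ∉ X₁`).  So `∑_{x ∈ X₁ - b₀} f x w (m x) = 0`.  The summand is invariant
under `c` and `t` (`w (t m x) = - w (m x)`).  Let `o x = w x mod 2 ∈ {0, 1}` (`w x % 2`).  `f x w (m x) - o (m x)` is even and
invariant, so `8 ∣ ∑_{x ∈ X₁ - b₀} o (m x)` (`dvd_eight`), that is `8 ∣ N - 4 o (m x₀)` with `N = ∑_{x ∈ X₁} o (m x) = ∑_{x ∈ X₁} o x`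
(`m X₁ = X₁`; `o` is constant on `m b₀`).  So all the `o (m x₀)` are congruent mod 2, hence equal to `o x₀`; `N = |X₁| o x₀`
is divisible by `8`, hence `8 ∣ 4 o x₀` and `o x₀ = 0`. -/
theorem key_ii {M : Subgroup G} {c t : G} (h : Four X M c t) {x₀ : X} {f w : X → ℤ} (hf : Sgn c f)
    (h1 : ∀ x, InB c t x₀ x → f (t • x) = f x) (h2 : ∀ x, ¬ InB c t x₀ x → f (t • x) = -f x)
    (hw : Orth c M f w) (h8 : 8 ∣ Nat.card (orb M x₀))
    (hoff : ∀ x, x ∉ orb M x₀ → w (t • x) = w x) : ∀ x ∈ orb M x₀, (2 : ℤ) ∣ w x := by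
  obtain ⟨k1, k2⟩ := key_i h hf h1 h2 hw
  have hx0 : x₀ ∈ orb M x₀ := ⟨1, M.one_mem, one_smul _ _⟩
  have hBsub : ∀ x, InB c t x₀ x → x ∈ orb M x₀ := by
    rintro x (rfl | rfl | rfl | rfl)
    · exact hx0
    · exact (Key_orb_smul h.tM).mpr hx0
    · exact (Key_orb_smul h.cM).mpr hx0
    · exact (Key_orb_smul h.cM).mpr ((Key_orb_smul h.tM).mpr hx0)
  obtain ⟨N, hN⟩ : ∃ N : ℤ, N = ∑ x with x ∈ orb M x₀, w x % 2 := ⟨_, rfl⟩
  -- the congruence for all `m`
  have main : ∀ m ∈ M, (8 : ℤ) ∣ N - 4 * (w (m • x₀) % 2) := by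
    intro m hm
    have b1 := k2 m hm
    -- split off the part outside of the orbit
    rw [← Finset.sum_filter_add_sum_filter_not _ (fun x => x ∈ orb M x₀), Finset.filter_filter,
      Finset.filter_filter] at b1
    have b2 : ∑ x with (¬ InB c t x₀ x ∧ ¬ x ∈ orb M x₀), f x * w (m • x) = 0 := by
      have e1 : ∑ x with (¬ InB c t x₀ x ∧ ¬ x ∈ orb M x₀), f x * w (m • x) =
          ∑ x with (¬ InB c t x₀ x ∧ ¬ x ∈ orb M x₀), f (t • x) * w (m • t • x) := by
        refine Finset.sum_bij' (fun x _ => t • x) (fun x _ => t • x) ?_ ?_ ?_ ?_ ?_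
        · intro x hx
          rw [Finset.mem_filter] at hx ⊢
          refine ⟨Finset.mem_univ _, fun h' => hx.2.1 ((InB.iff_t h x₀ x).mp h'),
            fun h' => hx.2.2 ((Key_orb_smul h.tM).mp h')⟩
        · intro x hx
          rw [Finset.mem_filter] at hx ⊢
          refine ⟨Finset.mem_univ _, fun h' => hx.2.1 ((InB.iff_t h x₀ x).mp h'),
            fun h' => hx.2.2 ((Key_orb_smul h.tM).mp h')⟩
        · intro x _
          exact Key_tt h x
        · intro x _
          exact Key_tt h x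
        · intro x _
          simp only [Key_tt h]
      have e2 : ∑ x with (¬ InB c t x₀ x ∧ ¬ x ∈ orb M x₀), f (t • x) * w (m • t • x) =
          -∑ x with (¬ InB c t x₀ x ∧ ¬ x ∈ orb M x₀), f x * w (m • x) := by
        rw [← Finset.sum_neg_distrib]
        refine Finset.sum_congr rfl fun x hx => ?_
        rw [Finset.mem_filter] at hx
        rw [h2 x hx.2.1, Key_mt h hm, hoff _ (fun h' => hx.2.2 ((Key_orb_smul hm).mp h'))]
        ring
      rw [e2] at e1
      linarith
    rw [b2, add_zero] at b1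
    -- divisibility by eight
    obtain ⟨Y, hY⟩ : ∃ Y : Finset X, Y = Finset.univ.filter
        (fun x => ¬ InB c t x₀ x ∧ x ∈ orb M x₀) := ⟨_, rfl⟩
    have hYm : ∀ x, x ∈ Y ↔ (¬ InB c t x₀ x ∧ x ∈ orb M x₀) := by
      intro x
      rw [hY, Finset.mem_filter]
      exact ⟨fun h' => h'.2, fun h' => ⟨Finset.mem_univ _, h'⟩⟩
    rw [← hY] at b1
    have b3 : (8 : ℤ) ∣ ∑ x ∈ Y, (f x * w (m • x) - w (m • x) % 2) := by
      refine dvd_eight Y (c := c) (t := t) (h.cenc t h.tM).symm h.c2 h.t2 h.freec h.freet h.freect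
        ?_ ?_ ?_ ?_ ?_
      · intro x hx
        rw [hYm] at hx ⊢
        exact ⟨fun h' => hx.1 ((InB.iff_c h x₀ x).mp h'), (Key_orb_smul h.cM).mpr hx.2⟩
      · intro x hx
        rw [hYm] at hx ⊢
        exact ⟨fun h' => hx.1 ((InB.iff_t h x₀ x).mp h'), (Key_orb_smul h.tM).mpr hx.2⟩
      · intro x hx
        have e1 : w (m • c • x) = -w (m • x) := by rw [Key_mc h hm, hw.odd]
        rw [hf.odd, e1]
        have e2 : (-w (m • x)) % 2 = w (m • x) % 2 := by omega
        rw [e2]
        ring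
      · intro x hx
        rw [hYm] at hx
        have e1 : w (m • t • x) = -w (m • x) := by
          rw [Key_mt h hm, k1 _ ((Key_orb_smul hm).mpr hx.2)]
        rw [h2 x hx.1, e1]
        have e2 : (-w (m • x)) % 2 = w (m • x) % 2 := by omega
        rw [e2]
        ring
      · intro x hx
        rcases hf.pm x with h0 | h0
        · rw [h0]
          omega
        · rw [h0]
          omega
    rw [Finset.sum_sub_distrib, b1, zero_sub, dvd_neg] at b3
    -- the whole orbit
    have b4 : ∑ x with x ∈ orb M x₀, w (m • x) % 2 = N := by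
      rw [hN]
      refine Finset.sum_bij' (fun x _ => m • x) (fun x _ => m⁻¹ • x) ?_ ?_ ?_ ?_ ?_
      · intro x hx
        rw [Finset.mem_filter] at hx ⊢
        exact ⟨Finset.mem_univ _, (Key_orb_smul hm).mpr hx.2⟩
      · intro x hx
        rw [Finset.mem_filter] at hx ⊢
        exact ⟨Finset.mem_univ _, (Key_orb_smul (M.inv_mem hm)).mpr hx.2⟩
      · intro x _
        exact inv_smul_smul m x
      · intro x _
        exact smul_inv_smul m x
      · intro x _
        rfl
    have b5 : ∑ x with x ∈ orb M x₀, w (m • x) % 2 =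
        ∑ x with InB c t x₀ x, w (m • x) % 2 + ∑ x ∈ Y, w (m • x) % 2 := by
      rw [← Finset.sum_filter_add_sum_filter_not (Finset.univ.filter fun x => x ∈ orb M x₀)
        (fun x => InB c t x₀ x), Finset.filter_filter, Finset.filter_filter]
      congr 1
      · refine Finset.sum_congr ?_ fun _ _ => rfl
        ext x
        rw [Finset.mem_filter, Finset.mem_filter]
        exact ⟨fun h' => ⟨h'.1, h'.2.2⟩, fun h' => ⟨h'.1, hBsub x h'.2, h'.2⟩⟩
      · refine Finset.sum_congr ?_ fun _ _ => rfl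
        ext x
        rw [Finset.mem_filter, hYm]
        exact ⟨fun h' => ⟨h'.2.2, h'.2.1⟩, fun h' => ⟨Finset.mem_univ _, h'.2, h'.1⟩⟩
    have b6 : ∑ x with InB c t x₀ x, w (m • x) % 2 = 4 * (w (m • x₀) % 2) := by
      rw [Key_sumB h x₀ (fun x => w (m • x) % 2)]
      have e1 : w (m • t • x₀) = -w (m • x₀) := by
        rw [Key_mt h hm, k1 _ ((Key_orb_smul hm).mpr hx0)]
      have e2 : w (m • c • x₀) = -w (m • x₀) := by rw [Key_mc h hm, hw.odd]
      have e3 : w (m • c • t • x₀) = w (m • x₀) := by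
        rw [Key_mc h hm, hw.odd, e1, neg_neg]
      show w (m • x₀) % 2 + w (m • t • x₀) % 2 + w (m • c • x₀) % 2 + w (m • c • t • x₀) % 2 = _
      rw [e1, e2, e3]
      omega
    have b7 : ∑ x ∈ Y, w (m • x) % 2 = N - 4 * (w (m • x₀) % 2) := by
      rw [← b4, b5, b6]
      ring
    rw [b7] at b3
    exact b3
  have m1 := main 1 M.one_mem
  rw [one_smul] at m1
  have same : ∀ x ∈ orb M x₀, w x % 2 = w x₀ % 2 := by
    rintro x ⟨m, hm, rfl⟩
    have m2 := main m hm
    omega
  have hcard : N = (Nat.card (orb M x₀) : ℤ) * (w x₀ % 2) := by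
    rw [hN, Finset.sum_congr rfl fun x hx => same x (Finset.mem_filter.mp hx).2,
      Finset.sum_const, nsmul_eq_mul]
    congr 2
    rw [Nat.card_eq_fintype_card, Fintype.card_subtype]
  obtain ⟨q, hq⟩ := h8
  rw [hq] at hcard
  push_cast at hcard
  have z0 : w x₀ % 2 = 0 := by
    rcases Int.emod_two_eq_zero_or_one (w x₀) with h0 | h0
    · exact h0
    · exfalso
      rw [h0] at m1 hcard
      omega
  intro x hx
  have := same x hx
  omega

end

end Pool.MP43e44c.NT
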