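import Pool.Agent.H.MP_43e44c_ag.NT.Bas

/-!
Nondegenerate CM types: two or four embeddings.
-/

set_option autoImplicit false

open Finset

namespace Pool.MP43e44c.NT

section

variable {G : Type*} [Group G] {X : Type*} [MulAction G X] [Fintype X]

omit [Fintype X] in
theorem Small_sgn {c : G} (hc : CC G X c) : ∃ s : X → ℤ, Sgn c s := by
  obtain ⟨s, hs, -⟩ := exists_inv_sgn (X := X) (⊥ : Subgroup G) (c := c)
    (fun k hk => by rw [Subgroup.mem_bot.1 hk, one_mul, mul_one]) hc.sq
    (fun x k hk => by rw [Subgroup.mem_bot.1 hk, one_smul]; exact (hc.free x).symm)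
  exact ⟨s, hs⟩

/-- PROOF. `X = {x₀, c x₀}`; any sign function `f`: `∑ f x w x = 2 f x₀ w x₀`. -/
theorem nd_card_two {c : G} (hc : CC G X c) (hX : Fintype.card X = 2) :
    ∃ f : X → ℤ, Sgn c f ∧ Nd c ⊤ f := by
  classical
  obtain ⟨f, hf⟩ := Small_sgn (X := X) hc
  refine ⟨f, hf, fun w hw => ?_⟩
  have hne : Nonempty X := by
    rw [← Fintype.card_pos_iff, hX]; norm_num
  obtain ⟨x₀⟩ := hne
  have hu : (univ : Finset X) = {x₀, c • x₀} := by
    symm
    apply Finset.eq_univ_of_card
    rw [card_pair (hc.free x₀).symm, hX]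
  have h0 := hw.orth 1 (Subgroup.mem_top _)
  rw [hu, sum_pair (hc.free x₀).symm, one_smul, one_smul, hw.odd, hf.odd] at h0
  have h1 : w x₀ = 0 := by
    rcases hf.pm x₀ with h | h <;> rw [h] at h0 <;> linarith
  funext x
  have hx : x ∈ (univ : Finset X) := mem_univ x
  rw [hu, mem_insert, mem_singleton] at hx
  rcases hx with rfl | rfl
  · exact h1
  · rw [hw.odd, h1]; rfl

/-- PROOF. `X = {x₁, c x₁, x₂, c x₂}`.  Let `f` be a sign function and `f' = flip c x₂ f`; every sign function is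
`± f` or `± f'`.  If `f (g x) = ± f' x` for some `g` (and all `x`) then `f` is nondegenerate: a solution `w` satisfies
`2 f x₁ w x₁ + 2 f x₂ w x₂ = 0` and (with `g⁻¹`) `2 f x₁ w x₁ - 2 f x₂ w x₂ = 0`.  Otherwise `f (g x) = ± f x` for all `g`, hence also
`f' (g x) = ± f' x` (if `f' (g x) = ± f x` then `f (g⁻¹ x) = ± f' x`).  So `f (g g x) = f x`, `f' (g g x) = f' x`; `f` and
`f'` together separate the elements of `X`, so `g g x = x` and `g g = 1`.  So `G` is abelian, its action is
free (pretransitive, faithful), `|G| = |X| = 4`. -/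
theorem nd_card_four [MulAction.IsPretransitive G X] [FaithfulSMul G X] {c : G} (hc : CC G X c)
    (hX : Fintype.card X = 4) :
    (∃ f : X → ℤ, Sgn c f ∧ Nd c ⊤ f) ∨ (Nat.card G = 4 ∧ ∀ g : G, g * g = 1) := by
  classical
  obtain ⟨f, hf⟩ := Small_sgn (X := X) hc
  have hne : Nonempty X := by
    rw [← Fintype.card_pos_iff, hX]; norm_num
  obtain ⟨x₁⟩ := hne
  have cc : ∀ x : X, c • c • x = x := fun x => by rw [smul_smul, hc.sq, one_smul]
  obtain ⟨x₂, hx₂⟩ : ∃ x₂ : X, x₂ ∉ ({x₁, c • x₁} : Finset X) := by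
    by_contra h
    push Not at h
    have h1 : (univ : Finset X) ⊆ {x₁, c • x₁} := fun x _ => h x
    have h2 := card_le_card h1
    rw [card_pair (hc.free x₁).symm, card_univ, hX] at h2
    norm_num at h2
  rw [mem_insert, mem_singleton, not_or] at hx₂
  obtain ⟨n1, n2⟩ := hx₂
  have n3 : c • x₁ ≠ x₁ := hc.free _
  have n4 : c • x₂ ≠ x₂ := hc.free _
  have n5 : x₁ ≠ c • x₂ := fun h => n2 (by rw [h, cc])
  have n6 : c • x₁ ≠ c • x₂ := fun h => n1 (by rw [← cc x₂, ← h, cc])
  have m1 : x₁ ∉ ({c • x₁, x₂, c • x₂} : Finset X) := by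
    simp only [mem_insert, mem_singleton, not_or]
    exact ⟨n3.symm, fun h => n1 h.symm, n5⟩
  have m2 : c • x₁ ∉ ({x₂, c • x₂} : Finset X) := by
    simp only [mem_insert, mem_singleton, not_or]
    exact ⟨fun h => n2 h.symm, n6⟩
  have m3 : x₂ ∉ ({c • x₂} : Finset X) := by
    simp only [mem_singleton]
    exact n4.symm
  have hu : (univ : Finset X) = {x₁, c • x₁, x₂, c • x₂} := by
    symm
    apply Finset.eq_univ_of_card
    rw [card_insert_of_notMem m1, card_insert_of_notMem m2, card_insert_of_notMem m3,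
      card_singleton, hX]
  have hall : ∀ x : X, x = x₁ ∨ x = c • x₁ ∨ x = x₂ ∨ x = c • x₂ := by
    intro x
    have hx : x ∈ (univ : Finset X) := mem_univ x
    rw [hu] at hx
    simpa only [mem_insert, mem_singleton] using hx
  have hsum : ∀ {u w : X → ℤ}, (∀ x, u (c • x) = -u x) → (∀ x, w (c • x) = -w x) →
      ∑ x, u x * w x = 2 * (u x₁ * w x₁) + 2 * (u x₂ * w x₂) := by
    intro u w h1 h2
    rw [hu, sum_insert m1, sum_insert m2, sum_insert m3, sum_singleton, h1, h1, h2, h2]
    ring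
  set f' : X → ℤ := flip c x₂ f with hf'
  have hfs : Sgn c f' := flip_sgn hc hf x₂
  have e1 : f' x₁ = f x₁ := by
    rw [hf', flip, if_neg]
    rw [not_or]
    exact ⟨fun h => n1 h.symm, n5⟩
  have e2 : f' x₂ = -f x₂ := by
    rw [hf', flip, if_pos (Or.inl rfl)]
  -- two sign functions which agree up to a sign at `x₁`, `x₂`
  have hext : ∀ {u v : X → ℤ}, (∀ x, u (c • x) = -u x) → (∀ x, v (c • x) = -v x) → ∀ ε : ℤ,
      u x₁ = ε * v x₁ → u x₂ = ε * v x₂ → ∀ x, u x = ε * v x := by
    intro u v h1 h2 ε h3 h4 x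
    rcases hall x with rfl | rfl | rfl | rfl
    · exact h3
    · rw [h1, h2, h3]; ring
    · exact h4
    · rw [h1, h2, h4]; ring
  have hodd : ∀ {u : X → ℤ}, Sgn c u → ∀ g : G, ∀ x, u (g • c • x) = -u (g • x) := by
    intro u h g x
    rw [smul_smul, hc.cen, ← smul_smul, h.odd]
  -- classification
  have hcl : ∀ {u : X → ℤ}, Sgn c u → ∀ g : G,
      (∃ ε : ℤ, (ε = 1 ∨ ε = -1) ∧ ∀ x, u (g • x) = ε * f x) ∨
      (∃ ε : ℤ, (ε = 1 ∨ ε = -1) ∧ ∀ x, u (g • x) = ε * f' x) := by
    intro u h g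
    have a1 := h.pm (g • x₁)
    have a2 := h.pm (g • x₂)
    have b1 := hf.pm x₁
    have b2 := hf.pm x₂
    have k1 := fun (ε : ℤ) => hext (u := fun x => u (g • x)) (v := f) (hodd h g) hf.odd ε
    have k2 := fun (ε : ℤ) => hext (u := fun x => u (g • x)) (v := f') (hodd h g) hfs.odd ε
    rw [e1, e2] at k2
    rcases a1 with a1 | a1 <;> rcases a2 with a2 | a2 <;> rcases b1 with b1 | b1 <;>
      rcases b2 with b2 | b2 <;> simp only [a1, a2, b1, b2] at k1 k2
    all_goals first
      | exact Or.inl ⟨1, Or.inl rfl, k1 1 (by omega) (by omega)⟩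
      | exact Or.inl ⟨-1, Or.inr rfl, k1 (-1) (by omega) (by omega)⟩
      | exact Or.inr ⟨1, Or.inl rfl, k2 1 (by omega) (by omega)⟩
      | exact Or.inr ⟨-1, Or.inr rfl, k2 (-1) (by omega) (by omega)⟩
  by_cases hA : ∃ g : G, ∃ ε : ℤ, (ε = 1 ∨ ε = -1) ∧ ∀ x, f (g • x) = ε * f' x
  · left
    obtain ⟨g, ε, hε, hg⟩ := hA
    refine ⟨f, hf, fun w hw => ?_⟩
    have h0 := hw.orth 1 (Subgroup.mem_top _)
    simp only [one_smul] at h0
    rw [hsum hf.odd hw.odd] at h0
    have h1 := hw.orth g⁻¹ (Subgroup.mem_top _)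
    have h2 : ∑ x, f x * w (g⁻¹ • x) = ∑ x, f (g • x) * w x := by
      refine (Fintype.sum_equiv (MulAction.toPerm g) _ _ fun x => ?_).symm
      rw [MulAction.toPerm_apply, inv_smul_smul]
    have h3 : ∑ x, f (g • x) * w x = ε * ∑ x, f' x * w x := by
      rw [mul_sum]
      exact sum_congr rfl fun x _ => by rw [hg x, mul_assoc]
    rw [h2, h3, hsum hfs.odd hw.odd, e1, e2] at h1
    have h4 : 2 * (f x₁ * w x₁) + 2 * (-f x₂ * w x₂) = 0 := by
      rcases hε with rfl | rfl <;> linarith
    have h5 : w x₁ = 0 := by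
      rcases hf.pm x₁ with h | h <;> rw [h] at h0 h4 <;> linarith
    have h6 : w x₂ = 0 := by
      rcases hf.pm x₂ with h | h <;> rw [h] at h0 h4 <;> linarith
    funext x
    rcases hall x with rfl | rfl | rfl | rfl
    · exact h5
    · rw [hw.odd, h5]; rfl
    · exact h6
    · rw [hw.odd, h6]; rfl
  · right
    have hff : ∀ g : G, ∃ ε : ℤ, (ε = 1 ∨ ε = -1) ∧ ∀ x, f (g • x) = ε * f x := by
      intro g
      rcases hcl hf g with h | ⟨ε, h1, h2⟩
      · exact h
      · exact absurd ⟨g, ε, h1, h2⟩ hA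
    have hff' : ∀ g : G, ∃ ε : ℤ, (ε = 1 ∨ ε = -1) ∧ ∀ x, f' (g • x) = ε * f' x := by
      intro g
      rcases hcl hfs g with ⟨ε, h1, h2⟩ | h
      · exfalso
        apply hA
        refine ⟨g⁻¹, ε, h1, fun x => ?_⟩
        have h3 := h2 (g⁻¹ • x)
        rw [smul_inv_smul] at h3
        rcases h1 with rfl | rfl <;> rw [h3] <;> ring
      · exact h
    have hsq : ∀ g : G, ∀ x : X, g • g • x = x := by
      intro g x
      obtain ⟨ε, h1, h2⟩ := hff g
      obtain ⟨δ, h3, h4⟩ := hff' g
      have k1 : f (g • g • x) = f x := by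
        rw [h2, h2]; rcases h1 with rfl | rfl <;> ring
      have k2 : f' (g • g • x) = f' x := by
        rw [h4, h4]; rcases h3 with rfl | rfl <;> ring
      -- `f` and `f'` separate the points
      have b1 := hf.pm x₁
      have b2 := hf.pm x₂
      have i1 := hf.odd x₁
      have i2 := hf.odd x₂
      have i3 := hfs.odd x₁
      have i4 := hfs.odd x₂
      rw [e1] at i3
      rw [e2, neg_neg] at i4
      generalize g • g • x = y at k1 k2
      rcases hall x with rfl | rfl | rfl | rfl <;> rcases hall y with rfl | rfl | rfl | rfl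
      all_goals first
        | rfl
        | (exfalso
           simp only [i1, i2, i3, i4, e1, e2] at k1 k2
           rcases b1 with b1 | b1 <;> rcases b2 with b2 | b2 <;> simp only [b1, b2] at k1 k2 <;>
             first
              | (norm_num at k1; done)
              | (norm_num at k2; done))
    have hone : ∀ g : G, g * g = 1 := by
      intro g
      apply FaithfulSMul.eq_of_smul_eq_smul (α := X)
      intro x
      rw [mul_smul, hsq, one_smul]
    refine ⟨?_, hone⟩
    have hcomm : ∀ g h : G, g * h = h * g := by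
      intro g h
      have h1 := hone (g * h)
      have h2 := hone g
      have h3 := hone h
      have h4 : g⁻¹ = g := inv_eq_of_mul_eq_one_right h2
      have h5 : h⁻¹ = h := inv_eq_of_mul_eq_one_right h3
      have h6 : (g * h)⁻¹ = g * h := inv_eq_of_mul_eq_one_right h1
      rw [mul_inv_rev, h4, h5] at h6
      exact h6.symm
    have hbij : Function.Bijective (fun g : G => g • x₁) := by
      constructor
      · intro g h hgh
        simp only at hgh
        apply FaithfulSMul.eq_of_smul_eq_smul (α := X)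
        intro x
        obtain ⟨k, rfl⟩ := MulAction.exists_smul_eq G x₁ x
        rw [smul_smul, smul_smul, hcomm g k, hcomm h k, ← smul_smul, ← smul_smul, hgh]
      · intro x
        exact MulAction.exists_smul_eq G x₁ x
    rw [Nat.card_congr (Equiv.ofBijective _ hbij), Nat.card_eq_fintype_card, hX]

end

end Pool.MP43e44c.NT
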