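import Pool.Agent.H.MP_43e44c_ag.NT.FourB

/-!
Nondegenerate CM types: 2-groups with a normal four-group.
-/

set_option autoImplicit false

open Finset

namespace Pool.MP43e44c.NT

section

variable {G : Type*} [Group G] {X : Type*} [MulAction G X] [Fintype X]

/-- PROOF. Let `M = centralizer {t}`; `c, t ∈ M`.  For `g ∉ M`, `g t = c t g`; the product of two elements outside `M` is in
`M`.  Fix `x₀`, `X₁ = orb M x₀`.
(a) All `x ∈ X₁` (i.e. `M` is transitive; this includes `M = ⊤`).  If `t x = x` for one `x` then for all `x` (`t m = m t`), and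
`t = 1` by faithfulness; if `t x = c x` for one `x` then for all, and `t = c`.  So `Four X M c t`, `nd_trans` (`8 ∣ |X|`).
(b) Otherwise `M ≠ ⊤`, take `g₀ ∉ M`.  Every `x ∉ X₁` is `g x₀` with `g ∉ M`, `g = g₀ (g₀⁻¹ g)`, `g₀⁻¹ g ∈ M`, so
`x ∈ g₀ X₁`; and `g₀ X₁ ∩ X₁ = ∅` (if `g₀ m x₀ = m' x₀` then every `g ∉ M` is `g₀ m` times an element... `g x₀ ∈ X₁` for
all `g`: `g = (g m⁻¹ g₀⁻¹) (g₀ m)` with `g m⁻¹ g₀⁻¹ ∈ M`, so `g x₀ = (g m⁻¹ g₀⁻¹) m' x₀ ∈ X₁`, contradiction).  So
`|X₁| = |X| / 2 = 2 ^ (k - 1)` (`g₀` is a bijection of `X₁` and its complement).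
 (b1) `t x₀ = x₀`: `t = 1` on `X₁` and `t = c` off `X₁`: `nd_split` with `e = t` (`g₀⁻¹` maps the complement to `X₁`:
 `g₀⁻¹ = g₀ g₀⁻²`, or `X = X₁ ∪ g₀ X₁`).
 (b2) `t x₀ = c x₀`: `c t = 1` on `X₁` and `c t = c` off `X₁`: `nd_split` with `e = c t`.
 (b3) otherwise `t x ≠ x, c x` for all `x ∈ X₁`, and for `x = g₀ y` as well (`t g₀ y = c g₀ t y = g₀ (c t y)`), so
 `Four X M c t`.  If `k ≥ 4` then `8 ∣ |X₁|`: `nd_two`.  If `k = 3` then `|X₁| = 4`, `X₁` = the four elements `InB c t x₀`, and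
 the complement is `InB c t (g₀ x₀)`: `nd_four`. -/
theorem nd_vfour [MulAction.IsPretransitive G X] [FaithfulSMul G X] {c t : G} (hc : CC G X c)
    (t2 : t * t = 1) (t1 : t ≠ 1) (tc : t ≠ c) (hall : ∀ g : G, g * t = t * g ∨ g * t = c * t * g)
    {k : ℕ} (hk : 3 ≤ k) (hX : Fintype.card X = 2 ^ k) :
    (∃ f : X → ℤ, Sgn c f ∧ Nd c ⊤ f) ∨ (Fintype.card X = 8 ∧ Nonempty (G ≃* DihedralGroup 4)) := by
  have hne : Nonempty X := by
    rw [← Fintype.card_pos_iff, hX]; positivity
  obtain ⟨x₀⟩ := hne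
  set M : Subgroup G := Subgroup.centralizer {t} with hMdef
  have memM : ∀ g : G, g ∈ M ↔ g * t = t * g := fun g => by
    rw [hMdef, Subgroup.mem_centralizer_singleton_iff]
  have outM : ∀ g : G, g ∉ M → g * t = c * t * g := fun g hg =>
    (hall g).resolve_left fun h => hg ((memM g).2 h)
  have cM : c ∈ M := (memM c).2 (hc.cen t).symm
  have tM : t ∈ M := (memM t).2 rfl
  have prodM : ∀ g h : G, g ∉ M → h ∉ M → g * h ∈ M := fun g h hg hh => by
    rw [memM, mul_assoc, outM h hh, mul_assoc c t h, ← mul_assoc g c, hc.cen g, mul_assoc c g,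
      ← mul_assoc g t h, outM g hg]
    calc c * (c * t * g * h) = (c * c) * t * g * h := by simp only [mul_assoc]
      _ = t * (g * h) := by rw [hc.sq, one_mul, mul_assoc]
  have invM : ∀ g : G, g ∉ M → g⁻¹ ∉ M := fun g hg h => hg (by simpa using M.inv_mem h)
  have hxx : x₀ ∈ orb M x₀ := ⟨1, M.one_mem, one_smul _ _⟩
  have orbM : ∀ a ∈ M, ∀ x ∈ orb M x₀, a • x ∈ orb M x₀ := by
    rintro a ha _ ⟨m, hm, rfl⟩
    exact ⟨a * m, M.mul_mem ha hm, mul_smul _ _ _⟩
  have tcomm : ∀ m ∈ M, t • m • x₀ = m • t • x₀ := fun m hm => by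
    rw [← mul_smul, ← mul_smul, (memM m).1 hm]
  have ccomm : ∀ (g : G) (x : X), c • g • x = g • c • x := fun g x => by
    rw [← mul_smul, ← mul_smul, hc.cen g]
  have cc : ∀ x : X, c • c • x = x := fun x => by rw [← mul_smul, hc.sq, one_smul]
  by_cases htr : ∀ x : X, x ∈ orb M x₀
  · left
    have tfree : ∀ x : X, t • x ≠ x := by
      intro x hx
      obtain ⟨m', hm', hm'x⟩ := htr x
      have h0 : t • x₀ = x₀ := by
        rw [← hm'x, tcomm m' hm'] at hx
        exact (MulAction.injective m') hx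
      apply t1
      apply FaithfulSMul.eq_of_smul_eq_smul (α := X)
      intro y
      obtain ⟨m, hm, hmy⟩ := htr y
      rw [← hmy, tcomm m hm, h0, one_smul]
    have tcfree : ∀ x : X, t • x ≠ c • x := by
      intro x hx
      obtain ⟨m', hm', hm'x⟩ := htr x
      have h0 : t • x₀ = c • x₀ := by
        rw [← hm'x, tcomm m' hm', ccomm] at hx
        exact (MulAction.injective m') hx
      apply tc
      apply FaithfulSMul.eq_of_smul_eq_smul (α := X)
      intro y
      obtain ⟨m, hm, hmy⟩ := htr y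
      rw [← hmy, tcomm m hm, h0, ccomm]
    have hF : Four X M c t := ⟨cM, tM, fun m _ => hc.cen m, fun m hm => (memM m).1 hm, hc.sq, t2,
      hc.free, tfree, tcfree⟩
    exact nd_trans hF x₀ htr (by rw [hX]; exact pow_dvd_pow 2 hk)
  · push Not at htr
    obtain ⟨z, hz⟩ := htr
    obtain ⟨g₀, hg₀z⟩ := MulAction.exists_smul_eq G x₀ z
    have hg₀ : g₀ ∉ M := fun h => hz ⟨g₀, h, hg₀z⟩
    have hg := outM g₀ hg₀
    have hg2 : g₀ * g₀ ∈ M := prodM _ _ hg₀ hg₀
    have tg : ∀ y : X, t • g₀ • y = c • g₀ • t • y := fun y => by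
      rw [← mul_smul g₀ t y, hg, ← mul_smul, ← mul_smul]
      congr 1
      calc t * g₀ = (c * c) * t * g₀ := by rw [hc.sq, one_mul]
        _ = c * (c * t * g₀) := by simp only [mul_assoc]
    have hXX : ∀ x : X, x ∉ orb M x₀ → ∃ y ∈ orb M x₀, g₀ • y = x := by
      intro x hx
      obtain ⟨g, hgx⟩ := MulAction.exists_smul_eq G x₀ x
      have hgM : g ∉ M := fun h => hx ⟨g, h, hgx⟩
      refine ⟨(g₀⁻¹ * g) • x₀, ⟨_, prodM _ _ (invM _ hg₀) hgM, rfl⟩, ?_⟩
      rw [← mul_smul, mul_inv_cancel_left, hgx]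
    have hg1 : ∀ x ∈ orb M x₀, g₀ • x ∉ orb M x₀ := by
      rintro x ⟨m, hm, rfl⟩ ⟨m', hm', h⟩
      apply hz
      have h1 : g₀ * m⁻¹ ∉ M := fun h1 => hg₀ (by
        have := M.mul_mem h1 hm
        rwa [inv_mul_cancel_right] at this)
      have h2 : g₀ * m⁻¹ * g₀⁻¹ ∈ M := prodM _ _ h1 (invM _ hg₀)
      refine ⟨g₀ * m⁻¹ * g₀⁻¹ * m', M.mul_mem h2 hm', ?_⟩
      rw [mul_smul, h, ← mul_smul, ← mul_smul, ← hg₀z]
      congr 1
      group
    have hg2' : ∀ x, x ∉ orb M x₀ → g₀⁻¹ • x ∈ orb M x₀ := by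
      intro x hx
      obtain ⟨y, hy, rfl⟩ := hXX x hx
      rwa [inv_smul_smul]
    have hcard : 2 * (orb M x₀).ncard = 2 ^ k := by
      have h1 : (orb M x₀)ᶜ = (fun x => g₀ • x) '' orb M x₀ := by
        ext x
        constructor
        · intro hx
          obtain ⟨y, hy, hyx⟩ := hXX x hx
          exact ⟨y, hy, hyx⟩
        · rintro ⟨y, hy, rfl⟩
          exact hg1 y hy
      have h2 := Set.ncard_add_ncard_compl (orb M x₀)
      rw [h1, Set.ncard_image_of_injective _ (MulAction.injective g₀), Nat.card_eq_fintype_card,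
        hX] at h2
      omega
    have hncard : (orb M x₀).ncard = 2 ^ (k - 1) := by
      have : 2 ^ k = 2 * 2 ^ (k - 1) := by
        rw [← pow_succ']; congr 1; omega
      omega
    by_cases hb1 : t • x₀ = x₀
    · left
      have t1x : ∀ x ∈ orb M x₀, t • x = x := by
        rintro _ ⟨m, hm, rfl⟩
        rw [tcomm m hm, hb1]
      refine nd_split hc (X₁ := orb M x₀) (e := t) (g₀ := g₀) (fun x hx => orbM c cM x hx) t1x ?_
        hg1 hg2' hxx
      intro x hx
      obtain ⟨y, hy, rfl⟩ := hXX x hx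
      rw [tg, t1x y hy]
    by_cases hb2 : t • x₀ = c • x₀
    · left
      have t1x : ∀ x ∈ orb M x₀, t • x = c • x := by
        rintro _ ⟨m, hm, rfl⟩
        rw [tcomm m hm, hb2, ccomm]
      refine nd_split hc (X₁ := orb M x₀) (e := c * t) (g₀ := g₀) (fun x hx => orbM c cM x hx) ?_ ?_
        hg1 hg2' hxx
      · intro x hx
        rw [mul_smul, t1x x hx, cc]
      · intro x hx
        obtain ⟨y, hy, rfl⟩ := hXX x hx
        rw [mul_smul, tg, cc, t1x y hy, ccomm]
    have tf1 : ∀ x ∈ orb M x₀, t • x ≠ x := by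
      rintro _ ⟨m, hm, rfl⟩ h
      rw [tcomm m hm] at h
      exact hb1 (MulAction.injective m h)
    have tf2 : ∀ x ∈ orb M x₀, t • x ≠ c • x := by
      rintro _ ⟨m, hm, rfl⟩ h
      rw [tcomm m hm, ccomm] at h
      exact hb2 (MulAction.injective m h)
    have tfree : ∀ x : X, t • x ≠ x := by
      intro x
      by_cases hx : x ∈ orb M x₀
      · exact tf1 x hx
      obtain ⟨y, hy, rfl⟩ := hXX x hx
      rw [tg, ccomm]
      intro h
      have h1 : c • t • y = y := MulAction.injective g₀ h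
      apply tf2 y hy
      rw [← cc (t • y), h1]
    have tcfree : ∀ x : X, t • x ≠ c • x := by
      intro x
      by_cases hx : x ∈ orb M x₀
      · exact tf2 x hx
      obtain ⟨y, hy, rfl⟩ := hXX x hx
      rw [tg]
      intro h
      exact tf1 y hy (MulAction.injective g₀ (MulAction.injective c h))
    have hF : Four X M c t := ⟨cM, tM, fun m _ => hc.cen m, fun m hm => (memM m).1 hm, hc.sq, t2,
      hc.free, tfree, tcfree⟩
    by_cases hk4 : 4 ≤ k
    · left
      refine nd_two hc hF hg hg2 x₀ hXX ?_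
      rw [Nat.card_coe_set_eq, hncard]
      exact pow_dvd_pow 2 (m := 3) (by omega)
    · have hk3 : k = 3 := by omega
      subst hk3
      have hset : ({x₀, t • x₀, c • x₀, c • t • x₀} : Set X) = orb M x₀ := by
        refine Set.eq_of_subset_of_ncard_le ?_ ?_ (Set.toFinite _)
        · intro x hx
          rcases hx with rfl | rfl | rfl | rfl
          · exact hxx
          · exact orbM t tM _ hxx
          · exact orbM c cM _ hxx
          · exact orbM c cM _ (orbM t tM _ hxx)
        · have e1 : x₀ ≠ t • x₀ := fun h => hb1 h.symm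
          have e2 : x₀ ≠ c • x₀ := fun h => hc.free x₀ h.symm
          have e3 : x₀ ≠ c • t • x₀ := fun h => hb2 (by
            conv_rhs => rw [h]
            rw [cc])
          have e4 : t • x₀ ≠ c • x₀ := hb2
          have e5 : t • x₀ ≠ c • t • x₀ := fun h => hc.free _ h.symm
          have e6 : c • x₀ ≠ c • t • x₀ := fun h => e1 (MulAction.injective c h)
          rw [hncard, Set.ncard_insert_of_notMem (by simp [e1, e2, e3]),
            Set.ncard_insert_of_notMem (by simp [e4, e5]), Set.ncard_pair e6]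
          norm_num
      have hIn : ∀ x : X, InB c t x₀ x ↔ x ∈ orb M x₀ := by
        intro x
        rw [← hset]
        rfl
      have hfour := nd_four hc hF hg hall (x₀ := x₀)
        (fun m hm => (hIn _).2 ⟨m, hm, rfl⟩) ?_ ?_
      · rcases hfour with h | h
        · exact Or.inl h
        · exact Or.inr ⟨by rw [hX]; norm_num, h⟩
      · intro x
        by_cases hx : x ∈ orb M x₀
        · exact Or.inl ((hIn x).2 hx)
        · right
          obtain ⟨y, hy, rfl⟩ := hXX x hx
          rcases (hIn y).2 hy with h | h | h | h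
          · left; rw [h]
          · right; right; right
            rw [tg, cc, h]
          · right; right; left
            rw [h, ccomm]
          · right; left
            rw [h, tg x₀, ccomm g₀ (t • x₀)]
      · rintro x ⟨h1, h2⟩
        have hx1 := (hIn x).1 h1
        have hx2 : g₀ • x₀ ∉ orb M x₀ := hg1 _ hxx
        apply hx2
        rcases h2 with h | h | h | h
        · rw [← h]; exact hx1
        · have := orbM t⁻¹ (M.inv_mem tM) _ hx1
          rwa [h, inv_smul_smul] at this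
        · have := orbM c⁻¹ (M.inv_mem cM) _ hx1
          rwa [h, inv_smul_smul] at this
        · have := orbM t⁻¹ (M.inv_mem tM) _ (orbM c⁻¹ (M.inv_mem cM) _ hx1)
          rwa [h, inv_smul_smul, inv_smul_smul] at this

end

end Pool.MP43e44c.NT
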