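import Pool.Agent.H.MP_43e44c_ag.NT.OddB
import Pool.Agent.H.MP_43e44c_ag.NT.VFour
import Pool.Agent.H.MP_43e44c_ag.NT.Small
import Pool.Agent.H.MP_43e44c_ag.NT.GrpB
import Pool.Agent.H.MP_43e44c_ag.NT.CycB

/-!
Nondegenerate CM types: the classification for transitive groups.
-/

set_option autoImplicit false

open Finset

namespace Pool.MP43e44c.NT

section

variable {G : Type*} [Group G] {X : Type*} [MulAction G X] [Fintype X]

/-- PROOF. `exists_str` gives `r, h`; `h = 2 ^ a` (`2 h` is the order of an element of a 2-group).  If all `g ∈ zpowers r`: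
`nd_cyc_one` (pretransitivity).  Otherwise `G = C ∪ C γ`; if `γ x₀ ∈ C x₀` then `C x₀ = X`: `nd_cyc_one`; otherwise
`nd_cyc_two` or `nd_cyc_three`. -/
theorem nd_no_four [Finite G] [MulAction.IsPretransitive G X] (hG : IsPGroup 2 G) {c : G}
    (hc : CC G X c) (x₀ : X)
    (hno : ¬ ∃ t : G, t * t = 1 ∧ t ≠ 1 ∧ t ≠ c ∧ ∀ g : G, g * t = t * g ∨ g * t = c * t * g) :
    ∃ f : X → ℤ, Sgn c f ∧ Nd c ⊤ f := by
  have c1 : c ≠ 1 := by
    intro h1
    apply hc.free x₀
    rw [h1, one_smul]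
  obtain ⟨r, h, h0, hr, hrc, hcase⟩ := exists_str hG hc.cen hc.sq c1 hno
  have hh : ∃ a : ℕ, h = 2 ^ a := by
    obtain ⟨k, hk⟩ := IsPGroup.iff_orderOf.1 hG r
    rw [hr] at hk
    cases k with
    | zero =>
      rw [pow_zero] at hk
      omega
    | succ k =>
      refine ⟨k, ?_⟩
      rw [pow_succ] at hk
      omega
  obtain ⟨a, hh⟩ := hh
  rcases hcase with hall | ⟨γ, hγ, hall, hcases⟩
  · apply nd_cyc_one hc hh hr hrc x₀
    intro x
    obtain ⟨g, hg⟩ := MulAction.exists_smul_eq G x₀ x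
    obtain ⟨i, hi⟩ := Subgroup.mem_zpowers_iff.1 (hall g)
    exact ⟨i, by rw [hi, hg]⟩
  · have hX : ∀ x : X, (∃ i : ℤ, r ^ i • x₀ = x) ∨ ∃ i : ℤ, r ^ i • γ • x₀ = x := by
      intro x
      obtain ⟨g, hg⟩ := MulAction.exists_smul_eq G x₀ x
      rcases hall g with h1 | ⟨i, h1⟩
      · obtain ⟨i, hi⟩ := Subgroup.mem_zpowers_iff.1 h1
        exact Or.inl ⟨i, by rw [hi, hg]⟩
      · exact Or.inr ⟨i, by rw [← mul_smul, ← h1, hg]⟩
    by_cases hX' : ∃ i : ℤ, r ^ i • x₀ = γ • x₀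
    · obtain ⟨j, hj⟩ := hX'
      apply nd_cyc_one hc hh hr hrc x₀
      intro x
      rcases hX x with h1 | ⟨i, h1⟩
      · exact h1
      · refine ⟨i + j, ?_⟩
        rw [zpow_add, mul_smul, hj, h1]
    · have hX'' : ∀ i : ℤ, r ^ i • x₀ ≠ γ • x₀ := fun i hi => hX' ⟨i, hi⟩
      rcases hcases with h1 | ⟨h1, h2, h3⟩
      · exact nd_cyc_two hc hh hr hrc x₀ hX hX'' h1
      · exact nd_cyc_three hc hh hr hrc x₀ hX hX'' h1 h2 h3

/-- PROOF. If `G` is not a 2-group there is an element `h ≠ 1` of odd order (Cauchy for an odd prime divisor of `Nat.card G`) and `x₀` with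
`h x₀ ≠ x₀` (faithful): `nd_of_odd`.  If `G` is a 2-group, `|X| = 2 ^ k` (`|X|` divides `|G|`), `k ≥ 1` (`c x₀ ≠ x₀`).  `k = 1`:
`nd_card_two`, `k = 2`: `nd_card_four`, `k ≥ 3`: `nd_vfour` or `nd_no_four`. -/
theorem exists_nd [Finite G] [MulAction.IsPretransitive G X] [FaithfulSMul G X] {c : G}
    (hc : CC G X c) (x₀ : X) :
    (∃ f : X → ℤ, Sgn c f ∧ Nd c ⊤ f) ∨
      (Fintype.card X = 4 ∧ Nat.card G = 4 ∧ ∀ g : G, g * g = 1) ∨
      (Fintype.card X = 8 ∧ Nonempty (G ≃* DihedralGroup 4)) := by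
  by_cases hG : IsPGroup 2 G
  · have hidx : ∃ k : ℕ, Fintype.card X = 2 ^ k := by
      haveI : Fact (Nat.Prime 2) := ⟨Nat.prime_two⟩
      obtain ⟨k, hk⟩ := hG.index (MulAction.stabilizer G x₀)
      refine ⟨k, ?_⟩
      rw [← hk, MulAction.index_stabilizer_of_transitive, Nat.card_eq_fintype_card]
    obtain ⟨k, hk⟩ := hidx
    have hk0 : k ≠ 0 := by
      rintro rfl
      rw [pow_zero, Fintype.card_eq_one_iff] at hk
      obtain ⟨x, hx⟩ := hk
      apply hc.free x₀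
      rw [hx (c • x₀), hx x₀]
    by_cases hk1 : k = 1
    · subst hk1
      exact Or.inl (nd_card_two hc (by simpa using hk))
    by_cases hk2 : k = 2
    · subst hk2
      have h4 : Fintype.card X = 4 := by rw [hk]; norm_num
      rcases nd_card_four hc h4 with h1 | ⟨h1, h2⟩
      · exact Or.inl h1
      · exact Or.inr (Or.inl ⟨h4, h1, h2⟩)
    have hk3 : 3 ≤ k := by omega
    by_cases ht : ∃ t : G, t * t = 1 ∧ t ≠ 1 ∧ t ≠ c ∧ ∀ g : G, g * t = t * g ∨ g * t = c * t * g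
    · obtain ⟨t, t2, t1, tc, hall⟩ := ht
      rcases nd_vfour hc t2 t1 tc hall hk3 hk with h1 | h1
      · exact Or.inl h1
      · exact Or.inr (Or.inr h1)
    · exact Or.inl (nd_no_four hG hc x₀ ht)
  · have hex : ∃ h : G, Odd (orderOf h) ∧ h ≠ 1 := by
      by_contra hcon
      push Not at hcon
      apply hG
      intro g
      obtain ⟨k, m, hm, hn⟩ := Nat.exists_eq_two_pow_mul_odd (orderOf_pos g).ne'
      refine ⟨k, hcon _ ?_⟩
      rw [orderOf_pow_of_dvd (pow_ne_zero k two_ne_zero) ⟨m, hn⟩, hn,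
        Nat.mul_div_cancel_left m (by positivity)]
      exact hm
    obtain ⟨h, hodd, h1⟩ := hex
    have hx : ∃ x : X, h • x ≠ x := by
      by_contra hcon
      push Not at hcon
      apply h1
      apply FaithfulSMul.eq_of_smul_eq_smul (α := X)
      intro x
      rw [hcon x, one_smul]
    obtain ⟨x, hx⟩ := hx
    exact Or.inl (nd_of_odd hc hodd hx)

end

end Pool.MP43e44c.NT
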