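import Pool.Agent.H.MP_43e44c_ag.NT.Bas

/-!
Nondegenerate CM types: groups with an element of odd order, preparations.
-/

set_option autoImplicit false

open Finset

namespace Pool.MP43e44c.NT

section

variable {G : Type*} [Group G] {X : Type*} [MulAction G X]

theorem OddA_fix {k : G} (hodd : Odd (orderOf k)) {z : X} (h2 : k ^ 2 • z = z) : k • z = z := by
  obtain ⟨j, hj⟩ := hodd
  have h1 : k ^ (2 * (j + 1)) = k := by
    have : 2 * (j + 1) = orderOf k + 1 := by omega
    rw [this, pow_succ, pow_orderOf_eq_one, one_mul]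
  have h4 : ∀ m : ℕ, (k ^ 2) ^ m • z = z := by
    intro m
    induction m with
    | zero => simp
    | succ m ih => rw [pow_succ, mul_smul, h2, ih]
  have h5 := h4 (j + 1)
  rwa [← pow_mul, h1] at h5

/-- PROOF. If `k z = c z` with `k ∈ zpowers h` then `k² z = k c z = c k z = c c z = z`; `k` has odd order `2 j + 1`
(it divides `orderOf h`), so `k z = (k²)^(j+1) z = z`, and `c z = z`, contradiction. -/
theorem zpow_free {c h : G} (hc : CC G X c) (hodd : Odd (orderOf h)) :
    ∀ z : X, ∀ k ∈ Subgroup.zpowers h, k • z ≠ c • z := by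
  intro z k hk hkz
  have h2 : k ^ 2 • z = z := by
    rw [pow_two, mul_smul, hkz, ← mul_smul, hc.cen k, mul_smul, hkz, ← mul_smul, hc.sq, one_smul]
  have h3 : k • z = z := OddA_fix (hodd.of_dvd_nat (orderOf_dvd_of_mem_zpowers hk)) h2
  rw [h3] at hkz
  exact hc.free z hkz.symm

/-- The sign functions invariant under an element of odd order.
PROOF. `zpow_free` and `exists_inv_sgn` with `K = zpowers h`. -/
theorem exists_odd_sgn {c h : G} (hc : CC G X c) (hodd : Odd (orderOf h)) :
    ∃ s : X → ℤ, Sgn c s ∧ ∀ x, s (h • x) = s x := by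
  obtain ⟨s, hs, hinv⟩ := exists_inv_sgn (X := X) (Subgroup.zpowers h) (fun k _ => hc.cen k) hc.sq
    (zpow_free hc hodd)
  exact ⟨s, hs, hinv h (Subgroup.mem_zpowers h)⟩

/-- The map to the cosets of a subgroup which contains the stabiliser. PROOF. `π x = g` for a chosen `g` with
`g • x₀ = x`. The fibres of `π` are translates of each other; the fibre of `π x₀ = 1` contains `x₀`, `h x₀` and
`h⁻¹ x₀`, which are different if `h x₀ ≠ x₀` and `h` has odd order (`h² x₀ = x₀` implies `h x₀ = x₀`). -/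
theorem exists_proj [Fintype X] [MulAction.IsPretransitive G X] (x₀ : X) (B : Subgroup G)
    (hB : MulAction.stabilizer G x₀ ≤ B) {h : G} (hh : h ∈ B) (hodd : Odd (orderOf h))
    (hx₀ : h • x₀ ≠ x₀) :
    ∃ (π : X → G ⧸ B) (b : ℕ), 3 ≤ b ∧ π x₀ = QuotientGroup.mk 1 ∧ (∀ (g : G) (x : X), π (g • x) = g • π x) ∧
      ∀ y : G ⧸ B, Nat.card {x : X // π x = y} = b := by
  classical
  choose γ hγ using fun x : X => MulAction.exists_smul_eq G x₀ x
  have hmk : ∀ (g : G) (x : X), g • x₀ = x →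
      (QuotientGroup.mk (γ x) : G ⧸ B) = QuotientGroup.mk g := by
    intro g x hg
    rw [QuotientGroup.eq]
    apply hB
    rw [MulAction.mem_stabilizer_iff, mul_smul, hg, inv_smul_eq_iff, hγ]
  have hequiv : ∀ (g : G) (x : X), (QuotientGroup.mk (γ (g • x)) : G ⧸ B) =
      g • (QuotientGroup.mk (γ x) : G ⧸ B) := by
    intro g x
    rw [hmk (g * γ x) (g • x) (by rw [mul_smul, hγ])]
    rfl
  have h1 : (QuotientGroup.mk (γ x₀) : G ⧸ B) = QuotientGroup.mk 1 := hmk 1 x₀ (one_smul _ _)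
  refine ⟨fun x => QuotientGroup.mk (γ x), Nat.card {x : X // (QuotientGroup.mk (γ x) : G ⧸ B) =
    QuotientGroup.mk 1}, ?_, h1, hequiv, ?_⟩
  · have hb : ∀ k ∈ B, (QuotientGroup.mk (γ (k • x₀)) : G ⧸ B) = QuotientGroup.mk 1 := by
      intro k hk
      rw [hmk k (k • x₀) rfl, QuotientGroup.eq, mul_one]
      exact B.inv_mem hk
    have hne1 : x₀ ≠ h⁻¹ • x₀ := by
      intro he
      apply hx₀
      rw [eq_inv_smul_iff] at he
      exact he
    have hne2 : h • x₀ ≠ h⁻¹ • x₀ := by
      intro he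
      apply hx₀
      rw [eq_inv_smul_iff, ← mul_smul, ← pow_two] at he
      exact OddA_fix hodd he
    have hsub : ({x₀, h • x₀, h⁻¹ • x₀} : Finset X) ⊆
        Finset.univ.filter (fun x => (QuotientGroup.mk (γ x) : G ⧸ B) = QuotientGroup.mk 1) := by
      intro x hx
      simp only [Finset.mem_insert, Finset.mem_singleton] at hx
      rw [Finset.mem_filter]
      refine ⟨Finset.mem_univ _, ?_⟩
      rcases hx with rfl | rfl | rfl
      · exact h1
      · exact hb h hh
      · exact hb h⁻¹ (B.inv_mem hh)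
    have hcard : ({x₀, h • x₀, h⁻¹ • x₀} : Finset X).card = 3 :=
      Finset.card_eq_three.2 ⟨x₀, h • x₀, h⁻¹ • x₀, hx₀.symm, hne1, hne2, rfl⟩
    rw [Nat.card_eq_fintype_card, Fintype.card_subtype, ← hcard]
    exact Finset.card_le_card hsub
  · intro y
    obtain ⟨g, rfl⟩ := QuotientGroup.mk_surjective y
    refine Nat.card_congr ⟨fun x => ⟨g⁻¹ • x.1, ?_⟩, fun x => ⟨g • x.1, ?_⟩, fun x => ?_, fun x => ?_⟩
    · have hx : (QuotientGroup.mk (γ x.1) : G ⧸ B) = QuotientGroup.mk g := x.2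
      rw [hequiv, hx]
      change (QuotientGroup.mk (g⁻¹ * g) : G ⧸ B) = _
      rw [inv_mul_cancel]
    · have hx : (QuotientGroup.mk (γ x.1) : G ⧸ B) = QuotientGroup.mk 1 := x.2
      change (QuotientGroup.mk (γ (g • x.1)) : G ⧸ B) = _
      rw [hequiv, hx]
      change (QuotientGroup.mk (g * 1) : G ⧸ B) = _
      rw [mul_one]
    · exact Subtype.ext (smul_inv_smul g x.1)
    · exact Subtype.ext (inv_smul_smul g x.1)

end

end Pool.MP43e44c.NT
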