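import Pool.Agent.H.MP_43e44c_ag.NT.OddA

/-!
Nondegenerate CM types: groups with an element of odd order.
-/

set_option autoImplicit false

open Finset

namespace Pool.MP43e44c.NT

section

variable {G : Type*} [Group G] {X : Type*} [MulAction G X]

/-- PROOF. `T = {b | ∀ g, w (g • b • x₀) = w (g • x₀)}` is a subgroup (closed under products:
`w (g b b' x₀) = w ((g b) b' x₀) = w (g b x₀)`; inverses: take `g b⁻¹` for `g`).  It contains `h` and the
stabiliser. -/
theorem inv_closure {w : X → ℤ} {x₀ : X} {h : G} (hw : ∀ g : G, w (g • h • x₀) = w (g • x₀)) :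
    ∀ b ∈ Subgroup.zpowers h ⊔ MulAction.stabilizer G x₀, ∀ g : G, w (g • b • x₀) = w (g • x₀) := by
  let T : Subgroup G :=
    { carrier := {b | ∀ g : G, w (g • b • x₀) = w (g • x₀)}
      one_mem' := by
        intro g
        rw [one_smul]
      mul_mem' := by
        intro b b' hb hb' g
        have h1 := hb' (g * b)
        have h2 := hb g
        rw [mul_smul, mul_smul] at h1
        rw [mul_smul, h1]
        exact h2
      inv_mem' := by
        intro b hb g
        have h1 := hb (g * b⁻¹)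
        rw [mul_smul, inv_smul_smul, mul_smul] at h1
        exact h1.symm }
  have hle : Subgroup.zpowers h ⊔ MulAction.stabilizer G x₀ ≤ T := by
    refine sup_le ?_ ?_
    · rw [Subgroup.zpowers_le]
      exact hw
    · intro b hb g
      rw [MulAction.mem_stabilizer_iff.1 hb]
  exact fun b hb => hle hb

variable [Fintype X]

/-- The translates of a flipped invariant function. PROOF. `F g = ∑ f₀ x w (g x)` satisfies `F (g h) = F g` (substitute
`x ↦ h x`, `f₀ (h⁻¹ x) = f₀ x`), and `F g = 4 f₀ x₀ w (g x₀)` by `flip_sum`. -/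
theorem flip_inv {c h : G} (hc : CC G X c) {f₀ w : X → ℤ} (hf : Sgn c f₀) (hh : ∀ x, f₀ (h • x) = f₀ x)
    {x₀ : X} (hw : Orth c ⊤ (flip c x₀ f₀) w) : ∀ g : G, w (g • h • x₀) = w (g • x₀) := by
  intro g
  have hsum : ∀ g : G, ∑ x, f₀ x * w (g • x) = 4 * (f₀ x₀ * w (g • x₀)) := by
    intro g
    have h1 := flip_sum hc hf hw.odd x₀ g
    rw [hw.orth g (Subgroup.mem_top g)] at h1
    linarith
  have h1 : ∑ x, f₀ x * w ((g * h) • x) = ∑ x, f₀ x * w (g • x) := by
    have h2 : ∑ x, f₀ (h • x) * w (g • h • x) = ∑ x, f₀ x * w (g • x) :=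
      Equiv.sum_comp (MulAction.toPerm h) (fun x => f₀ x * w (g • x))
    rw [← h2]
    exact Finset.sum_congr rfl fun x _ => by rw [hh, mul_smul]
  rw [hsum, hsum, mul_smul] at h1
  rcases hf.pm x₀ with h3 | h3 <;> rw [h3] at h1 <;> linarith

/-- PROOF. Let `f₀` be an `h`-invariant sign function on `X` (`exists_odd_sgn`) and `f = flip c x₀ f₀`.  For a
solution `w`, `w (g c x₀) = w (g x₀)` by `flip_inv` and `inv_closure`, but `w (g c x₀) = - w (g x₀)`; pretransitivity. -/
theorem nd_odd_one [MulAction.IsPretransitive G X] {c h : G} (hc : CC G X c)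
    (hodd : Odd (orderOf h)) (x₀ : X)
    (hB : c ∈ Subgroup.zpowers h ⊔ MulAction.stabilizer G x₀) :
    ∃ f : X → ℤ, Sgn c f ∧ Nd c ⊤ f := by
  obtain ⟨s, hs, hsh⟩ := exists_odd_sgn (X := X) hc hodd
  refine ⟨flip c x₀ s, flip_sgn hc hs x₀, fun w hw => ?_⟩
  have h1 := inv_closure (flip_inv hc hs hsh hw) c hB
  funext x
  obtain ⟨g, rfl⟩ := MulAction.exists_smul_eq G x₀ x
  have h2 := h1 g
  rw [← mul_smul, hc.cen g, mul_smul, hw.odd] at h2
  rw [Pi.zero_apply]
  linarith

/-- PROOF. Let `B = zpowers h ⊔ stabilizer x₀`, `π, b` from `exists_proj`.  `c` has no fixed points on `G ⧸ B` (if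
`c g B = g B` then `g⁻¹ c g = c ∈ B`), so `CC G (G ⧸ B) c`.  `G ⧸ B` is finite (`π` is surjective: equivariant).  Let `s` be an
`h`-invariant sign function on `G ⧸ B` (`exists_odd_sgn`), `f₀ = s ∘ π`, `f = flip c x₀ f₀`.  For a solution `w`:
`w = u ∘ π` for a function `u` on `G ⧸ B` (`inv_closure`), `u` is odd, and `4 f₀ x₀ w (g x₀) = ∑ x, f₀ x w (g x) =
b ∑ y, s y u (g y)`, and `∑ y, s y u (g y)` is even: `s y` is odd and `∑ y, u (g y) = 0`.  So `b ∣ 2 w (g x₀)` for all
`g`.  If `b` is odd, `b` divides all `w x`; if `b = 2 b'` then `b' ≥ 2` divides all `w x`: `nd_of_dvd`. -/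
theorem nd_odd_two [MulAction.IsPretransitive G X] {c h : G} (hc : CC G X c)
    (hodd : Odd (orderOf h)) (x₀ : X) (hx₀ : h • x₀ ≠ x₀)
    (hB : c ∉ Subgroup.zpowers h ⊔ MulAction.stabilizer G x₀) :
    ∃ f : X → ℤ, Sgn c f ∧ Nd c ⊤ f := by
  classical
  set B : Subgroup G := Subgroup.zpowers h ⊔ MulAction.stabilizer G x₀ with hBdef
  have hhB : h ∈ B := Subgroup.mem_sup_left (Subgroup.mem_zpowers h)
  have hSB : MulAction.stabilizer G x₀ ≤ B := le_sup_right
  obtain ⟨π, b, hb3, hπ0, hπ, hcard⟩ := exists_proj x₀ B hSB hhB hodd hx₀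
  have hπg : ∀ g : G, π (g • x₀) = QuotientGroup.mk g := by
    intro g
    rw [hπ, hπ0]
    show (QuotientGroup.mk (g * 1) : G ⧸ B) = QuotientGroup.mk g
    rw [mul_one]
  have hsurj : Function.Surjective π := by
    intro y
    obtain ⟨g, rfl⟩ := QuotientGroup.mk_surjective y
    exact ⟨g • x₀, hπg g⟩
  have : Finite (G ⧸ B) := Finite.of_surjective π hsurj
  let _ : Fintype (G ⧸ B) := Fintype.ofFinite _
  have hcc : CC G (G ⧸ B) c := by
    refine ⟨hc.cen, hc.sq, ?_⟩
    intro y hy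
    obtain ⟨g, rfl⟩ := QuotientGroup.mk_surjective y
    have h1 : (QuotientGroup.mk (c * g) : G ⧸ B) = QuotientGroup.mk g := hy
    rw [QuotientGroup.eq] at h1
    apply hB
    have h2 : (c * g)⁻¹ * g = c⁻¹ := by
      rw [← hc.cen g]; group
    rw [h2] at h1
    exact (Subgroup.inv_mem_iff B).1 h1
  obtain ⟨s, hs, hsh⟩ := exists_odd_sgn (X := G ⧸ B) hcc hodd
  have hf₀ : Sgn c (fun x => s (π x)) :=
    ⟨fun x => hs.pm _, fun x => by show s (π (c • x)) = -s (π x); rw [hπ, hs.odd]⟩
  have hf₀h : ∀ x, (fun x => s (π x)) (h • x) = (fun x => s (π x)) x := by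
    intro x
    show s (π (h • x)) = s (π x)
    rw [hπ, hsh]
  refine ⟨flip c x₀ (fun x => s (π x)), flip_sgn hc hf₀ x₀, ?_⟩
  have key : ∀ w, Orth c ⊤ (flip c x₀ (fun x => s (π x))) w → ∀ x, (b : ℤ) ∣ 2 * w x := by
    intro w hw x
    obtain ⟨g, rfl⟩ := MulAction.exists_smul_eq G x₀ x
    have h1 := inv_closure (flip_inv hc hf₀ hf₀h hw)
    let u : G ⧸ B → ℤ := fun y => w (Quotient.out y • x₀)
    have hu : ∀ x, w x = u (π x) := by
      intro x
      obtain ⟨k, rfl⟩ := MulAction.exists_smul_eq G x₀ x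
      rw [hπg k]
      show w (k • x₀) = w (Quotient.out (QuotientGroup.mk k : G ⧸ B) • x₀)
      obtain ⟨k', hk'⟩ := QuotientGroup.mk_out_eq_mul B k
      rw [hk', mul_smul]
      exact (h1 k'.1 k'.2 k).symm
    have huodd : ∀ y, u (c • y) = -u y := by
      intro y
      obtain ⟨x, rfl⟩ := hsurj y
      rw [← hπ, ← hu, ← hu, hw.odd]
    have hsum : ∑ x, s (π x) * w (g • x) = (b : ℤ) * ∑ y, s y * u (g • y) := by
      have h2 : ∑ x, s (π x) * w (g • x) = ∑ x, (fun y => s y * u (g • y)) (π x) :=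
        Finset.sum_congr rfl fun x _ => by
          show s (π x) * w (g • x) = s (π x) * u (g • π x)
          rw [hu, hπ]
      rw [h2, ← Finset.sum_fiberwise Finset.univ π, Finset.mul_sum]
      refine Finset.sum_congr rfl fun y _ => ?_
      have h3 : ∀ x ∈ Finset.univ.filter (fun x => π x = y),
          (fun y => s y * u (g • y)) (π x) = s y * u (g • y) := by
        intro x hx
        rw [(Finset.mem_filter.1 hx).2]
      rw [Finset.sum_congr rfl h3, Finset.sum_const, nsmul_eq_mul]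
      congr 1
      have h4 := hcard y
      rw [Nat.card_eq_fintype_card, Fintype.card_subtype] at h4
      exact_mod_cast h4
    have heven : (2 : ℤ) ∣ ∑ y, s y * u (g • y) := by
      have h5 : ∑ y, u (g • y) = 0 := by
        have h6 : ∑ y, u (g • c • y) = ∑ y, u (g • y) :=
          Equiv.sum_comp (MulAction.toPerm c) (fun y : G ⧸ B => u (g • y))
        have h7 : ∑ y, u (g • c • y) = -∑ y, u (g • y) := by
          rw [← Finset.sum_neg_distrib]
          exact Finset.sum_congr rfl fun y _ => by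
            rw [← mul_smul, hc.cen g, mul_smul, huodd]
        linarith
      have h8 : ∑ y, s y * u (g • y) = ∑ y, (s y - 1) * u (g • y) := by
        have h9 : ∑ y, (s y - 1) * u (g • y) = ∑ y, s y * u (g • y) - ∑ y, u (g • y) := by
          rw [← Finset.sum_sub_distrib]
          exact Finset.sum_congr rfl fun y _ => by ring
        rw [h9, h5, sub_zero]
      rw [h8]
      refine Finset.dvd_sum fun y _ => Dvd.dvd.mul_right ?_ _
      rcases hs.pm y with h10 | h10 <;> rw [h10] <;> norm_num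
    obtain ⟨k, hk⟩ := heven
    have h11 := flip_sum hc hf₀ hw.odd x₀ g
    rw [hw.orth g (Subgroup.mem_top g), hsum, hk] at h11
    rcases hf₀.pm x₀ with h12 | h12
    · refine ⟨k, ?_⟩
      rw [h12] at h11
      linarith
    · refine ⟨-k, ?_⟩
      rw [h12] at h11
      linarith
  rcases Nat.even_or_odd' b with ⟨b', hb' | hb'⟩
  · refine nd_of_dvd (e := (b' : ℤ)) (by omega) fun w hw x => ?_
    have h1 := key w hw x
    rw [hb'] at h1
    push_cast at h1
    exact (mul_dvd_mul_iff_left (two_ne_zero)).1 h1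
  · refine nd_of_dvd (e := (b : ℤ)) (by omega) fun w hw x => ?_
    have h1 := key w hw x
    refine IsCoprime.dvd_of_dvd_mul_left ?_ h1
    refine ⟨1, -(b' : ℤ), ?_⟩
    rw [hb']
    push_cast
    ring

/-- If the group has a nontrivial element of odd order. -/
theorem nd_of_odd [MulAction.IsPretransitive G X] {c h : G} (hc : CC G X c)
    (hodd : Odd (orderOf h)) {x₀ : X} (hx₀ : h • x₀ ≠ x₀) : ∃ f : X → ℤ, Sgn c f ∧ Nd c ⊤ f := by
  by_cases hB : c ∈ Subgroup.zpowers h ⊔ MulAction.stabilizer G x₀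
  · exact nd_odd_one hc hodd x₀ hB
  · exact nd_odd_two hc hodd x₀ hx₀ hB

end

end Pool.MP43e44c.NT
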