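import Pool.Agent.H.MP_43e44c_ag.NT.Key

/-!
Nondegenerate CM types: 2-groups with a normal four-group, the case of at least 16 embeddings.
-/

set_option autoImplicit false

open Finset

namespace Pool.MP43e44c.NT

section

variable {G : Type*} [Group G] {X : Type*} [MulAction G X] [Fintype X]

/-- PROOF. `f` from `exists_four` (for any `x₀`), `key_ii` with `orb M x₀ = univ`, `nd_of_dvd` with `e = 2`. -/
theorem nd_trans {M : Subgroup G} {c t : G} (h : Four X M c t) (x₀ : X)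
    (htr : ∀ x : X, x ∈ orb M x₀) (h8 : 8 ∣ Fintype.card X) : ∃ f : X → ℤ, Sgn c f ∧ Nd c ⊤ f := by
  obtain ⟨f, hf, h1, h2⟩ := exists_four h x₀
  refine ⟨f, hf, nd_of_dvd (e := 2) le_rfl fun w hw x => ?_⟩
  have hw' : Orth c M f w := ⟨hw.odd, fun g _ => hw.orth g trivial⟩
  have hcard : Nat.card (orb M x₀) = Fintype.card X := by
    have h3 : orb M x₀ = Set.univ := Set.eq_univ_of_forall htr
    rw [h3, Nat.card_univ, Nat.card_eq_fintype_card]
  exact key_ii h hf h1 h2 hw' (by rw [hcard]; exact h8) (fun y hy => absurd (htr y) hy) x (htr x)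

/-- PROOF. `f` from `exists_four`.  Let `w` be a solution (for `⊤`), `w' x = w (g₀ x)`, also a solution (`Orth.translate`), both are
solutions for `M`.  `key_i`: `w (t x) = - w x` for `x ∈ X₁ = orb M x₀`, and `w (g₀ t x) = - w (g₀ x)`; as
`g₀ t = c t g₀`, `w (t g₀ x) = w (g₀ x)` for `x ∈ X₁`, i.e. `w (t z) = w z` for `z ∉ X₁` (`hX`).  For `z ∉ X₁`, `z = g₀ x` with
`x ∈ X₁`, `g₀ z = g₀ g₀ x ∈ X₁` (`hg2`), so `w (t g₀ z) = - w (g₀ z)` and
`w' (t z) = w (g₀ t z) = w (c t g₀ z) = - w (t g₀ z) = w (g₀ z) = w' z`.  So `key_ii` applies to `w` and `w'`: `w` is even on `X₁` and on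
`g₀ X₁`.  `nd_of_dvd`. -/
theorem nd_two {M : Subgroup G} {c t g₀ : G} (hc : CC G X c) (h : Four X M c t)
    (hg : g₀ * t = c * t * g₀) (hg2 : g₀ * g₀ ∈ M) (x₀ : X)
    (hX : ∀ x : X, x ∉ orb M x₀ → ∃ y ∈ orb M x₀, g₀ • y = x) (h8 : 8 ∣ Nat.card (orb M x₀)) :
    ∃ f : X → ℤ, Sgn c f ∧ Nd c ⊤ f := by
  obtain ⟨f, hf, h1, h2⟩ := exists_four h x₀
  refine ⟨f, hf, nd_of_dvd (e := 2) le_rfl fun w hw x => ?_⟩
  have hw1 : Orth c M f w := ⟨hw.odd, fun g _ => hw.orth g trivial⟩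
  have hwt := Orth.translate hc hw g₀
  have hw2 : Orth c M f (fun x => w (g₀ • x)) := ⟨hwt.odd, fun g _ => hwt.orth g trivial⟩
  have k1 := (key_i h hf h1 h2 hw1).1
  have k2 := (key_i h hf h1 h2 hw2).1
  -- `g₀ t = c t g₀` on points
  have e1 : ∀ y : X, g₀ • t • y = c • t • g₀ • y := fun y => by
    rw [← mul_smul, hg, mul_smul, mul_smul]
  have e2 : ∀ y : X, t • g₀ • y = c • g₀ • t • y := fun y => by
    rw [e1, ← mul_smul c c, hc.sq, one_smul]
  have hA : ∀ z, z ∉ orb M x₀ → w (t • z) = w z := by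
    intro z hz
    obtain ⟨y, hy, rfl⟩ := hX z hz
    have h3 : w (g₀ • t • y) = -w (g₀ • y) := k2 y hy
    rw [e2, hw.odd, h3, neg_neg]
  have hB : ∀ z, z ∉ orb M x₀ → w (g₀ • t • z) = w (g₀ • z) := by
    intro z hz
    obtain ⟨y, ⟨m, hm, hmy⟩, rfl⟩ := hX z hz
    have h3 : g₀ • g₀ • y ∈ orb M x₀ :=
      ⟨g₀ * g₀ * m, mul_mem hg2 hm, by rw [mul_smul, hmy, mul_smul]⟩
    rw [e1, hw.odd, k1 _ h3, neg_neg]
  have d1 := key_ii h hf h1 h2 hw1 h8 hA
  have d2 := key_ii h hf h1 h2 hw2 h8 hB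
  by_cases hx : x ∈ orb M x₀
  · exact d1 x hx
  · obtain ⟨y, hy, rfl⟩ := hX x hx
    exact d2 y hy

open Classical in
/-- PROOF. Let `a` be any sign function (`exists_inv_sgn` with `K = ⊥`), `b = flip c x₀ a`, and `f x = a x` for `x ∈ X₁`,
`f x = b (g₀⁻¹ x)` for `x ∉ X₁`: a sign function because `X₁` is stable under `c`, and so is the complement.  Let `w` be a solution, `g ∈ G`.  The equations
for `g` and `g e`: `∑_{X₁} f x w (g x) + ∑_{X - X₁} f x w (g x) = 0`, `∑_{X₁} f x w (g x) - ∑_{X - X₁} f x w (g x) = 0`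
(`w (g e x) = w (g c x) = - w (g x)` off `X₁`).  So `∑_{X₁} a x w (g x) = 0` and, substituting `x = g₀ y`
(bijection `X₁ → X - X₁`) and `g g₀⁻¹` for `g`, `∑_{X₁} b y w (g y) = 0`.  The difference is
`2 a x₀ (w (g x₀) - w (g c x₀)) = 4 a x₀ w (g x₀)`, so `w (g x₀) = 0` for all `g`; pretransitivity. -/
theorem nd_split [MulAction.IsPretransitive G X] {c e g₀ : G} (hc : CC G X c) {X₁ : Set X}
    (hcX : ∀ x ∈ X₁, c • x ∈ X₁) (he1 : ∀ x ∈ X₁, e • x = x) (he2 : ∀ x, x ∉ X₁ → e • x = c • x)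
    (hg1 : ∀ x ∈ X₁, g₀ • x ∉ X₁) (hg2 : ∀ x, x ∉ X₁ → g₀⁻¹ • x ∈ X₁) {x₀ : X} (hx₀ : x₀ ∈ X₁) :
    ∃ f : X → ℤ, Sgn c f ∧ Nd c ⊤ f := by
  obtain ⟨a, ha, -⟩ := exists_inv_sgn (X := X) (⊥ : Subgroup G) (c := c)
    (fun k hk => by rw [Subgroup.mem_bot.1 hk, one_mul, mul_one]) hc.sq
    (fun x k hk => by rw [Subgroup.mem_bot.1 hk, one_smul]; exact (hc.free x).symm)
  have hb := flip_sgn hc ha x₀
  have hcc : ∀ x : X, c • c • x = x := fun x => by rw [← mul_smul, hc.sq, one_smul]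
  have hcX' : ∀ x, x ∉ X₁ → c • x ∉ X₁ := fun x hx h => hx (by rw [← hcc x]; exact hcX _ h)
  have hgc : ∀ (g : G) (x : X), g • c • x = c • g • x := fun g x => by
    rw [← mul_smul, hc.cen, mul_smul]
  refine ⟨fun x => if x ∈ X₁ then a x else flip c x₀ a (g₀⁻¹ • x), ⟨fun x => ?_, fun x => ?_⟩, ?_⟩
  · by_cases hx : x ∈ X₁
    · simp only [if_pos hx]
      exact ha.pm x
    · simp only [if_neg hx]
      exact hb.pm _
  · by_cases hx : x ∈ X₁
    · simp only [if_pos hx, if_pos (hcX x hx)]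
      exact ha.odd x
    · simp only [if_neg hx, if_neg (hcX' x hx)]
      rw [hgc, hb.odd]
  · intro w hw
    set A : Finset X := univ.filter (fun x => x ∈ X₁) with hA
    set B : Finset X := univ.filter (fun x => x ∉ X₁) with hB
    have hmA : ∀ x, x ∈ A ↔ x ∈ X₁ := fun x => by simp [hA]
    have hmB : ∀ x, x ∈ B ↔ x ∉ X₁ := fun x => by simp [hB]
    -- the two equations
    have s1 : ∀ g : G, ∑ x ∈ A, a x * w (g • x) + ∑ x ∈ B, flip c x₀ a (g₀⁻¹ • x) * w (g • x) = 0 := by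
      intro g
      have h1 := hw.orth g trivial
      rw [← Finset.sum_filter_add_sum_filter_not univ (fun x => x ∈ X₁)] at h1
      rw [← h1]
      congr 1
      · exact Finset.sum_congr rfl fun x hx => by rw [if_pos ((hmA x).1 hx)]
      · exact Finset.sum_congr rfl fun x hx => by rw [if_neg ((hmB x).1 hx)]
    have s2 : ∀ g : G, ∑ x ∈ A, a x * w (g • x) - ∑ x ∈ B, flip c x₀ a (g₀⁻¹ • x) * w (g • x) = 0 := by
      intro g
      rw [← s1 (g * e), sub_eq_add_neg, ← Finset.sum_neg_distrib]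
      congr 1
      · refine Finset.sum_congr rfl fun x hx => ?_
        rw [mul_smul, he1 x ((hmA x).1 hx)]
      · refine Finset.sum_congr rfl fun x hx => ?_
        rw [mul_smul, he2 x ((hmB x).1 hx), hgc, hw.odd, mul_neg]
    have sA : ∀ g : G, ∑ x ∈ A, a x * w (g • x) = 0 := fun g => by
      have h1 := s1 g
      have h2 := s2 g
      omega
    have sB : ∀ g : G, ∑ x ∈ A, flip c x₀ a x * w (g • x) = 0 := by
      intro g
      have h1 := s1 (g * g₀⁻¹)
      rw [sA, zero_add] at h1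
      rw [← h1]
      refine Finset.sum_nbij' (fun y => g₀ • y) (fun x => g₀⁻¹ • x) ?_ ?_ ?_ ?_ ?_
      · intro y hy
        exact (hmB _).2 (hg1 y ((hmA y).1 hy))
      · intro x hx
        exact (hmA _).2 (hg2 x ((hmB x).1 hx))
      · intro y _
        exact inv_smul_smul g₀ y
      · intro x _
        exact smul_inv_smul g₀ x
      · intro y _
        show flip c x₀ a y * w (g • y) = flip c x₀ a (g₀⁻¹ • g₀ • y) * w ((g * g₀⁻¹) • g₀ • y)
        rw [mul_smul, inv_smul_smul]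
    have hzero : ∀ g : G, w (g • x₀) = 0 := by
      intro g
      have h1 : ∑ x ∈ A, (a x - flip c x₀ a x) * w (g • x) = 0 := by
        have h2 := sA g
        have h3 := sB g
        simp only [sub_mul, Finset.sum_sub_distrib]
        omega
      have hne : x₀ ≠ c • x₀ := (hc.free x₀).symm
      have h2 : ∑ x ∈ ({x₀, c • x₀} : Finset X), (a x - flip c x₀ a x) * w (g • x) =
          ∑ x ∈ A, (a x - flip c x₀ a x) * w (g • x) := by
        refine Finset.sum_subset ?_ ?_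
        · intro x hx
          rw [Finset.mem_insert, Finset.mem_singleton] at hx
          rcases hx with rfl | rfl
          · exact (hmA _).2 hx₀
          · exact (hmA _).2 (hcX _ hx₀)
        · intro x _ hx
          rw [Finset.mem_insert, Finset.mem_singleton] at hx
          unfold flip
          rw [if_neg hx, sub_self, zero_mul]
      rw [h1, Finset.sum_pair hne] at h2
      unfold flip at h2
      rw [if_pos (Or.inl rfl), if_pos (Or.inr rfl), ha.odd, hgc, hw.odd] at h2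
      have h3 : 4 * (a x₀ * w (g • x₀)) = 0 := by linarith
      have h4 : a x₀ * w (g • x₀) = 0 := by omega
      rcases mul_eq_zero.1 h4 with h5 | h5
      · rcases ha.pm x₀ with h6 | h6 <;> rw [h6] at h5 <;> exact absurd h5 (by decide)
      · exact h5
    funext x
    obtain ⟨g, rfl⟩ := MulAction.exists_smul_eq G x₀ x
    exact hzero g

end

end Pool.MP43e44c.NT
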